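import Mathlib

set_option autoImplicit false

/-!
# Core lemmas for exact six-vertex certificates

* `all2` : loops over bits, to be evaluated by the kernel;
* `tb`   : lookup in a packed table;
* `psd_of_approx` : a quadratic form is nonnegative if it is well approximated by a Gram matrix;
* `sum_psd` : from forms to sums over a finite type.
-/

namespace Pool.Agent.H6Turan

/-- conjunction over both values of a bit -/
def all2 (p : ℕ → Bool) : Bool := (p 0) && (p 1)

theorem all2_spec {p : ℕ → Bool} (h : all2 p = true) {b : ℕ} (hb : b = 0 ∨ b = 1) :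
    p b = true := by
  unfold all2 at h
  rw [Bool.and_eq_true] at h
  rcases hb with rfl | rfl
  · exact h.1
  · exact h.2

/-- entry number `i` of the table `T`, whose entries have `w` bits (`m = 2 ^ w - 1`) -/
def tb (T w m i : ℕ) : ℕ := Nat.land (Nat.shiftRight T (Nat.mul w i)) m

/-- bounded loop: `p i` for all `i < n` -/
def allLt (p : ℕ → Bool) : ℕ → Bool
  | 0 => true
  | n + 1 => (allLt p n) && (p n)

theorem allLt_spec {p : ℕ → Bool} : ∀ {n : ℕ}, allLt p n = true → ∀ i, i < n → p i = true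
  | 0, _, i, hi => absurd hi (Nat.not_lt_zero i)
  | n + 1, h, i, hi => by
    rw [allLt, Bool.and_eq_true] at h
    rcases Nat.lt_succ_iff_lt_or_eq.mp hi with h' | h'
    · exact allLt_spec h.1 i h'
    · subst h'
      exact h.2

/-! ### Quadratic forms -/

/-- the dot product of `L i` and `L j` over the first `k` entries -/
def dotk (L : ℕ → ℕ → ℤ) (i j : ℕ) : ℕ → ℤ
  | 0 => 0
  | k + 1 => dotk L i j k + L i k * L j k

theorem dotk_eq (L : ℕ → ℕ → ℤ) (i j k : ℕ) :
    dotk L i j k = ∑ t ∈ Finset.range k, L i t * L j t := by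
  induction k with
  | zero => rfl
  | succ k ih => rw [dotk, Finset.sum_range_succ, ih]

theorem quad_nonneg_of_diagdom (m : ℕ) (R : ℕ → ℕ → ℤ) (hs : ∀ i < m, ∀ j < m, R i j = R j i)
    (hd : ∀ i < m, ∑ j ∈ Finset.range m, |R i j| ≤ 2 * R i i) (y : ℕ → ℤ) :
    0 ≤ ∑ i ∈ Finset.range m, ∑ j ∈ Finset.range m, R i j * y i * y j := by
  -- off-diagonal part
  have key : ∀ i ∈ Finset.range m, ∀ j ∈ Finset.range m,
      - (|R i j| * (y i ^ 2 + y j ^ 2)) ≤ 2 * (R i j * y i * y j) := by
    intro i _ j _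
    have h1 : |R i j * (2 * (y i * y j))| ≤ |R i j| * (y i ^ 2 + y j ^ 2) := by
      rw [abs_mul]
      apply mul_le_mul_of_nonneg_left _ (abs_nonneg _)
      rw [abs_le]
      constructor <;> nlinarith [sq_nonneg (y i - y j), sq_nonneg (y i + y j)]
    have h2 := neg_abs_le (R i j * (2 * (y i * y j)))
    nlinarith
  have key2 : ∀ i ∈ Finset.range m, ∀ j ∈ Finset.range m,
      (if i = j then 4 * (R i i * y i ^ 2) else 0) - (|R i j| * (y i ^ 2 + y j ^ 2))
        ≤ 2 * (R i j * y i * y j) := by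
    intro i hi j hj
    by_cases hij : i = j
    · subst hij
      rw [if_pos rfl]
      have hRi : 0 ≤ R i i := by
        have := hd i (Finset.mem_range.mp hi)
        have h0 : 0 ≤ ∑ j ∈ Finset.range m, |R i j| :=
          Finset.sum_nonneg (fun _ _ => abs_nonneg _)
        linarith
      rw [abs_of_nonneg hRi]
      nlinarith [sq_nonneg (y i)]
    · rw [if_neg hij]
      have := key i hi j hj
      linarith
  have hsum : ∑ i ∈ Finset.range m, ∑ j ∈ Finset.range m,
      ((if i = j then 4 * (R i i * y i ^ 2) else 0) - (|R i j| * (y i ^ 2 + y j ^ 2)))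
        ≤ ∑ i ∈ Finset.range m, ∑ j ∈ Finset.range m, 2 * (R i j * y i * y j) :=
    Finset.sum_le_sum (fun i hi => Finset.sum_le_sum (fun j hj => key2 i hi j hj))
  have hA : ∑ i ∈ Finset.range m, ∑ j ∈ Finset.range m,
      (if i = j then 4 * (R i i * y i ^ 2) else 0)
        = ∑ i ∈ Finset.range m, 4 * (R i i * y i ^ 2) := by
    apply Finset.sum_congr rfl
    intro i hi
    rw [Finset.sum_ite_eq (Finset.range m) i, if_pos hi]
  have hB : ∑ i ∈ Finset.range m, ∑ j ∈ Finset.range m, |R i j| * (y i ^ 2 + y j ^ 2)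
      = ∑ i ∈ Finset.range m, 2 * ((∑ j ∈ Finset.range m, |R i j|) * y i ^ 2) := by
    have e1 : ∑ i ∈ Finset.range m, ∑ j ∈ Finset.range m, |R i j| * (y i ^ 2 + y j ^ 2)
        = ∑ i ∈ Finset.range m, ∑ j ∈ Finset.range m, |R i j| * y i ^ 2
          + ∑ i ∈ Finset.range m, ∑ j ∈ Finset.range m, |R i j| * y j ^ 2 := by
      rw [← Finset.sum_add_distrib]
      apply Finset.sum_congr rfl
      intro i _
      rw [← Finset.sum_add_distrib]
      apply Finset.sum_congr rfl
      intro j _
      ring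
    have e2 : ∑ i ∈ Finset.range m, ∑ j ∈ Finset.range m, |R i j| * y j ^ 2
        = ∑ i ∈ Finset.range m, ∑ j ∈ Finset.range m, |R i j| * y i ^ 2 := by
      rw [Finset.sum_comm]
      apply Finset.sum_congr rfl
      intro i hi
      apply Finset.sum_congr rfl
      intro j hj
      rw [hs j (Finset.mem_range.mp hj) i (Finset.mem_range.mp hi)]
    rw [e1, e2, ← two_mul, Finset.mul_sum]
    apply Finset.sum_congr rfl
    intro i _
    rw [Finset.sum_mul]
  have hC : ∑ i ∈ Finset.range m, 2 * ((∑ j ∈ Finset.range m, |R i j|) * y i ^ 2)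
      ≤ ∑ i ∈ Finset.range m, 4 * (R i i * y i ^ 2) := by
    apply Finset.sum_le_sum
    intro i hi
    have := hd i (Finset.mem_range.mp hi)
    nlinarith [sq_nonneg (y i), mul_le_mul_of_nonneg_right this (sq_nonneg (y i))]
  have hD : ∑ i ∈ Finset.range m, ∑ j ∈ Finset.range m,
      ((if i = j then 4 * (R i i * y i ^ 2) else 0) - (|R i j| * (y i ^ 2 + y j ^ 2)))
      = ∑ i ∈ Finset.range m, 4 * (R i i * y i ^ 2)
        - ∑ i ∈ Finset.range m, 2 * ((∑ j ∈ Finset.range m, |R i j|) * y i ^ 2) := by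
    rw [← hA, ← hB, ← Finset.sum_sub_distrib]
    apply Finset.sum_congr rfl
    intro i _
    rw [← Finset.sum_sub_distrib]
  have hE : ∑ i ∈ Finset.range m, ∑ j ∈ Finset.range m, 2 * (R i j * y i * y j)
      = 2 * ∑ i ∈ Finset.range m, ∑ j ∈ Finset.range m, R i j * y i * y j := by
    rw [Finset.mul_sum]
    apply Finset.sum_congr rfl
    intro i _
    rw [Finset.mul_sum]
  rw [hD, hE] at hsum
  linarith

/-- A symmetric integer matrix `Z` is positive semidefinite if `c Z` is a Gram matrix up to a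
diagonally dominant error. -/
theorem psd_of_approx (m : ℕ) (c : ℤ) (hc : 0 < c) (Z L : ℕ → ℕ → ℤ)
    (hs : ∀ i < m, ∀ j < m, Z i j = Z j i)
    (hd : ∀ i < m, ∑ j ∈ Finset.range m, |c * Z i j - dotk L i j m|
        ≤ 2 * (c * Z i i - dotk L i i m)) (y : ℕ → ℤ) :
    0 ≤ ∑ i ∈ Finset.range m, ∑ j ∈ Finset.range m, Z i j * y i * y j := by
  have h1 := quad_nonneg_of_diagdom m (fun i j => c * Z i j - dotk L i j m)
    (by
      intro i hi j hj
      have : dotk L i j m = dotk L j i m := by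
        rw [dotk_eq, dotk_eq]
        exact Finset.sum_congr rfl (fun t _ => mul_comm _ _)
      simp only [hs i hi j hj, this]) hd y
  have h2 : ∑ i ∈ Finset.range m, ∑ j ∈ Finset.range m, dotk L i j m * y i * y j
      = ∑ t ∈ Finset.range m, (∑ i ∈ Finset.range m, L i t * y i) ^ 2 := by
    have : ∀ t, (∑ i ∈ Finset.range m, L i t * y i) ^ 2
        = ∑ i ∈ Finset.range m, ∑ j ∈ Finset.range m, L i t * L j t * y i * y j := by
      intro t
      rw [sq, Finset.sum_mul_sum]
      apply Finset.sum_congr rfl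
      intro i _
      apply Finset.sum_congr rfl
      intro j _
      ring
    simp only [this]
    symm
    rw [Finset.sum_comm]
    apply Finset.sum_congr rfl
    intro i _
    rw [Finset.sum_comm]
    apply Finset.sum_congr rfl
    intro j _
    rw [dotk_eq, Finset.sum_mul, Finset.sum_mul]
  have h3 : 0 ≤ ∑ t ∈ Finset.range m, (∑ i ∈ Finset.range m, L i t * y i) ^ 2 :=
    Finset.sum_nonneg (fun _ _ => sq_nonneg _)
  have h4 : ∑ i ∈ Finset.range m, ∑ j ∈ Finset.range m, (c * Z i j - dotk L i j m) * y i * y j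
      = c * ∑ i ∈ Finset.range m, ∑ j ∈ Finset.range m, Z i j * y i * y j
        - ∑ i ∈ Finset.range m, ∑ j ∈ Finset.range m, dotk L i j m * y i * y j := by
    rw [Finset.mul_sum, ← Finset.sum_sub_distrib]
    apply Finset.sum_congr rfl
    intro i _
    rw [Finset.mul_sum, ← Finset.sum_sub_distrib]
    apply Finset.sum_congr rfl
    intro j _
    ring
  rw [h4, h2] at h1
  have h5 : 0 ≤ c * ∑ i ∈ Finset.range m, ∑ j ∈ Finset.range m, Z i j * y i * y j := by
    linarith
  exact nonneg_of_mul_nonneg_right h5 hc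

/-- If `M f f' = ∑ U f k * Z k l * U f' l` for the values that occur, with `Z` positive
semidefinite, then the sum of `M` over pairs of values of a function is nonnegative. -/
theorem sum_psd {ι : Type*} [Fintype ι] (m : ℕ) (Z : ℕ → ℕ → ℤ)
    (hZ : ∀ y : ℕ → ℤ, 0 ≤ ∑ i ∈ Finset.range m, ∑ j ∈ Finset.range m, Z i j * y i * y j)
    (U : ℕ → ℕ → ℤ) (M : ℕ → ℕ → ℤ) (F : ι → ℕ)
    (hM : ∀ u v : ι, M (F u) (F v)
      = ∑ k ∈ Finset.range m, ∑ l ∈ Finset.range m, Z k l * U (F u) k * U (F v) l) :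
    0 ≤ ∑ u : ι, ∑ v : ι, M (F u) (F v) := by
  have h := hZ (fun k => ∑ u : ι, U (F u) k)
  have e : ∑ u : ι, ∑ v : ι, M (F u) (F v)
      = ∑ k ∈ Finset.range m, ∑ l ∈ Finset.range m,
          Z k l * (∑ u : ι, U (F u) k) * (∑ v : ι, U (F v) l) := by
    simp only [hM]
    have : ∀ u : ι, ∑ v : ι, ∑ k ∈ Finset.range m, ∑ l ∈ Finset.range m,
        Z k l * U (F u) k * U (F v) l
        = ∑ k ∈ Finset.range m, ∑ l ∈ Finset.range m,
          Z k l * U (F u) k * (∑ v : ι, U (F v) l) := by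
      intro u
      rw [Finset.sum_comm]
      apply Finset.sum_congr rfl
      intro k _
      rw [Finset.sum_comm]
      apply Finset.sum_congr rfl
      intro l _
      rw [Finset.mul_sum]
    simp only [this]
    rw [Finset.sum_comm]
    apply Finset.sum_congr rfl
    intro k _
    rw [Finset.sum_comm]
    apply Finset.sum_congr rfl
    intro l _
    rw [← Finset.sum_mul, ← Finset.mul_sum]
  rw [e]
  exact h

end Pool.Agent.H6Turan

namespace Pool.Agent.H6Turan

/-- the matrix given by sparse rows -/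
def Uf (us : ℕ → List (ℕ × ℤ)) (f k : ℕ) : ℤ :=
  ((us f).map (fun p => if p.1 = k then p.2 else 0)).sum

/-- the bilinear form `Z` on two sparse vectors -/
def sp (Z : ℕ → ℕ → ℤ) (l1 l2 : List (ℕ × ℤ)) : ℤ :=
  (l1.map (fun p => (l2.map (fun q => Z p.1 q.1 * (p.2 * q.2))).sum)).sum

theorem sum_sparse (m : ℕ) (G : ℕ → ℤ) (l : List (ℕ × ℤ)) (hl : ∀ p ∈ l, p.1 < m) :
    ∑ k ∈ Finset.range m, G k * (l.map (fun p => if p.1 = k then p.2 else 0)).sum
      = (l.map (fun p => G p.1 * p.2)).sum := by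
  induction l with
  | nil => simp
  | cons a l ih =>
    have h1 := ih (fun p hp => hl p (List.mem_cons_of_mem _ hp))
    have h2 : a.1 < m := hl a List.mem_cons_self
    simp only [List.map_cons, List.sum_cons, mul_add, Finset.sum_add_distrib]
    rw [h1]
    congr 1
    have : ∀ k ∈ Finset.range m, G k * (if a.1 = k then a.2 else 0)
        = if a.1 = k then G a.1 * a.2 else 0 := by
      intro k _
      by_cases h : a.1 = k
      · subst h
        simp
      · simp [h]
    rw [Finset.sum_congr rfl this, Finset.sum_ite_eq, if_pos (Finset.mem_range.mpr h2)]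

theorem sum_sp (m : ℕ) (Z : ℕ → ℕ → ℤ) (l1 l2 : List (ℕ × ℤ)) (h1 : ∀ p ∈ l1, p.1 < m)
    (h2 : ∀ p ∈ l2, p.1 < m) :
    ∑ k ∈ Finset.range m, ∑ l ∈ Finset.range m,
      Z k l * (l1.map (fun p => if p.1 = k then p.2 else 0)).sum
        * (l2.map (fun p => if p.1 = l then p.2 else 0)).sum = sp Z l1 l2 := by
  have e1 : ∀ k, ∑ l ∈ Finset.range m,
      Z k l * (l1.map (fun p => if p.1 = k then p.2 else 0)).sum
        * (l2.map (fun p => if p.1 = l then p.2 else 0)).sum
      = (l2.map (fun q => Z k q.1 * q.2)).sum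
        * (l1.map (fun p => if p.1 = k then p.2 else 0)).sum := by
    intro k
    rw [← sum_sparse m (fun l => Z k l) l2 h2, Finset.sum_mul]
    refine Finset.sum_congr rfl (fun l _ => ?_)
    ring
  rw [Finset.sum_congr rfl (fun k _ => e1 k),
    sum_sparse m (fun k => (l2.map (fun q => Z k q.1 * q.2)).sum) l1 h1]
  unfold sp
  congr 1
  apply List.map_congr_left
  intro p _
  rw [← List.sum_map_mul_right]
  congr 1
  apply List.map_congr_left
  intro q _
  ring

/-- row sums of the error matrix -/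
def rowS (c : ℤ) (Z L : ℕ → ℕ → ℤ) (i : ℕ) : ℕ → ℕ
  | 0 => 0
  | j + 1 => Nat.add (rowS c Z L i j) (c * Z i j - dotk L i j (min i j + 1)).natAbs

/-- the kernel check that `c Z` is a Gram matrix up to a diagonally dominant error -/
def psdChk (m : ℕ) (c : ℤ) (Z L : ℕ → ℕ → ℤ) : Bool :=
  allLt (fun i => Nat.ble (rowS c Z L i m) (Nat.mul 2 (c * Z i i - dotk L i i (i + 1)).toNat)) m

theorem rowS_eq (c : ℤ) (Z L : ℕ → ℕ → ℤ) (i : ℕ) (n : ℕ) :
    (rowS c Z L i n : ℤ) = ∑ j ∈ Finset.range n, |c * Z i j - dotk L i j (min i j + 1)| := by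
  induction n with
  | zero => rfl
  | succ n ih =>
    rw [rowS, Finset.sum_range_succ, Nat.add_eq, Nat.cast_add, ih, Int.natCast_natAbs]

theorem dotk_lower (L : ℕ → ℕ → ℤ) (hL : ∀ i t, i < t → L i t = 0) (i j m : ℕ) (hi : i < m) :
    dotk L i j (min i j + 1) = dotk L i j m := by
  rw [dotk_eq, dotk_eq]
  apply Finset.sum_subset
  · intro t ht
    rw [Finset.mem_range] at *
    omega
  · intro t _ ht
    rw [Finset.mem_range, not_lt] at ht
    rcases Nat.lt_or_ge i t with h | h
    · rw [hL i t h, zero_mul]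
    · rw [hL j t (by omega), mul_zero]

theorem psdChk_sound (m : ℕ) (c : ℤ) (hc : 0 < c) (Z L : ℕ → ℕ → ℤ)
    (hL : ∀ i t, i < t → L i t = 0) (hs : ∀ i < m, ∀ j < m, Z i j = Z j i)
    (h : psdChk m c Z L = true) (y : ℕ → ℤ) :
    0 ≤ ∑ i ∈ Finset.range m, ∑ j ∈ Finset.range m, Z i j * y i * y j := by
  refine psd_of_approx m c hc Z L hs (fun i hi => ?_) y
  have h1 := Nat.le_of_ble_eq_true (allLt_spec h i hi)
  have h2 : ∑ j ∈ Finset.range m, |c * Z i j - dotk L i j m|
      = ∑ j ∈ Finset.range m, |c * Z i j - dotk L i j (min i j + 1)| := by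
    refine Finset.sum_congr rfl (fun j _ => ?_)
    rw [dotk_lower L hL i j m hi]
  have h3 : dotk L i i m = dotk L i i (i + 1) := by
    rw [← dotk_lower L hL i i m hi, min_self]
  rw [h2, h3, ← rowS_eq]
  have h4 : (rowS c Z L i m : ℤ)
      ≤ 2 * ((c * Z i i - dotk L i i (i + 1)).toNat : ℤ) := by
    have : rowS c Z L i m ≤ 2 * (c * Z i i - dotk L i i (i + 1)).toNat := h1
    exact_mod_cast this
  rcases le_or_gt 0 (c * Z i i - dotk L i i (i + 1)) with h5 | h5
  · rwa [Int.toNat_of_nonneg h5] at h4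
  · exfalso
    rw [Int.toNat_of_nonpos h5.le] at h4
    have h6 : |c * Z i i - dotk L i i (min i i + 1)| ≤ (rowS c Z L i m : ℤ) := by
      rw [rowS_eq]
      exact Finset.single_le_sum (f := fun j => |c * Z i j - dotk L i j (min i j + 1)|)
        (fun _ _ => abs_nonneg _) (Finset.mem_range.mpr hi)
    rw [min_self] at h6
    have h7 := abs_pos.mpr h5.ne
    simp only [Nat.cast_zero, mul_zero] at h4
    linarith

end Pool.Agent.H6Turan
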