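import Pool.Agent.H6Turan.PointA

set_option autoImplicit false
set_option maxHeartbeats 4000000

/-!
# From the certificate to the density bound
-/

namespace Pool.Agent.H6Turan.A

open Pool.Agent.H6Turan

variable {V : Type*} [Fintype V]

theorem hK (τ : ℕ) (F : V → ℕ) :
    (off : ℤ) * (Fintype.card V : ℤ) ^ 2 ≤ ∑ u, ∑ v, (KN τ (F u) (F v) : ℤ) := by
  have hconst : ∑ _u : V, ∑ _v : V, (off : ℤ) = (off : ℤ) * (Fintype.card V : ℤ) ^ 2 := by
    simp only [Finset.sum_const, Finset.card_univ, nsmul_eq_mul]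
    ring
  by_cases h3 : ty τ = 3
  · have h := psd3 (fun u => rho τ (F u)) (fun u => rho_lt τ (F u))
    have e : ∀ u v : V, (KN τ (F u) (F v) : ℤ) = M3 (rho τ (F u)) (rho τ (F v)) + (off : ℤ) := by
      intro u v
      have : KN τ (F u) (F v)
          = tb T3 21 2097151 (Nat.add (Nat.mul 64 (rho τ (F u))) (rho τ (F v))) := by
        unfold KN
        rw [h3]
        rfl
      rw [this]
      unfold M3 off
      push_cast
      ring
    simp only [e, Finset.sum_add_distrib]
    rw [hconst]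
    linarith
  · by_cases h4 : ty τ = 4
    · have h := psd7 (fun u => rho τ (F u)) (fun u => rho_lt τ (F u))
      have e : ∀ u v : V, (KN τ (F u) (F v) : ℤ) = M7 (rho τ (F u)) (rho τ (F v)) + (off : ℤ) := by
        intro u v
        have : KN τ (F u) (F v)
            = tb T7 21 2097151 (Nat.add (Nat.mul 64 (rho τ (F u))) (rho τ (F v))) := by
          unfold KN
          rw [h4]
          rfl
        rw [this]
        unfold M7 off
        push_cast
        ring
      simp only [e, Finset.sum_add_distrib]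
      rw [hconst]
      linarith
    · have e : ∀ u v : V, (KN τ (F u) (F v) : ℤ) = (off : ℤ) := by
        intro u v
        have a3 : Nat.beq (ty τ) 3 = false := by
          rw [Bool.eq_false_iff]
          intro h
          exact h3 (Nat.eq_of_beq_eq_true h)
        have a4 : Nat.beq (ty τ) 4 = false := by
          rw [Bool.eq_false_iff]
          intro h
          exact h4 (Nat.eq_of_beq_eq_true h)
        have : KN τ (F u) (F v) = off := by
          unfold KN
          rw [a3, a4]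
          rfl
        rw [this]
      simp only [e]
      rw [hconst]

theorem hM (F : V × V → ℕ) (hF : ∀ u, F u < 16) :
    (off : ℤ) * (Fintype.card V : ℤ) ^ 4 ≤ ∑ u, ∑ v, (MN (F u) (F v) : ℤ) := by
  have h := psdM F hF
  have e : ∀ u v : V × V, (MN (F u) (F v) : ℤ) = MM (F u) (F v) + (off : ℤ) := by
    intro u v
    unfold MN MM off
    push_cast
    ring
  simp only [e, Finset.sum_add_distrib]
  have hconst : ∑ _u : V × V, ∑ _v : V × V, (off : ℤ) = (off : ℤ) * (Fintype.card V : ℤ) ^ 4 := by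
    simp only [Finset.sum_const, Finset.card_univ, nsmul_eq_mul, Fintype.card_prod]
    push_cast
    ring
  rw [hconst]
  linarith

/-- the density bound for functions: the ordered edge sum is at most `5/9 n³ + 144 N / n³` -/
theorem main (g : V → V → V → ℕ) (hb : ∀ a b c, g a b c = 0 ∨ g a b c = 1) (hg : Symm3 g)
    (h4 : ∀ a b c d, ix4 (g a b c) (g a b d) (g a c d) (g b c d) ≠ 15) :
    9 * ((Fintype.card V : ℤ) ^ 3 * (EE g : ℤ)) ≤ 5 * (Fintype.card V : ℤ) ^ 6
      + 1296 * ((∑ x : Fin 6 → V, IV g (x 0) (x 1) (x 2) (x 3) (x 4) (x 5) : ℕ) : ℤ) := by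
  have hlt : ∀ a b c, g a b c < 2 := by
    intro a b c
    rcases hb a b c with h | h <;> omega
  have hpt := pointwise g hb hg h4
  have hsum : ∑ x : Fin 6 → V, (KS KN g (x 0) (x 1) (x 2) (x 3) (x 4) (x 5)
      + MS MN g (x 0) (x 1) (x 2) (x 3) (x 4) (x 5) + A1 * ES g (x 0) (x 1) (x 2) (x 3) (x 4) (x 5))
      ≤ ∑ x : Fin 6 → V, (C0 + CC * J g x) := by
    refine Finset.sum_le_sum (fun x _ => ?_)
    have h := hpt (x 0) (x 1) (x 2) (x 3) (x 4) (x 5)
    unfold Pt at h
    have hx : ![x 0, x 1, x 2, x 3, x 4, x 5] = x := by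
      funext i
      fin_cases i <;> rfl
    rw [hx] at h
    exact h
  simp only [Finset.sum_add_distrib, ← Finset.mul_sum] at hsum
  rw [sum_KS, sum_MS, sum_ES_eq, sum_J] at hsum
  have hc : ∑ _x : Fin 6 → V, C0 = C0 * Fintype.card V ^ 6 := by
    simp only [Finset.sum_const, Finset.card_univ, smul_eq_mul, Fintype.card_fun,
      Fintype.card_fin]
    ring
  rw [hc] at hsum
  have hK' := sum_Kt_ge KN g hlt off (fun τ _ F _ => hK τ F)
  have hM' := sum_Mt_ge MN g hlt off (fun F hF => hM F hF)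
  have hsum' : (15 : ℤ) * ((∑ x : Fin 6 → V, Kt KN g (x 0) (x 1) (x 2) (x 3) (x 4) (x 5) : ℕ) : ℤ)
      + 45 * ((∑ x : Fin 6 → V, Mt MN g (x 0) (x 1) (x 2) (x 3) (x 4) (x 5) : ℕ) : ℤ)
      + (A1 : ℤ) * (20 * ((Fintype.card V : ℤ) ^ 3 * (EE g : ℤ)))
      ≤ (C0 : ℤ) * (Fintype.card V : ℤ) ^ 6
        + (CC : ℤ) * (720 * ((∑ x : Fin 6 → V, IV g (x 0) (x 1) (x 2) (x 3) (x 4) (x 5) : ℕ) : ℤ)) := by
    exact_mod_cast hsum
  have e0 : (off : ℤ) = 1048576 := rfl
  have e1 : (A1 : ℤ) = 324000 := rfl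
  have e2 : (C0 : ℤ) = 66514560 := rfl
  have e3 : (CC : ℤ) = 1296000 := rfl
  rw [e1, e2, e3] at hsum'
  rw [e0] at hK' hM'
  linarith

end Pool.Agent.H6Turan.A
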