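import Pool.Agent.H6Turan.Sums

set_option autoImplicit false

/-!
# The complement of a Turan (3,4)-graph as an indicator function
-/

namespace Pool.Agent.H6Turan

variable {n : ℕ}

/-- indicator of the non-edges of `H` -/
def gH (H : Finset (Finset (Fin n))) (a b c : Fin n) : ℕ :=
  if a ≠ b ∧ a ≠ c ∧ b ≠ c ∧ ({a, b, c} : Finset (Fin n)) ∉ H then 1 else 0

theorem gH_bit (H : Finset (Finset (Fin n))) (a b c : Fin n) : gH H a b c = 0 ∨ gH H a b c = 1 := by
  unfold gH
  split_ifs
  · exact Or.inr rfl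
  · exact Or.inl rfl

theorem gH_one {H : Finset (Finset (Fin n))} {a b c : Fin n} :
    gH H a b c = 1 ↔ a ≠ b ∧ a ≠ c ∧ b ≠ c ∧ ({a, b, c} : Finset (Fin n)) ∉ H := by
  unfold gH
  split_ifs with h
  · exact ⟨fun _ => h, fun _ => rfl⟩
  · exact ⟨fun h' => absurd h' (by norm_num), fun h' => absurd h' h⟩

theorem gH_symm (H : Finset (Finset (Fin n))) : Symm3 (gH H) := by
  constructor
  · intro a b c
    unfold gH
    have e : ({b, a, c} : Finset (Fin n)) = {a, b, c} := Finset.insert_comm b a {c}
    rw [e]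
    congr 1
    apply propext
    constructor
    · rintro ⟨h1, h2, h3, h4⟩
      exact ⟨h1.symm, h3, h2, h4⟩
    · rintro ⟨h1, h2, h3, h4⟩
      exact ⟨h1.symm, h3, h2, h4⟩
  · intro a b c
    unfold gH
    have e : ({a, c, b} : Finset (Fin n)) = {a, b, c} := by
      rw [Finset.pair_comm c b]
    rw [e]
    congr 1
    apply propext
    constructor
    · rintro ⟨h1, h2, h3, h4⟩
      exact ⟨h2, h1, h3.symm, h4⟩
    · rintro ⟨h1, h2, h3, h4⟩
      exact ⟨h2, h1, h3.symm, h4⟩

theorem gH_free (H : Finset (Finset (Fin n))) (h3 : ∀ e ∈ H, e.card = 3)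
    (h4 : ∀ S : Finset (Fin n), S.card = 4 → ∃ e ∈ H, e ⊆ S) (a b c d : Fin n) :
    ix4 (gH H a b c) (gH H a b d) (gH H a c d) (gH H b c d) ≠ 15 := by
  intro h
  have b1 := gH_bit H a b c
  have b2 := gH_bit H a b d
  have b3 := gH_bit H a c d
  have b4 := gH_bit H b c d
  simp only [ix4, Nat.add_eq, Nat.mul_eq] at h
  have e1 : gH H a b c = 1 := by omega
  have e2 : gH H a b d = 1 := by omega
  have e3 : gH H a c d = 1 := by omega
  have e4 : gH H b c d = 1 := by omega
  obtain ⟨ab, ac, bc, n1⟩ := gH_one.mp e1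
  obtain ⟨-, ad, bd, n2⟩ := gH_one.mp e2
  obtain ⟨-, -, cd, n3⟩ := gH_one.mp e3
  obtain ⟨-, -, -, n4⟩ := gH_one.mp e4
  have hcard : ({a, b, c, d} : Finset (Fin n)).card = 4 := by
    rw [Finset.card_insert_of_notMem, Finset.card_insert_of_notMem, Finset.card_insert_of_notMem,
      Finset.card_singleton]
    · simpa using cd
    · simp [bc, bd]
    · simp [ab, ac, ad]
  obtain ⟨e, heH, heS⟩ := h4 _ hcard
  have he3 := h3 e heH
  -- the missing vertex
  have hex : ∃ z ∈ ({a, b, c, d} : Finset (Fin n)), z ∉ e := by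
    by_contra hno
    push Not at hno
    have : ({a, b, c, d} : Finset (Fin n)).card ≤ e.card := Finset.card_le_card hno
    omega
  obtain ⟨z, hz, hze⟩ := hex
  have hsub : e ⊆ ({a, b, c, d} : Finset (Fin n)).erase z := by
    intro w hw
    rw [Finset.mem_erase]
    refine ⟨?_, heS hw⟩
    rintro rfl
    exact hze hw
  have heq : e = ({a, b, c, d} : Finset (Fin n)).erase z := by
    apply Finset.eq_of_subset_of_card_le hsub
    rw [Finset.card_erase_of_mem hz, hcard, he3]
  simp only [Finset.mem_insert, Finset.mem_singleton] at hz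
  rcases hz with rfl | rfl | rfl | rfl
  · apply n4
    have : ({z, b, c, d} : Finset (Fin n)).erase z = {b, c, d} := by
      ext w
      simp only [Finset.mem_erase, Finset.mem_insert, Finset.mem_singleton]
      constructor
      · rintro ⟨hw, h | h | h | h⟩
        · exact absurd h hw
        · exact Or.inl h
        · exact Or.inr (Or.inl h)
        · exact Or.inr (Or.inr h)
      · rintro (rfl | rfl | rfl)
        · exact ⟨ab.symm, by simp⟩
        · exact ⟨ac.symm, by simp⟩
        · exact ⟨ad.symm, by simp⟩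
    rw [← this, ← heq]
    exact heH
  · apply n3
    have : ({a, z, c, d} : Finset (Fin n)).erase z = {a, c, d} := by
      ext w
      simp only [Finset.mem_erase, Finset.mem_insert, Finset.mem_singleton]
      constructor
      · rintro ⟨hw, h | h | h | h⟩
        · exact Or.inl h
        · exact absurd h hw
        · exact Or.inr (Or.inl h)
        · exact Or.inr (Or.inr h)
      · rintro (rfl | rfl | rfl)
        · exact ⟨ab, by simp⟩
        · exact ⟨bc.symm, by simp⟩
        · exact ⟨bd.symm, by simp⟩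
    rw [← this, ← heq]
    exact heH
  · apply n2
    have : ({a, b, z, d} : Finset (Fin n)).erase z = {a, b, d} := by
      ext w
      simp only [Finset.mem_erase, Finset.mem_insert, Finset.mem_singleton]
      constructor
      · rintro ⟨hw, h | h | h | h⟩
        · exact Or.inl h
        · exact Or.inr (Or.inl h)
        · exact absurd h hw
        · exact Or.inr (Or.inr h)
      · rintro (rfl | rfl | rfl)
        · exact ⟨ac, by simp⟩
        · exact ⟨bc, by simp⟩
        · exact ⟨cd.symm, by simp⟩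
    rw [← this, ← heq]
    exact heH
  · apply n1
    have : ({a, b, c, z} : Finset (Fin n)).erase z = {a, b, c} := by
      ext w
      simp only [Finset.mem_erase, Finset.mem_insert, Finset.mem_singleton]
      constructor
      · rintro ⟨hw, h | h | h | h⟩
        · exact Or.inl h
        · exact Or.inr (Or.inl h)
        · exact Or.inr (Or.inr h)
        · exact absurd h hw
      · rintro (rfl | rfl | rfl)
        · exact ⟨ad, by simp⟩
        · exact ⟨bd, by simp⟩
        · exact ⟨cd, by simp⟩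
    rw [← this, ← heq]
    exact heH

/-- each three-element set has at least six orderings -/
theorem six_le (e : Finset (Fin n)) (he : e.card = 3) :
    6 ≤ (Finset.univ.filter (fun t : Fin n × Fin n × Fin n =>
      (t.1 ≠ t.2.1 ∧ t.1 ≠ t.2.2 ∧ t.2.1 ≠ t.2.2) ∧ ({t.1, t.2.1, t.2.2} : Finset (Fin n)) = e)).card := by
  obtain ⟨u, v, w, uv, uw, vw, rfl⟩ := Finset.card_eq_three.mp he
  have hc : ({(u, v, w), (u, w, v), (v, u, w), (v, w, u), (w, u, v), (w, v, u)} :
      Finset (Fin n × Fin n × Fin n)).card = 6 := by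
    rw [Finset.card_insert_of_notMem, Finset.card_insert_of_notMem, Finset.card_insert_of_notMem,
      Finset.card_insert_of_notMem, Finset.card_insert_of_notMem, Finset.card_singleton]
    all_goals simp [uv, uw, vw, uv.symm, uw.symm, vw.symm]
  rw [← hc]
  apply Finset.card_le_card
  intro t ht
  simp only [Finset.mem_insert, Finset.mem_singleton] at ht
  rw [Finset.mem_filter]
  refine ⟨Finset.mem_univ _, ?_⟩
  rcases ht with rfl | rfl | rfl | rfl | rfl | rfl
  · exact ⟨⟨uv, uw, vw⟩, rfl⟩
  · refine ⟨⟨uw, uv, vw.symm⟩, ?_⟩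
    ext z; simp only [Finset.mem_insert, Finset.mem_singleton]; tauto
  · refine ⟨⟨uv.symm, vw, uw⟩, ?_⟩
    ext z; simp only [Finset.mem_insert, Finset.mem_singleton]; tauto
  · refine ⟨⟨vw, uv.symm, uw.symm⟩, ?_⟩
    ext z; simp only [Finset.mem_insert, Finset.mem_singleton]; tauto
  · refine ⟨⟨uw.symm, vw.symm, uv⟩, ?_⟩
    ext z; simp only [Finset.mem_insert, Finset.mem_singleton]; tauto
  · refine ⟨⟨vw.symm, uw.symm, uv.symm⟩, ?_⟩
    ext z; simp only [Finset.mem_insert, Finset.mem_singleton]; tauto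

theorem EE_gH (H : Finset (Finset (Fin n))) :
    6 * n.choose 3 ≤ EE (gH H) + 6 * H.card := by
  set P : Finset (Finset (Fin n)) := Finset.powersetCard 3 Finset.univ \ H with hP
  have h1 : n.choose 3 ≤ P.card + H.card := by
    have : (Finset.powersetCard 3 (Finset.univ : Finset (Fin n))).card = n.choose 3 := by
      rw [Finset.card_powersetCard, Finset.card_univ, Fintype.card_fin]
    rw [← this, hP]
    exact Finset.card_le_card_sdiff_add_card
  set D : Finset (Fin n × Fin n × Fin n) := Finset.univ.filter (fun t =>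
    t.1 ≠ t.2.1 ∧ t.1 ≠ t.2.2 ∧ t.2.1 ≠ t.2.2 ∧ ({t.1, t.2.1, t.2.2} : Finset (Fin n)) ∉ H) with hD
  have h2 : EE (gH H) = D.card := by
    rw [hD, Finset.card_filter, Fintype.sum_prod_type]
    unfold EE
    refine Finset.sum_congr rfl (fun a _ => ?_)
    rw [Fintype.sum_prod_type]
    rfl
  have hmaps : ∀ t ∈ D, ({t.1, t.2.1, t.2.2} : Finset (Fin n)) ∈ P := by
    intro t ht
    rw [hD, Finset.mem_filter] at ht
    obtain ⟨-, h1, h2, h3, h4⟩ := ht
    rw [hP, Finset.mem_sdiff, Finset.mem_powersetCard]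
    refine ⟨⟨Finset.subset_univ _, ?_⟩, h4⟩
    exact Finset.card_eq_three.mpr ⟨_, _, _, h1, h2, h3, rfl⟩
  have h3 : D.card = ∑ e ∈ P, (D.filter (fun t => ({t.1, t.2.1, t.2.2} : Finset (Fin n)) = e)).card :=
    Finset.card_eq_sum_card_fiberwise hmaps
  have h4 : ∀ e ∈ P, 6 ≤ (D.filter (fun t => ({t.1, t.2.1, t.2.2} : Finset (Fin n)) = e)).card := by
    intro e he
    rw [hP, Finset.mem_sdiff, Finset.mem_powersetCard] at he
    obtain ⟨⟨-, hc⟩, hH⟩ := he
    refine le_trans (six_le e hc) (Finset.card_le_card ?_)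
    intro t ht
    rw [Finset.mem_filter] at ht
    obtain ⟨-, ⟨ha, hb, hc'⟩, heq⟩ := ht
    rw [Finset.mem_filter, hD, Finset.mem_filter]
    exact ⟨⟨Finset.mem_univ _, ha, hb, hc', by rw [heq]; exact hH⟩, heq⟩
  have h5 : 6 * P.card ≤ D.card := by
    rw [h3, mul_comm, ← smul_eq_mul, ← Finset.sum_const]
    exact Finset.sum_le_sum h4
  rw [h2]
  omega

end Pool.Agent.H6Turan
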