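import Pool.Agent.H6Turan.Sums

set_option autoImplicit false
set_option linter.unusedSimpArgs false
set_option maxHeartbeats 4000000

/-!
# The kernel check over all six-vertex patterns, and its soundness
(generated file)
-/

namespace Pool.Agent.H6Turan

def cd5 (b012 b013 b023 b123 b014 b024 b124 b034 b134 b234 : ℕ) : ℕ :=
  Nat.add (Nat.add (Nat.add (Nat.mul 1 b012) (Nat.mul 2 b013)) (Nat.add (Nat.mul 4 b023) (Nat.add (Nat.mul 8 b123) (Nat.mul 16 b014)))) (Nat.add (Nat.add (Nat.mul 32 b024) (Nat.mul 64 b124)) (Nat.add (Nat.mul 128 b034) (Nat.add (Nat.mul 256 b134) (Nat.mul 512 b234))))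

/-- all extensions of a five-vertex pattern to six vertices without a complete quadruple -/
def chkL (good : ℕ → ℕ → ℕ → ℕ → ℕ → ℕ → ℕ → ℕ → ℕ → ℕ → ℕ → ℕ → ℕ → ℕ → ℕ → ℕ → ℕ → ℕ → ℕ → ℕ → Bool) (b012 b013 b023 b123 b014 b024 b124 b034 b134 b234 : ℕ) : Bool :=
  all2 fun b015 =>
  all2 fun b025 =>
  all2 fun b125 => (Nat.beq (ix4 b012 b015 b025 b125) 15) || (
  all2 fun b035 =>
  all2 fun b135 => (Nat.beq (ix4 b013 b015 b035 b135) 15) || (
  all2 fun b235 => (Nat.beq (ix4 b023 b025 b035 b235) 15) || ( (Nat.beq (ix4 b123 b125 b135 b235) 15) || (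
  all2 fun b045 =>
  all2 fun b145 => (Nat.beq (ix4 b014 b015 b045 b145) 15) || (
  all2 fun b245 => (Nat.beq (ix4 b024 b025 b045 b245) 15) || ( (Nat.beq (ix4 b124 b125 b145 b245) 15) || (
  all2 fun b345 => (Nat.beq (ix4 b034 b035 b045 b345) 15) || ( (Nat.beq (ix4 b134 b135 b145 b345) 15) || ( (Nat.beq (ix4 b234 b235 b245 b345) 15) || (
  good b012 b013 b023 b123 b014 b024 b124 b034 b134 b234 b015 b025 b125 b035 b135 b235 b045 b145 b245 b345))))))))))

/-- the check: every five-vertex pattern contains a complete quadruple, or becomes smaller under an adjacent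
transposition, or all its extensions are good -/
def chk5 (good : ℕ → ℕ → ℕ → ℕ → ℕ → ℕ → ℕ → ℕ → ℕ → ℕ → ℕ → ℕ → ℕ → ℕ → ℕ → ℕ → ℕ → ℕ → ℕ → ℕ → Bool) : Bool :=
  all2 fun b012 =>
  all2 fun b013 =>
  all2 fun b023 =>
  all2 fun b123 =>
  all2 fun b014 =>
  all2 fun b024 =>
  all2 fun b124 =>
  all2 fun b034 =>
  all2 fun b134 =>
  all2 fun b234 =>
  (Nat.beq (ix4 b012 b013 b023 b123) 15) || (
  (Nat.beq (ix4 b012 b014 b024 b124) 15) || (
  (Nat.beq (ix4 b013 b014 b034 b134) 15) || (
  (Nat.beq (ix4 b023 b024 b034 b234) 15) || (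
  (Nat.beq (ix4 b123 b124 b134 b234) 15) || (
  (Nat.blt (cd5 b012 b013 b123 b023 b014 b124 b024 b134 b034 b234) (cd5 b012 b013 b023 b123 b014 b024 b124 b034 b134 b234)) || (
  (Nat.blt (cd5 b012 b023 b013 b123 b024 b014 b124 b034 b234 b134) (cd5 b012 b013 b023 b123 b014 b024 b124 b034 b134 b234)) || (
  (Nat.blt (cd5 b013 b012 b023 b123 b014 b034 b134 b024 b124 b234) (cd5 b012 b013 b023 b123 b014 b024 b124 b034 b134 b234)) || (
  (Nat.blt (cd5 b012 b014 b024 b124 b013 b023 b123 b034 b134 b234) (cd5 b012 b013 b023 b123 b014 b024 b124 b034 b134 b234)) || (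
  chkL good b012 b013 b023 b123 b014 b024 b124 b034 b134 b234)))))))))

variable {V : Type*}

theorem or_elim_beq {n : ℕ} {r : Bool} (h : ((Nat.beq n 15) || r) = true) (hn : n ≠ 15) : r = true := by
  rw [Bool.or_eq_true] at h
  rcases h with h | h
  · exact absurd (Nat.eq_of_beq_eq_true h) hn
  · exact h

theorem chkL_sound (good : ℕ → ℕ → ℕ → ℕ → ℕ → ℕ → ℕ → ℕ → ℕ → ℕ → ℕ → ℕ → ℕ → ℕ → ℕ → ℕ → ℕ → ℕ → ℕ → ℕ → Bool) (g : V → V → V → ℕ) (hb : ∀ a b c, g a b c = 0 ∨ g a b c = 1)
    (h4 : ∀ a b c d, ix4 (g a b c) (g a b d) (g a c d) (g b c d) ≠ 15) (a b c d e f : V)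
    (h : chkL good (g a b c) (g a b d) (g a c d) (g b c d) (g a b e) (g a c e) (g b c e) (g a d e) (g b d e) (g c d e) = true) :
    good (g a b c) (g a b d) (g a c d) (g b c d) (g a b e) (g a c e) (g b c e) (g a d e) (g b d e) (g c d e) (g a b f) (g a c f) (g b c f) (g a d f) (g b d f) (g c d f) (g a e f) (g b e f) (g c e f) (g d e f) = true := by
  unfold chkL at h
  have h := all2_spec h (hb a b f)
  have h := all2_spec h (hb a c f)
  have h := all2_spec h (hb b c f)
  have h := or_elim_beq h (h4 a b c f)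
  have h := all2_spec h (hb a d f)
  have h := all2_spec h (hb b d f)
  have h := or_elim_beq h (h4 a b d f)
  have h := all2_spec h (hb c d f)
  have h := or_elim_beq h (h4 a c d f)
  have h := or_elim_beq h (h4 b c d f)
  have h := all2_spec h (hb a e f)
  have h := all2_spec h (hb b e f)
  have h := or_elim_beq h (h4 a b e f)
  have h := all2_spec h (hb c e f)
  have h := or_elim_beq h (h4 a c e f)
  have h := or_elim_beq h (h4 b c e f)
  have h := all2_spec h (hb d e f)
  have h := or_elim_beq h (h4 a d e f)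
  have h := or_elim_beq h (h4 b d e f)
  have h := or_elim_beq h (h4 c d e f)
  exact h

theorem chk5_sound (good : ℕ → ℕ → ℕ → ℕ → ℕ → ℕ → ℕ → ℕ → ℕ → ℕ → ℕ → ℕ → ℕ → ℕ → ℕ → ℕ → ℕ → ℕ → ℕ → ℕ → Bool) (hchk : chk5 good = true) (g : V → V → V → ℕ)
    (hb : ∀ a b c, g a b c = 0 ∨ g a b c = 1) (hg : Symm3 g)
    (h4 : ∀ a b c d, ix4 (g a b c) (g a b d) (g a c d) (g b c d) ≠ 15)
    (Pr : V → V → V → V → V → V → Prop)
    (h0 : ∀ a b c d e f, Pr b a c d e f → Pr a b c d e f)
    (h1 : ∀ a b c d e f, Pr a c b d e f → Pr a b c d e f)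
    (h2 : ∀ a b c d e f, Pr a b d c e f → Pr a b c d e f)
    (h3 : ∀ a b c d e f, Pr a b c e d f → Pr a b c d e f)
    (hgood : ∀ a b c d e f, good (g a b c) (g a b d) (g a c d) (g b c d) (g a b e) (g a c e) (g b c e) (g a d e) (g b d e) (g c d e) (g a b f) (g a c f) (g b c f) (g a d f) (g b d f) (g c d f) (g a e f) (g b e f) (g c e f) (g d e f) = true → Pr a b c d e f) :
    ∀ a b c d e f, Pr a b c d e f := by
  have key : ∀ n : ℕ, ∀ a b c d e f, cd5 (g a b c) (g a b d) (g a c d) (g b c d) (g a b e) (g a c e) (g b c e) (g a d e) (g b d e) (g c d e) = n → Pr a b c d e f := by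
    intro n
    induction n using Nat.strong_induction_on with
    | _ n ih =>
    intro a b c d e f hn
    have h := hchk
    unfold chk5 at h
    have h := all2_spec h (hb a b c)
    have h := all2_spec h (hb a b d)
    have h := all2_spec h (hb a c d)
    have h := all2_spec h (hb b c d)
    have h := all2_spec h (hb a b e)
    have h := all2_spec h (hb a c e)
    have h := all2_spec h (hb b c e)
    have h := all2_spec h (hb a d e)
    have h := all2_spec h (hb b d e)
    have h := all2_spec h (hb c d e)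
    have h := or_elim_beq h (h4 a b c d)
    have h := or_elim_beq h (h4 a b c e)
    have h := or_elim_beq h (h4 a b d e)
    have h := or_elim_beq h (h4 a c d e)
    have h := or_elim_beq h (h4 b c d e)
    rw [Bool.or_eq_true] at h
    rcases h with h | h
    · refine h0 a b c d e f (ih _ ?_ b a c d e f rfl)
      rw [← hn]
      have h := Nat.le_of_ble_eq_true h
      refine lt_of_lt_of_le ?_ h
      apply Nat.lt_succ_of_le
      apply le_of_eq
      have r1 : ∀ z, g b a z = g a b z := fun _ => hg.s12 _ _ _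
      have r2 : ∀ z, g z b a = g z a b := fun _ => hg.s23 _ _ _
      simp only [cd5, r1, r2]
    rw [Bool.or_eq_true] at h
    rcases h with h | h
    · refine h1 a b c d e f (ih _ ?_ a c b d e f rfl)
      rw [← hn]
      have h := Nat.le_of_ble_eq_true h
      refine lt_of_lt_of_le ?_ h
      apply Nat.lt_succ_of_le
      apply le_of_eq
      have r1 : ∀ z, g c b z = g b c z := fun _ => hg.s12 _ _ _
      have r2 : ∀ z, g z c b = g z b c := fun _ => hg.s23 _ _ _
      simp only [cd5, r1, r2]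
    rw [Bool.or_eq_true] at h
    rcases h with h | h
    · refine h2 a b c d e f (ih _ ?_ a b d c e f rfl)
      rw [← hn]
      have h := Nat.le_of_ble_eq_true h
      refine lt_of_lt_of_le ?_ h
      apply Nat.lt_succ_of_le
      apply le_of_eq
      have r1 : ∀ z, g d c z = g c d z := fun _ => hg.s12 _ _ _
      have r2 : ∀ z, g z d c = g z c d := fun _ => hg.s23 _ _ _
      simp only [cd5, r1, r2]
    rw [Bool.or_eq_true] at h
    rcases h with h | h
    · refine h3 a b c d e f (ih _ ?_ a b c e d f rfl)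
      rw [← hn]
      have h := Nat.le_of_ble_eq_true h
      refine lt_of_lt_of_le ?_ h
      apply Nat.lt_succ_of_le
      apply le_of_eq
      have r1 : ∀ z, g e d z = g d e z := fun _ => hg.s12 _ _ _
      have r2 : ∀ z, g z e d = g z d e := fun _ => hg.s23 _ _ _
      simp only [cd5, r1, r2]
    exact hgood _ _ _ _ _ _ (chkL_sound good g hb h4 a b c d e f h)
  intro a b c d e f
  exact key _ a b c d e f rfl

end Pool.Agent.H6Turan
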