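import Pool.Agent.H6Turan.DataA

set_option autoImplicit false
set_option linter.unusedSimpArgs false
set_option linter.unusedVariables false
set_option maxHeartbeats 4000000
set_option maxRecDepth 100000

/-!
# Symmetry of the tables and the pointwise inequality (generated file)
-/

namespace Pool.Agent.H6Turan.A

open Pool.Agent.H6Turan

theorem chkK01 : (
  all2 fun b0 =>
  all2 fun b1 =>
  all2 fun b2 =>
  all2 fun b3 =>
  all2 fun f0 =>
  all2 fun f1 =>
  all2 fun f2 =>
  all2 fun f3 =>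
  all2 fun f4 =>
  all2 fun f5 =>
  all2 fun h0 =>
  all2 fun h1 =>
  all2 fun h2 =>
  all2 fun h3 =>
  all2 fun h4 =>
  all2 fun h5 =>
  Nat.beq (KN (ix4 b0 b1 b3 b2) (ix6 f0 f2 f1 f4 f3 f5) (ix6 h0 h2 h1 h4 h3 h5)) (KN (ix4 b0 b1 b2 b3) (ix6 f0 f1 f2 f3 f4 f5) (ix6 h0 h1 h2 h3 h4 h5))) = true := by
  decide +kernel

theorem chkK12 : (
  all2 fun b0 =>
  all2 fun b1 =>
  all2 fun b2 =>
  all2 fun b3 =>
  all2 fun f0 =>
  all2 fun f1 =>
  all2 fun f2 =>
  all2 fun f3 =>
  all2 fun f4 =>
  all2 fun f5 =>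
  all2 fun h0 =>
  all2 fun h1 =>
  all2 fun h2 =>
  all2 fun h3 =>
  all2 fun h4 =>
  all2 fun h5 =>
  Nat.beq (KN (ix4 b0 b2 b1 b3) (ix6 f1 f0 f2 f3 f5 f4) (ix6 h1 h0 h2 h3 h5 h4)) (KN (ix4 b0 b1 b2 b3) (ix6 f0 f1 f2 f3 f4 f5) (ix6 h0 h1 h2 h3 h4 h5))) = true := by
  decide +kernel

theorem chkK23 : (
  all2 fun b0 =>
  all2 fun b1 =>
  all2 fun b2 =>
  all2 fun b3 =>
  all2 fun f0 =>
  all2 fun f1 =>
  all2 fun f2 =>
  all2 fun f3 =>
  all2 fun f4 =>
  all2 fun f5 =>
  all2 fun h0 =>
  all2 fun h1 =>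
  all2 fun h2 =>
  all2 fun h3 =>
  all2 fun h4 =>
  all2 fun h5 =>
  Nat.beq (KN (ix4 b1 b0 b2 b3) (ix6 f0 f3 f4 f1 f2 f5) (ix6 h0 h3 h4 h1 h2 h5)) (KN (ix4 b0 b1 b2 b3) (ix6 f0 f1 f2 f3 f4 f5) (ix6 h0 h1 h2 h3 h4 h5))) = true := by
  decide +kernel

theorem chkK45 : allLt (fun τ => allLt (fun f => allLt (fun f' =>
    Nat.beq (KN τ f' f) (KN τ f f')) 64) 64) 16 = true := by
  decide +kernel

theorem chkM01 : (
  all2 fun b0 =>
  all2 fun b1 =>
  all2 fun b2 =>
  all2 fun b3 =>
  all2 fun h0 =>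
  all2 fun h1 =>
  all2 fun h2 =>
  all2 fun h3 =>
  Nat.beq (MN (ix4 b0 b1 b3 b2) (ix4 h0 h1 h3 h2)) (MN (ix4 b0 b1 b2 b3) (ix4 h0 h1 h2 h3))) = true := by
  decide +kernel

theorem chkM23 : (
  all2 fun b0 =>
  all2 fun b1 =>
  all2 fun b2 =>
  all2 fun b3 =>
  all2 fun h0 =>
  all2 fun h1 =>
  all2 fun h2 =>
  all2 fun h3 =>
  Nat.beq (MN (ix4 b1 b0 b2 b3) (ix4 h0 h1 h2 h3)) (MN (ix4 b0 b1 b2 b3) (ix4 h0 h1 h2 h3))) = true := by
  decide +kernel

theorem chkM45 : (
  all2 fun b0 =>
  all2 fun b1 =>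
  all2 fun b2 =>
  all2 fun b3 =>
  all2 fun h0 =>
  all2 fun h1 =>
  all2 fun h2 =>
  all2 fun h3 =>
  Nat.beq (MN (ix4 b0 b1 b2 b3) (ix4 h1 h0 h2 h3)) (MN (ix4 b0 b1 b2 b3) (ix4 h0 h1 h2 h3))) = true := by
  decide +kernel

theorem chkMpp : (
  all2 fun b0 =>
  all2 fun b1 =>
  all2 fun b2 =>
  all2 fun b3 =>
  all2 fun h0 =>
  all2 fun h1 =>
  all2 fun h2 =>
  all2 fun h3 =>
  Nat.beq (MN (ix4 h0 h1 h2 h3) (ix4 b0 b1 b2 b3)) (MN (ix4 b0 b1 b2 b3) (ix4 h0 h1 h2 h3))) = true := by
  decide +kernel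

variable {V : Type*}

theorem k01 (g : V → V → V → ℕ) (hb : ∀ a b c, g a b c = 0 ∨ g a b c = 1) (hg : Symm3 g)
    (a b c d u v : V) : Kt KN g b a c d u v = Kt KN g a b c d u v := by
  have h := chkK01
  have h := all2_spec h (hb a b c)
  have h := all2_spec h (hb a b d)
  have h := all2_spec h (hb a c d)
  have h := all2_spec h (hb b c d)
  have h := all2_spec h (hb a b u)
  have h := all2_spec h (hb a c u)
  have h := all2_spec h (hb b c u)
  have h := all2_spec h (hb a d u)
  have h := all2_spec h (hb b d u)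
  have h := all2_spec h (hb c d u)
  have h := all2_spec h (hb a b v)
  have h := all2_spec h (hb a c v)
  have h := all2_spec h (hb b c v)
  have h := all2_spec h (hb a d v)
  have h := all2_spec h (hb b d v)
  have h := all2_spec h (hb c d v)
  have h := Nat.eq_of_beq_eq_true h
  have r1 : ∀ z, g b a z = g a b z := fun _ => hg.s12 _ _ _
  have r2 : ∀ z, g z b a = g z a b := fun _ => hg.s23 _ _ _
  simp only [Kt, r1, r2]
  exact h

theorem k12 (g : V → V → V → ℕ) (hb : ∀ a b c, g a b c = 0 ∨ g a b c = 1) (hg : Symm3 g)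
    (a b c d u v : V) : Kt KN g a c b d u v = Kt KN g a b c d u v := by
  have h := chkK12
  have h := all2_spec h (hb a b c)
  have h := all2_spec h (hb a b d)
  have h := all2_spec h (hb a c d)
  have h := all2_spec h (hb b c d)
  have h := all2_spec h (hb a b u)
  have h := all2_spec h (hb a c u)
  have h := all2_spec h (hb b c u)
  have h := all2_spec h (hb a d u)
  have h := all2_spec h (hb b d u)
  have h := all2_spec h (hb c d u)
  have h := all2_spec h (hb a b v)
  have h := all2_spec h (hb a c v)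
  have h := all2_spec h (hb b c v)
  have h := all2_spec h (hb a d v)
  have h := all2_spec h (hb b d v)
  have h := all2_spec h (hb c d v)
  have h := Nat.eq_of_beq_eq_true h
  have r1 : ∀ z, g c b z = g b c z := fun _ => hg.s12 _ _ _
  have r2 : ∀ z, g z c b = g z b c := fun _ => hg.s23 _ _ _
  simp only [Kt, r1, r2]
  exact h

theorem k23 (g : V → V → V → ℕ) (hb : ∀ a b c, g a b c = 0 ∨ g a b c = 1) (hg : Symm3 g)
    (a b c d u v : V) : Kt KN g a b d c u v = Kt KN g a b c d u v := by
  have h := chkK23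
  have h := all2_spec h (hb a b c)
  have h := all2_spec h (hb a b d)
  have h := all2_spec h (hb a c d)
  have h := all2_spec h (hb b c d)
  have h := all2_spec h (hb a b u)
  have h := all2_spec h (hb a c u)
  have h := all2_spec h (hb b c u)
  have h := all2_spec h (hb a d u)
  have h := all2_spec h (hb b d u)
  have h := all2_spec h (hb c d u)
  have h := all2_spec h (hb a b v)
  have h := all2_spec h (hb a c v)
  have h := all2_spec h (hb b c v)
  have h := all2_spec h (hb a d v)
  have h := all2_spec h (hb b d v)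
  have h := all2_spec h (hb c d v)
  have h := Nat.eq_of_beq_eq_true h
  have r1 : ∀ z, g d c z = g c d z := fun _ => hg.s12 _ _ _
  have r2 : ∀ z, g z d c = g z c d := fun _ => hg.s23 _ _ _
  simp only [Kt, r1, r2]
  exact h

theorem ix6_lt (g : V → V → V → ℕ) (hb : ∀ a b c, g a b c = 0 ∨ g a b c = 1) (a b c d u : V) :
    ix6 (g a b u) (g a c u) (g b c u) (g a d u) (g b d u) (g c d u) < 64 := by
  have h1 := hb a b u
  have h2 := hb a c u
  have h3 := hb b c u
  have h4 := hb a d u
  have h5 := hb b d u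
  have h6 := hb c d u
  simp only [ix6, Nat.add_eq, Nat.mul_eq]
  omega

theorem ix4_lt (g : V → V → V → ℕ) (hb : ∀ a b c, g a b c = 0 ∨ g a b c = 1) (a b c d : V) :
    ix4 (g a b c) (g a b d) (g a c d) (g b c d) < 16 := by
  have h1 := hb a b c
  have h2 := hb a b d
  have h3 := hb a c d
  have h4 := hb b c d
  simp only [ix4, Nat.add_eq, Nat.mul_eq]
  omega

theorem k45 (g : V → V → V → ℕ) (hb : ∀ a b c, g a b c = 0 ∨ g a b c = 1)
    (a b c d u v : V) : Kt KN g a b c d v u = Kt KN g a b c d u v := by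
  have h := allLt_spec (allLt_spec (allLt_spec chkK45 _ (ix4_lt g hb a b c d))
    _ (ix6_lt g hb a b c d u)) _ (ix6_lt g hb a b c d v)
  exact Nat.eq_of_beq_eq_true h

theorem m01 (g : V → V → V → ℕ) (hb : ∀ a b c, g a b c = 0 ∨ g a b c = 1) (hg : Symm3 g)
    (a b c d e f : V) : Mt MN g b a c d e f = Mt MN g a b c d e f := by
  have h := chkM01
  have h := all2_spec h (hb a b c)
  have h := all2_spec h (hb a b d)
  have h := all2_spec h (hb a c d)
  have h := all2_spec h (hb b c d)
  have h := all2_spec h (hb a b e)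
  have h := all2_spec h (hb a b f)
  have h := all2_spec h (hb a e f)
  have h := all2_spec h (hb b e f)
  have h := Nat.eq_of_beq_eq_true h
  have r1 : ∀ z, g b a z = g a b z := fun _ => hg.s12 _ _ _
  have r2 : ∀ z, g z b a = g z a b := fun _ => hg.s23 _ _ _
  simp only [Mt, r1, r2]
  exact h

theorem m23 (g : V → V → V → ℕ) (hb : ∀ a b c, g a b c = 0 ∨ g a b c = 1) (hg : Symm3 g)
    (a b c d e f : V) : Mt MN g a b d c e f = Mt MN g a b c d e f := by
  have h := chkM23
  have h := all2_spec h (hb a b c)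
  have h := all2_spec h (hb a b d)
  have h := all2_spec h (hb a c d)
  have h := all2_spec h (hb b c d)
  have h := all2_spec h (hb a b e)
  have h := all2_spec h (hb a b f)
  have h := all2_spec h (hb a e f)
  have h := all2_spec h (hb b e f)
  have h := Nat.eq_of_beq_eq_true h
  have r1 : ∀ z, g d c z = g c d z := fun _ => hg.s12 _ _ _
  have r2 : ∀ z, g z d c = g z c d := fun _ => hg.s23 _ _ _
  simp only [Mt, r1, r2]
  exact h

theorem m45 (g : V → V → V → ℕ) (hb : ∀ a b c, g a b c = 0 ∨ g a b c = 1) (hg : Symm3 g)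
    (a b c d e f : V) : Mt MN g a b c d f e = Mt MN g a b c d e f := by
  have h := chkM45
  have h := all2_spec h (hb a b c)
  have h := all2_spec h (hb a b d)
  have h := all2_spec h (hb a c d)
  have h := all2_spec h (hb b c d)
  have h := all2_spec h (hb a b e)
  have h := all2_spec h (hb a b f)
  have h := all2_spec h (hb a e f)
  have h := all2_spec h (hb b e f)
  have h := Nat.eq_of_beq_eq_true h
  have r1 : ∀ z, g f e z = g e f z := fun _ => hg.s12 _ _ _
  have r2 : ∀ z, g z f e = g z e f := fun _ => hg.s23 _ _ _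
  simp only [Mt, r1, r2]
  exact h

theorem mpp (g : V → V → V → ℕ) (hb : ∀ a b c, g a b c = 0 ∨ g a b c = 1) (hg : Symm3 g)
    (a b c d e f : V) : Mt MN g a b e f c d = Mt MN g a b c d e f := by
  have h := chkMpp
  have h := all2_spec h (hb a b c)
  have h := all2_spec h (hb a b d)
  have h := all2_spec h (hb a c d)
  have h := all2_spec h (hb b c d)
  have h := all2_spec h (hb a b e)
  have h := all2_spec h (hb a b f)
  have h := all2_spec h (hb a e f)
  have h := all2_spec h (hb b e f)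
  have h := Nat.eq_of_beq_eq_true h
  exact h

/-- the pattern: 12 triples are edges, 7 are non-edges, the triple `245` is free -/
def patB (b012 b013 b023 b123 b014 b024 b124 b034 b134 b234 b015 b025 b125 b035 b135 b235 b045 b145 b245 b345 : ℕ) : Bool :=
  ((Nat.beq b012 1) && ((Nat.beq b013 1) && ((Nat.beq b023 1) && ((Nat.beq b123 0) && ((Nat.beq b014 1) && ((Nat.beq b024 0) && ((Nat.beq b124 1) && ((Nat.beq b034 0) && ((Nat.beq b134 1) && ((Nat.beq b234 1) && ((Nat.beq b015 1) && ((Nat.beq b025 0) && ((Nat.beq b125 1) && ((Nat.beq b035 0) && ((Nat.beq b135 1) && ((Nat.beq b235 1) && ((Nat.beq b045 1) && ((Nat.beq b145 0) && (Nat.beq b345 0)))))))))))))))))))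

/-- the pattern occurs in one of the needed orders -/
def patAny (b012 b013 b023 b123 b014 b024 b124 b034 b134 b234 b015 b025 b125 b035 b135 b235 b045 b145 b245 b345 : ℕ) : Bool :=
  (patB b015 b012 b025 b125 b013 b035 b135 b023 b123 b235 b014 b045 b145 b024 b124 b245 b034 b134 b345 b234) ||
  ((patB b023 b024 b034 b234 b012 b013 b123 b014 b124 b134 b025 b035 b235 b045 b245 b345 b015 b125 b135 b145) ||
  ((patB b015 b014 b145 b045 b012 b125 b025 b124 b024 b245 b013 b135 b035 b134 b034 b345 b123 b023 b235 b234) ||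
  ((patB b123 b124 b134 b234 b012 b013 b023 b014 b024 b034 b125 b135 b235 b145 b245 b345 b015 b025 b035 b045) ||
  ((patB b013 b023 b123 b012 b034 b134 b014 b234 b024 b124 b035 b135 b015 b235 b025 b125 b345 b045 b145 b245) ||
  ((patB b035 b345 b034 b045 b135 b013 b015 b134 b145 b014 b235 b023 b025 b234 b245 b024 b123 b125 b012 b124) ||
  ((patB b014 b024 b124 b012 b034 b134 b013 b234 b023 b123 b045 b145 b015 b245 b025 b125 b345 b035 b135 b235) ||
  ((patB b145 b245 b124 b125 b045 b014 b015 b024 b025 b012 b345 b134 b135 b234 b235 b123 b034 b035 b013 b023) ||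
  ((patB b015 b125 b025 b012 b135 b035 b013 b235 b123 b023 b145 b045 b014 b245 b124 b024 b345 b134 b034 b234) ||
  ((patB b025 b125 b015 b012 b235 b035 b023 b135 b123 b013 b245 b045 b024 b145 b124 b014 b345 b234 b034 b134) ||
  ((patB b235 b345 b245 b234 b035 b025 b023 b045 b034 b024 b135 b125 b123 b145 b134 b124 b015 b013 b012 b014) ||
  ((patB b245 b345 b235 b234 b045 b025 b024 b035 b034 b023 b145 b125 b124 b135 b134 b123 b015 b014 b012 b013) ||
  ((patB b012 b025 b015 b125 b023 b013 b123 b035 b235 b135 b024 b014 b124 b045 b245 b145 b034 b234 b134 b345) ||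
  ((patB b024 b023 b034 b234 b012 b014 b124 b013 b123 b134 b025 b045 b245 b035 b235 b345 b015 b125 b145 b135) ||
  ((patB b015 b025 b012 b125 b035 b013 b135 b023 b235 b123 b045 b014 b145 b024 b245 b124 b034 b345 b134 b234) ||
  ((patB b012 b125 b015 b025 b123 b013 b023 b135 b235 b035 b124 b014 b024 b145 b245 b045 b134 b234 b034 b345) ||
  ((patB b124 b123 b134 b234 b012 b014 b024 b013 b023 b034 b125 b145 b245 b135 b235 b345 b015 b025 b045 b035) ||
  ((patB b015 b145 b014 b045 b125 b012 b025 b124 b245 b024 b135 b013 b035 b134 b345 b034 b123 b235 b023 b234) ||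
  ((patB b025 b245 b024 b045 b125 b012 b015 b124 b145 b014 b235 b023 b035 b234 b345 b034 b123 b135 b013 b134) ||
  ((patB b023 b013 b123 b012 b034 b234 b024 b134 b014 b124 b035 b235 b025 b135 b015 b125 b345 b045 b245 b145) ||
  ((patB b034 b035 b345 b045 b013 b134 b014 b135 b015 b145 b023 b234 b024 b235 b025 b245 b123 b012 b124 b125) ||
  ((patB b135 b235 b123 b125 b035 b013 b015 b023 b025 b012 b345 b134 b145 b234 b245 b124 b034 b045 b014 b024) ||
  ((patB b024 b014 b124 b012 b034 b234 b023 b134 b013 b123 b045 b245 b025 b145 b015 b125 b345 b035 b235 b135) ||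
  ((patB b034 b045 b345 b035 b014 b134 b013 b145 b015 b135 b024 b234 b023 b245 b025 b235 b124 b012 b123 b125) ||
  ((patB b345 b045 b034 b035 b145 b134 b135 b014 b015 b013 b245 b234 b235 b024 b025 b023 b124 b125 b123 b012) ||
  ((patB b015 b025 b125 b012 b035 b135 b013 b235 b023 b123 b045 b145 b014 b245 b024 b124 b345 b034 b134 b234) ||
  (patB b235 b245 b345 b234 b025 b035 b023 b045 b024 b034 b125 b135 b123 b145 b124 b134 b015 b012 b013 b014))))))))))))))))))))))))))

def S20 (b012 b013 b023 b123 b014 b024 b124 b034 b134 b234 b015 b025 b125 b035 b135 b235 b045 b145 b245 b345 : ℕ) : ℕ :=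
  Nat.add (Nat.add (KB KN b012 b013 b023 b123 b014 b024 b124 b034 b134 b234 b015 b025 b125 b035 b135 b235 b045 b145 b245 b345)
    (MB MN b012 b013 b023 b123 b014 b024 b124 b034 b134 b234 b015 b025 b125 b035 b135 b235 b045 b145 b245 b345))
    (Nat.mul A1 (EB b012 b013 b023 b123 b014 b024 b124 b034 b134 b234 b015 b025 b125 b035 b135 b235 b045 b145 b245 b345))

def good (b012 b013 b023 b123 b014 b024 b124 b034 b134 b234 b015 b025 b125 b035 b135 b235 b045 b145 b245 b345 : ℕ) : Bool :=
  (Nat.ble (S20 b012 b013 b023 b123 b014 b024 b124 b034 b134 b234 b015 b025 b125 b035 b135 b235 b045 b145 b245 b345) C0) ||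
  ((Nat.ble (S20 b012 b013 b023 b123 b014 b024 b124 b034 b134 b234 b015 b025 b125 b035 b135 b235 b045 b145 b245 b345) (Nat.add C0 CC)) &&
    patAny b012 b013 b023 b123 b014 b024 b124 b034 b134 b234 b015 b025 b125 b035 b135 b235 b045 b145 b245 b345)

theorem chkGood : chk5 good = true := by decide +kernel

/-- indicator of the pattern at `(a, b, c, d, e, f)` -/
def IV (g : V → V → V → ℕ) (a b c d e f : V) : ℕ :=
  cond (patB (g a b c) (g a b d) (g a c d) (g b c d) (g a b e) (g a c e) (g b c e) (g a d e) (g b d e) (g c d e) (g a b f) (g a c f) (g b c f) (g a d f) (g b d f) (g c d f) (g a e f) (g b e f) (g c e f) (g d e f)) 1 0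

/-- number of orders in which the six-tuple realises the pattern -/
def J (g : V → V → V → ℕ) (x : Fin 6 → V) : ℕ :=
  ∑ σ : Equiv.Perm (Fin 6), IV g (x (σ 0)) (x (σ 1)) (x (σ 2)) (x (σ 3)) (x (σ 4)) (x (σ 5))

theorem J_comp (g : V → V → V → ℕ) (τ : Equiv.Perm (Fin 6)) (x : Fin 6 → V) :
    J g (fun i => x (τ i)) = J g x :=
  Fintype.sum_equiv (Equiv.mulLeft τ) _ _ (fun _ => rfl)

theorem J_ge (g : V → V → V → ℕ) (x : Fin 6 → V) (p : Fin 6 → Fin 6) (hp : Function.Bijective p)
    (h : IV g (x (p 0)) (x (p 1)) (x (p 2)) (x (p 3)) (x (p 4)) (x (p 5)) = 1) :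
    1 ≤ J g x := by
  rw [← h]
  exact Finset.single_le_sum (f := fun σ : Equiv.Perm (Fin 6) =>
    IV g (x (σ 0)) (x (σ 1)) (x (σ 2)) (x (σ 3)) (x (σ 4)) (x (σ 5)))
    (fun _ _ => Nat.zero_le _) (Finset.mem_univ (Equiv.ofBijective p hp))

theorem sum_J [Fintype V] (g : V → V → V → ℕ) :
    ∑ x : Fin 6 → V, J g x
      = 720 * ∑ x : Fin 6 → V, IV g (x 0) (x 1) (x 2) (x 3) (x 4) (x 5) := by
  unfold J
  rw [Finset.sum_comm]
  have h : ∀ σ : Equiv.Perm (Fin 6), ∑ x : Fin 6 → V,
      IV g (x (σ 0)) (x (σ 1)) (x (σ 2)) (x (σ 3)) (x (σ 4)) (x (σ 5))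
      = ∑ x : Fin 6 → V, IV g (x 0) (x 1) (x 2) (x 3) (x 4) (x 5) := fun σ =>
    sum_perm (fun x => IV g (x 0) (x 1) (x 2) (x 3) (x 4) (x 5)) σ σ.bijective
  simp only [h, Finset.sum_const, Finset.card_univ, Fintype.card_perm, Fintype.card_fin]
  rw [smul_eq_mul]
  rfl

theorem pat_0 (g : V → V → V → ℕ) (hg : Symm3 g) (a b c d e f : V)
    (h : patB (g a b f) (g a b c) (g a c f) (g b c f) (g a b d) (g a d f) (g b d f) (g a c d) (g b c d) (g c d f) (g a b e) (g a e f) (g b e f) (g a c e) (g b c e) (g c e f) (g a d e) (g b d e) (g d e f) (g c d e) = true) :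
    1 ≤ J g ![a, b, c, d, e, f] := by
  refine J_ge g _ ![0, 1, 5, 2, 3, 4] (by decide) ?_
  show cond (patB (g a b f) (g a b c) (g a f c) (g b f c) (g a b d) (g a f d) (g b f d) (g a c d) (g b c d) (g f c d) (g a b e) (g a f e) (g b f e) (g a c e) (g b c e) (g f c e) (g a d e) (g b d e) (g f d e) (g c d e)) 1 0 = 1
  have q0 : g a f c = g a c f := hg.s23 a c f
  have q1 : g b f c = g b c f := hg.s23 b c f
  have q2 : g a f d = g a d f := hg.s23 a d f
  have q3 : g b f d = g b d f := hg.s23 b d f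
  have q4 : g f c d = g c d f := (hg.s12 c f d).trans (hg.s23 c d f)
  have q5 : g a f e = g a e f := hg.s23 a e f
  have q6 : g b f e = g b e f := hg.s23 b e f
  have q7 : g f c e = g c e f := (hg.s12 c f e).trans (hg.s23 c e f)
  have q8 : g f d e = g d e f := (hg.s12 d f e).trans (hg.s23 d e f)
  rw [q0, q1, q2, q3, q4, q5, q6, q7, q8, h]
  rfl

theorem pat_1 (g : V → V → V → ℕ) (hg : Symm3 g) (a b c d e f : V)
    (h : patB (g a c d) (g a c e) (g a d e) (g c d e) (g a b c) (g a b d) (g b c d) (g a b e) (g b c e) (g b d e) (g a c f) (g a d f) (g c d f) (g a e f) (g c e f) (g d e f) (g a b f) (g b c f) (g b d f) (g b e f) = true) :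
    1 ≤ J g ![a, b, c, d, e, f] := by
  refine J_ge g _ ![0, 2, 3, 4, 1, 5] (by decide) ?_
  show cond (patB (g a c d) (g a c e) (g a d e) (g c d e) (g a c b) (g a d b) (g c d b) (g a e b) (g c e b) (g d e b) (g a c f) (g a d f) (g c d f) (g a e f) (g c e f) (g d e f) (g a b f) (g c b f) (g d b f) (g e b f)) 1 0 = 1
  have q0 : g a c b = g a b c := hg.s23 a b c
  have q1 : g a d b = g a b d := hg.s23 a b d
  have q2 : g c d b = g b c d := (hg.s23 c b d).trans (hg.s12 b c d)
  have q3 : g a e b = g a b e := hg.s23 a b e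
  have q4 : g c e b = g b c e := (hg.s23 c b e).trans (hg.s12 b c e)
  have q5 : g d e b = g b d e := (hg.s23 d b e).trans (hg.s12 b d e)
  have q6 : g c b f = g b c f := hg.s12 b c f
  have q7 : g d b f = g b d f := hg.s12 b d f
  have q8 : g e b f = g b e f := hg.s12 b e f
  rw [q0, q1, q2, q3, q4, q5, q6, q7, q8, h]
  rfl

theorem pat_2 (g : V → V → V → ℕ) (hg : Symm3 g) (a b c d e f : V)
    (h : patB (g a b f) (g a b e) (g b e f) (g a e f) (g a b c) (g b c f) (g a c f) (g b c e) (g a c e) (g c e f) (g a b d) (g b d f) (g a d f) (g b d e) (g a d e) (g d e f) (g b c d) (g a c d) (g c d f) (g c d e) = true) :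
    1 ≤ J g ![a, b, c, d, e, f] := by
  refine J_ge g _ ![1, 0, 5, 4, 2, 3] (by decide) ?_
  show cond (patB (g b a f) (g b a e) (g b f e) (g a f e) (g b a c) (g b f c) (g a f c) (g b e c) (g a e c) (g f e c) (g b a d) (g b f d) (g a f d) (g b e d) (g a e d) (g f e d) (g b c d) (g a c d) (g f c d) (g e c d)) 1 0 = 1
  have q0 : g b a f = g a b f := hg.s12 a b f
  have q1 : g b a e = g a b e := hg.s12 a b e
  have q2 : g b f e = g b e f := hg.s23 b e f
  have q3 : g a f e = g a e f := hg.s23 a e f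
  have q4 : g b a c = g a b c := hg.s12 a b c
  have q5 : g b f c = g b c f := hg.s23 b c f
  have q6 : g a f c = g a c f := hg.s23 a c f
  have q7 : g b e c = g b c e := hg.s23 b c e
  have q8 : g a e c = g a c e := hg.s23 a c e
  have q9 : g f e c = g c e f := (hg.s12 e f c).trans ((hg.s23 e c f).trans (hg.s12 c e f))
  have q10 : g b a d = g a b d := hg.s12 a b d
  have q11 : g b f d = g b d f := hg.s23 b d f
  have q12 : g a f d = g a d f := hg.s23 a d f
  have q13 : g b e d = g b d e := hg.s23 b d e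
  have q14 : g a e d = g a d e := hg.s23 a d e
  have q15 : g f e d = g d e f := (hg.s12 e f d).trans ((hg.s23 e d f).trans (hg.s12 d e f))
  have q16 : g f c d = g c d f := (hg.s12 c f d).trans (hg.s23 c d f)
  have q17 : g e c d = g c d e := (hg.s12 c e d).trans (hg.s23 c d e)
  rw [q0, q1, q2, q3, q4, q5, q6, q7, q8, q9, q10, q11, q12, q13, q14, q15, q16, q17, h]
  rfl

theorem pat_3 (g : V → V → V → ℕ) (hg : Symm3 g) (a b c d e f : V)
    (h : patB (g b c d) (g b c e) (g b d e) (g c d e) (g a b c) (g a b d) (g a c d) (g a b e) (g a c e) (g a d e) (g b c f) (g b d f) (g c d f) (g b e f) (g c e f) (g d e f) (g a b f) (g a c f) (g a d f) (g a e f) = true) :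
    1 ≤ J g ![a, b, c, d, e, f] := by
  refine J_ge g _ ![1, 2, 3, 4, 0, 5] (by decide) ?_
  show cond (patB (g b c d) (g b c e) (g b d e) (g c d e) (g b c a) (g b d a) (g c d a) (g b e a) (g c e a) (g d e a) (g b c f) (g b d f) (g c d f) (g b e f) (g c e f) (g d e f) (g b a f) (g c a f) (g d a f) (g e a f)) 1 0 = 1
  have q0 : g b c a = g a b c := (hg.s23 b a c).trans (hg.s12 a b c)
  have q1 : g b d a = g a b d := (hg.s23 b a d).trans (hg.s12 a b d)
  have q2 : g c d a = g a c d := (hg.s23 c a d).trans (hg.s12 a c d)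
  have q3 : g b e a = g a b e := (hg.s23 b a e).trans (hg.s12 a b e)
  have q4 : g c e a = g a c e := (hg.s23 c a e).trans (hg.s12 a c e)
  have q5 : g d e a = g a d e := (hg.s23 d a e).trans (hg.s12 a d e)
  have q6 : g b a f = g a b f := hg.s12 a b f
  have q7 : g c a f = g a c f := hg.s12 a c f
  have q8 : g d a f = g a d f := hg.s12 a d f
  have q9 : g e a f = g a e f := hg.s12 a e f
  rw [q0, q1, q2, q3, q4, q5, q6, q7, q8, q9, h]
  rfl

theorem pat_4 (g : V → V → V → ℕ) (hg : Symm3 g) (a b c d e f : V)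
    (h : patB (g a b d) (g a c d) (g b c d) (g a b c) (g a d e) (g b d e) (g a b e) (g c d e) (g a c e) (g b c e) (g a d f) (g b d f) (g a b f) (g c d f) (g a c f) (g b c f) (g d e f) (g a e f) (g b e f) (g c e f) = true) :
    1 ≤ J g ![a, b, c, d, e, f] := by
  refine J_ge g _ ![3, 0, 1, 2, 4, 5] (by decide) ?_
  show cond (patB (g d a b) (g d a c) (g d b c) (g a b c) (g d a e) (g d b e) (g a b e) (g d c e) (g a c e) (g b c e) (g d a f) (g d b f) (g a b f) (g d c f) (g a c f) (g b c f) (g d e f) (g a e f) (g b e f) (g c e f)) 1 0 = 1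
  have q0 : g d a b = g a b d := (hg.s12 a d b).trans (hg.s23 a b d)
  have q1 : g d a c = g a c d := (hg.s12 a d c).trans (hg.s23 a c d)
  have q2 : g d b c = g b c d := (hg.s12 b d c).trans (hg.s23 b c d)
  have q3 : g d a e = g a d e := hg.s12 a d e
  have q4 : g d b e = g b d e := hg.s12 b d e
  have q5 : g d c e = g c d e := hg.s12 c d e
  have q6 : g d a f = g a d f := hg.s12 a d f
  have q7 : g d b f = g b d f := hg.s12 b d f
  have q8 : g d c f = g c d f := hg.s12 c d f
  rw [q0, q1, q2, q3, q4, q5, q6, q7, q8, h]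
  rfl

theorem pat_5 (g : V → V → V → ℕ) (hg : Symm3 g) (a b c d e f : V)
    (h : patB (g a d f) (g d e f) (g a d e) (g a e f) (g b d f) (g a b d) (g a b f) (g b d e) (g b e f) (g a b e) (g c d f) (g a c d) (g a c f) (g c d e) (g c e f) (g a c e) (g b c d) (g b c f) (g a b c) (g b c e) = true) :
    1 ≤ J g ![a, b, c, d, e, f] := by
  refine J_ge g _ ![3, 5, 0, 4, 1, 2] (by decide) ?_
  show cond (patB (g d f a) (g d f e) (g d a e) (g f a e) (g d f b) (g d a b) (g f a b) (g d e b) (g f e b) (g a e b) (g d f c) (g d a c) (g f a c) (g d e c) (g f e c) (g a e c) (g d b c) (g f b c) (g a b c) (g e b c)) 1 0 = 1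
  have q0 : g d f a = g a d f := (hg.s23 d a f).trans (hg.s12 a d f)
  have q1 : g d f e = g d e f := hg.s23 d e f
  have q2 : g d a e = g a d e := hg.s12 a d e
  have q3 : g f a e = g a e f := (hg.s12 a f e).trans (hg.s23 a e f)
  have q4 : g d f b = g b d f := (hg.s23 d b f).trans (hg.s12 b d f)
  have q5 : g d a b = g a b d := (hg.s12 a d b).trans (hg.s23 a b d)
  have q6 : g f a b = g a b f := (hg.s12 a f b).trans (hg.s23 a b f)
  have q7 : g d e b = g b d e := (hg.s23 d b e).trans (hg.s12 b d e)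
  have q8 : g f e b = g b e f := (hg.s12 e f b).trans ((hg.s23 e b f).trans (hg.s12 b e f))
  have q9 : g a e b = g a b e := hg.s23 a b e
  have q10 : g d f c = g c d f := (hg.s23 d c f).trans (hg.s12 c d f)
  have q11 : g d a c = g a c d := (hg.s12 a d c).trans (hg.s23 a c d)
  have q12 : g f a c = g a c f := (hg.s12 a f c).trans (hg.s23 a c f)
  have q13 : g d e c = g c d e := (hg.s23 d c e).trans (hg.s12 c d e)
  have q14 : g f e c = g c e f := (hg.s12 e f c).trans ((hg.s23 e c f).trans (hg.s12 c e f))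
  have q15 : g a e c = g a c e := hg.s23 a c e
  have q16 : g d b c = g b c d := (hg.s12 b d c).trans (hg.s23 b c d)
  have q17 : g f b c = g b c f := (hg.s12 b f c).trans (hg.s23 b c f)
  have q18 : g e b c = g b c e := (hg.s12 b e c).trans (hg.s23 b c e)
  rw [q0, q1, q2, q3, q4, q5, q6, q7, q8, q9, q10, q11, q12, q13, q14, q15, q16, q17, q18, h]
  rfl

theorem pat_6 (g : V → V → V → ℕ) (hg : Symm3 g) (a b c d e f : V)
    (h : patB (g a b e) (g a c e) (g b c e) (g a b c) (g a d e) (g b d e) (g a b d) (g c d e) (g a c d) (g b c d) (g a e f) (g b e f) (g a b f) (g c e f) (g a c f) (g b c f) (g d e f) (g a d f) (g b d f) (g c d f) = true) :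
    1 ≤ J g ![a, b, c, d, e, f] := by
  refine J_ge g _ ![4, 0, 1, 2, 3, 5] (by decide) ?_
  show cond (patB (g e a b) (g e a c) (g e b c) (g a b c) (g e a d) (g e b d) (g a b d) (g e c d) (g a c d) (g b c d) (g e a f) (g e b f) (g a b f) (g e c f) (g a c f) (g b c f) (g e d f) (g a d f) (g b d f) (g c d f)) 1 0 = 1
  have q0 : g e a b = g a b e := (hg.s12 a e b).trans (hg.s23 a b e)
  have q1 : g e a c = g a c e := (hg.s12 a e c).trans (hg.s23 a c e)
  have q2 : g e b c = g b c e := (hg.s12 b e c).trans (hg.s23 b c e)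
  have q3 : g e a d = g a d e := (hg.s12 a e d).trans (hg.s23 a d e)
  have q4 : g e b d = g b d e := (hg.s12 b e d).trans (hg.s23 b d e)
  have q5 : g e c d = g c d e := (hg.s12 c e d).trans (hg.s23 c d e)
  have q6 : g e a f = g a e f := hg.s12 a e f
  have q7 : g e b f = g b e f := hg.s12 b e f
  have q8 : g e c f = g c e f := hg.s12 c e f
  have q9 : g e d f = g d e f := hg.s12 d e f
  rw [q0, q1, q2, q3, q4, q5, q6, q7, q8, q9, h]
  rfl

theorem pat_7 (g : V → V → V → ℕ) (hg : Symm3 g) (a b c d e f : V)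
    (h : patB (g b e f) (g c e f) (g b c e) (g b c f) (g a e f) (g a b e) (g a b f) (g a c e) (g a c f) (g a b c) (g d e f) (g b d e) (g b d f) (g c d e) (g c d f) (g b c d) (g a d e) (g a d f) (g a b d) (g a c d) = true) :
    1 ≤ J g ![a, b, c, d, e, f] := by
  refine J_ge g _ ![4, 5, 1, 2, 0, 3] (by decide) ?_
  show cond (patB (g e f b) (g e f c) (g e b c) (g f b c) (g e f a) (g e b a) (g f b a) (g e c a) (g f c a) (g b c a) (g e f d) (g e b d) (g f b d) (g e c d) (g f c d) (g b c d) (g e a d) (g f a d) (g b a d) (g c a d)) 1 0 = 1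
  have q0 : g e f b = g b e f := (hg.s23 e b f).trans (hg.s12 b e f)
  have q1 : g e f c = g c e f := (hg.s23 e c f).trans (hg.s12 c e f)
  have q2 : g e b c = g b c e := (hg.s12 b e c).trans (hg.s23 b c e)
  have q3 : g f b c = g b c f := (hg.s12 b f c).trans (hg.s23 b c f)
  have q4 : g e f a = g a e f := (hg.s23 e a f).trans (hg.s12 a e f)
  have q5 : g e b a = g a b e := (hg.s12 b e a).trans ((hg.s23 b a e).trans (hg.s12 a b e))
  have q6 : g f b a = g a b f := (hg.s12 b f a).trans ((hg.s23 b a f).trans (hg.s12 a b f))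
  have q7 : g e c a = g a c e := (hg.s12 c e a).trans ((hg.s23 c a e).trans (hg.s12 a c e))
  have q8 : g f c a = g a c f := (hg.s12 c f a).trans ((hg.s23 c a f).trans (hg.s12 a c f))
  have q9 : g b c a = g a b c := (hg.s23 b a c).trans (hg.s12 a b c)
  have q10 : g e f d = g d e f := (hg.s23 e d f).trans (hg.s12 d e f)
  have q11 : g e b d = g b d e := (hg.s12 b e d).trans (hg.s23 b d e)
  have q12 : g f b d = g b d f := (hg.s12 b f d).trans (hg.s23 b d f)
  have q13 : g e c d = g c d e := (hg.s12 c e d).trans (hg.s23 c d e)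
  have q14 : g f c d = g c d f := (hg.s12 c f d).trans (hg.s23 c d f)
  have q15 : g e a d = g a d e := (hg.s12 a e d).trans (hg.s23 a d e)
  have q16 : g f a d = g a d f := (hg.s12 a f d).trans (hg.s23 a d f)
  have q17 : g b a d = g a b d := hg.s12 a b d
  have q18 : g c a d = g a c d := hg.s12 a c d
  rw [q0, q1, q2, q3, q4, q5, q6, q7, q8, q9, q10, q11, q12, q13, q14, q15, q16, q17, q18, h]
  rfl

theorem pat_8 (g : V → V → V → ℕ) (hg : Symm3 g) (a b c d e f : V)
    (h : patB (g a b f) (g b c f) (g a c f) (g a b c) (g b d f) (g a d f) (g a b d) (g c d f) (g b c d) (g a c d) (g b e f) (g a e f) (g a b e) (g c e f) (g b c e) (g a c e) (g d e f) (g b d e) (g a d e) (g c d e) = true) :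
    1 ≤ J g ![a, b, c, d, e, f] := by
  refine J_ge g _ ![5, 1, 0, 2, 3, 4] (by decide) ?_
  show cond (patB (g f b a) (g f b c) (g f a c) (g b a c) (g f b d) (g f a d) (g b a d) (g f c d) (g b c d) (g a c d) (g f b e) (g f a e) (g b a e) (g f c e) (g b c e) (g a c e) (g f d e) (g b d e) (g a d e) (g c d e)) 1 0 = 1
  have q0 : g f b a = g a b f := (hg.s12 b f a).trans ((hg.s23 b a f).trans (hg.s12 a b f))
  have q1 : g f b c = g b c f := (hg.s12 b f c).trans (hg.s23 b c f)
  have q2 : g f a c = g a c f := (hg.s12 a f c).trans (hg.s23 a c f)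
  have q3 : g b a c = g a b c := hg.s12 a b c
  have q4 : g f b d = g b d f := (hg.s12 b f d).trans (hg.s23 b d f)
  have q5 : g f a d = g a d f := (hg.s12 a f d).trans (hg.s23 a d f)
  have q6 : g b a d = g a b d := hg.s12 a b d
  have q7 : g f c d = g c d f := (hg.s12 c f d).trans (hg.s23 c d f)
  have q8 : g f b e = g b e f := (hg.s12 b f e).trans (hg.s23 b e f)
  have q9 : g f a e = g a e f := (hg.s12 a f e).trans (hg.s23 a e f)
  have q10 : g b a e = g a b e := hg.s12 a b e
  have q11 : g f c e = g c e f := (hg.s12 c f e).trans (hg.s23 c e f)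
  have q12 : g f d e = g d e f := (hg.s12 d f e).trans (hg.s23 d e f)
  rw [q0, q1, q2, q3, q4, q5, q6, q7, q8, q9, q10, q11, q12, h]
  rfl

theorem pat_9 (g : V → V → V → ℕ) (hg : Symm3 g) (a b c d e f : V)
    (h : patB (g a c f) (g b c f) (g a b f) (g a b c) (g c d f) (g a d f) (g a c d) (g b d f) (g b c d) (g a b d) (g c e f) (g a e f) (g a c e) (g b e f) (g b c e) (g a b e) (g d e f) (g c d e) (g a d e) (g b d e) = true) :
    1 ≤ J g ![a, b, c, d, e, f] := by
  refine J_ge g _ ![5, 2, 0, 1, 3, 4] (by decide) ?_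
  show cond (patB (g f c a) (g f c b) (g f a b) (g c a b) (g f c d) (g f a d) (g c a d) (g f b d) (g c b d) (g a b d) (g f c e) (g f a e) (g c a e) (g f b e) (g c b e) (g a b e) (g f d e) (g c d e) (g a d e) (g b d e)) 1 0 = 1
  have q0 : g f c a = g a c f := (hg.s12 c f a).trans ((hg.s23 c a f).trans (hg.s12 a c f))
  have q1 : g f c b = g b c f := (hg.s12 c f b).trans ((hg.s23 c b f).trans (hg.s12 b c f))
  have q2 : g f a b = g a b f := (hg.s12 a f b).trans (hg.s23 a b f)
  have q3 : g c a b = g a b c := (hg.s12 a c b).trans (hg.s23 a b c)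
  have q4 : g f c d = g c d f := (hg.s12 c f d).trans (hg.s23 c d f)
  have q5 : g f a d = g a d f := (hg.s12 a f d).trans (hg.s23 a d f)
  have q6 : g c a d = g a c d := hg.s12 a c d
  have q7 : g f b d = g b d f := (hg.s12 b f d).trans (hg.s23 b d f)
  have q8 : g c b d = g b c d := hg.s12 b c d
  have q9 : g f c e = g c e f := (hg.s12 c f e).trans (hg.s23 c e f)
  have q10 : g f a e = g a e f := (hg.s12 a f e).trans (hg.s23 a e f)
  have q11 : g c a e = g a c e := hg.s12 a c e
  have q12 : g f b e = g b e f := (hg.s12 b f e).trans (hg.s23 b e f)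
  have q13 : g c b e = g b c e := hg.s12 b c e
  have q14 : g f d e = g d e f := (hg.s12 d f e).trans (hg.s23 d e f)
  rw [q0, q1, q2, q3, q4, q5, q6, q7, q8, q9, q10, q11, q12, q13, q14, h]
  rfl

theorem pat_10 (g : V → V → V → ℕ) (hg : Symm3 g) (a b c d e f : V)
    (h : patB (g c d f) (g d e f) (g c e f) (g c d e) (g a d f) (g a c f) (g a c d) (g a e f) (g a d e) (g a c e) (g b d f) (g b c f) (g b c d) (g b e f) (g b d e) (g b c e) (g a b f) (g a b d) (g a b c) (g a b e) = true) :
    1 ≤ J g ![a, b, c, d, e, f] := by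
  refine J_ge g _ ![5, 3, 2, 4, 0, 1] (by decide) ?_
  show cond (patB (g f d c) (g f d e) (g f c e) (g d c e) (g f d a) (g f c a) (g d c a) (g f e a) (g d e a) (g c e a) (g f d b) (g f c b) (g d c b) (g f e b) (g d e b) (g c e b) (g f a b) (g d a b) (g c a b) (g e a b)) 1 0 = 1
  have q0 : g f d c = g c d f := (hg.s12 d f c).trans ((hg.s23 d c f).trans (hg.s12 c d f))
  have q1 : g f d e = g d e f := (hg.s12 d f e).trans (hg.s23 d e f)
  have q2 : g f c e = g c e f := (hg.s12 c f e).trans (hg.s23 c e f)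
  have q3 : g d c e = g c d e := hg.s12 c d e
  have q4 : g f d a = g a d f := (hg.s12 d f a).trans ((hg.s23 d a f).trans (hg.s12 a d f))
  have q5 : g f c a = g a c f := (hg.s12 c f a).trans ((hg.s23 c a f).trans (hg.s12 a c f))
  have q6 : g d c a = g a c d := (hg.s12 c d a).trans ((hg.s23 c a d).trans (hg.s12 a c d))
  have q7 : g f e a = g a e f := (hg.s12 e f a).trans ((hg.s23 e a f).trans (hg.s12 a e f))
  have q8 : g d e a = g a d e := (hg.s23 d a e).trans (hg.s12 a d e)
  have q9 : g c e a = g a c e := (hg.s23 c a e).trans (hg.s12 a c e)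
  have q10 : g f d b = g b d f := (hg.s12 d f b).trans ((hg.s23 d b f).trans (hg.s12 b d f))
  have q11 : g f c b = g b c f := (hg.s12 c f b).trans ((hg.s23 c b f).trans (hg.s12 b c f))
  have q12 : g d c b = g b c d := (hg.s12 c d b).trans ((hg.s23 c b d).trans (hg.s12 b c d))
  have q13 : g f e b = g b e f := (hg.s12 e f b).trans ((hg.s23 e b f).trans (hg.s12 b e f))
  have q14 : g d e b = g b d e := (hg.s23 d b e).trans (hg.s12 b d e)
  have q15 : g c e b = g b c e := (hg.s23 c b e).trans (hg.s12 b c e)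
  have q16 : g f a b = g a b f := (hg.s12 a f b).trans (hg.s23 a b f)
  have q17 : g d a b = g a b d := (hg.s12 a d b).trans (hg.s23 a b d)
  have q18 : g c a b = g a b c := (hg.s12 a c b).trans (hg.s23 a b c)
  have q19 : g e a b = g a b e := (hg.s12 a e b).trans (hg.s23 a b e)
  rw [q0, q1, q2, q3, q4, q5, q6, q7, q8, q9, q10, q11, q12, q13, q14, q15, q16, q17, q18, q19, h]
  rfl

theorem pat_11 (g : V → V → V → ℕ) (hg : Symm3 g) (a b c d e f : V)
    (h : patB (g c e f) (g d e f) (g c d f) (g c d e) (g a e f) (g a c f) (g a c e) (g a d f) (g a d e) (g a c d) (g b e f) (g b c f) (g b c e) (g b d f) (g b d e) (g b c d) (g a b f) (g a b e) (g a b c) (g a b d) = true) :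
    1 ≤ J g ![a, b, c, d, e, f] := by
  refine J_ge g _ ![5, 4, 2, 3, 0, 1] (by decide) ?_
  show cond (patB (g f e c) (g f e d) (g f c d) (g e c d) (g f e a) (g f c a) (g e c a) (g f d a) (g e d a) (g c d a) (g f e b) (g f c b) (g e c b) (g f d b) (g e d b) (g c d b) (g f a b) (g e a b) (g c a b) (g d a b)) 1 0 = 1
  have q0 : g f e c = g c e f := (hg.s12 e f c).trans ((hg.s23 e c f).trans (hg.s12 c e f))
  have q1 : g f e d = g d e f := (hg.s12 e f d).trans ((hg.s23 e d f).trans (hg.s12 d e f))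
  have q2 : g f c d = g c d f := (hg.s12 c f d).trans (hg.s23 c d f)
  have q3 : g e c d = g c d e := (hg.s12 c e d).trans (hg.s23 c d e)
  have q4 : g f e a = g a e f := (hg.s12 e f a).trans ((hg.s23 e a f).trans (hg.s12 a e f))
  have q5 : g f c a = g a c f := (hg.s12 c f a).trans ((hg.s23 c a f).trans (hg.s12 a c f))
  have q6 : g e c a = g a c e := (hg.s12 c e a).trans ((hg.s23 c a e).trans (hg.s12 a c e))
  have q7 : g f d a = g a d f := (hg.s12 d f a).trans ((hg.s23 d a f).trans (hg.s12 a d f))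
  have q8 : g e d a = g a d e := (hg.s12 d e a).trans ((hg.s23 d a e).trans (hg.s12 a d e))
  have q9 : g c d a = g a c d := (hg.s23 c a d).trans (hg.s12 a c d)
  have q10 : g f e b = g b e f := (hg.s12 e f b).trans ((hg.s23 e b f).trans (hg.s12 b e f))
  have q11 : g f c b = g b c f := (hg.s12 c f b).trans ((hg.s23 c b f).trans (hg.s12 b c f))
  have q12 : g e c b = g b c e := (hg.s12 c e b).trans ((hg.s23 c b e).trans (hg.s12 b c e))
  have q13 : g f d b = g b d f := (hg.s12 d f b).trans ((hg.s23 d b f).trans (hg.s12 b d f))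
  have q14 : g e d b = g b d e := (hg.s12 d e b).trans ((hg.s23 d b e).trans (hg.s12 b d e))
  have q15 : g c d b = g b c d := (hg.s23 c b d).trans (hg.s12 b c d)
  have q16 : g f a b = g a b f := (hg.s12 a f b).trans (hg.s23 a b f)
  have q17 : g e a b = g a b e := (hg.s12 a e b).trans (hg.s23 a b e)
  have q18 : g c a b = g a b c := (hg.s12 a c b).trans (hg.s23 a b c)
  have q19 : g d a b = g a b d := (hg.s12 a d b).trans (hg.s23 a b d)
  rw [q0, q1, q2, q3, q4, q5, q6, q7, q8, q9, q10, q11, q12, q13, q14, q15, q16, q17, q18, q19, h]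
  rfl

theorem pat_12 (g : V → V → V → ℕ) (hg : Symm3 g) (a b c d e f : V)
    (h : patB (g a b c) (g a c f) (g a b f) (g b c f) (g a c d) (g a b d) (g b c d) (g a d f) (g c d f) (g b d f) (g a c e) (g a b e) (g b c e) (g a e f) (g c e f) (g b e f) (g a d e) (g c d e) (g b d e) (g d e f) = true) :
    1 ≤ J g ![a, b, c, d, e, f] := by
  refine J_ge g _ ![0, 2, 1, 5, 3, 4] (by decide) ?_
  show cond (patB (g a c b) (g a c f) (g a b f) (g c b f) (g a c d) (g a b d) (g c b d) (g a f d) (g c f d) (g b f d) (g a c e) (g a b e) (g c b e) (g a f e) (g c f e) (g b f e) (g a d e) (g c d e) (g b d e) (g f d e)) 1 0 = 1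
  have q0 : g a c b = g a b c := hg.s23 a b c
  have q1 : g c b f = g b c f := hg.s12 b c f
  have q2 : g c b d = g b c d := hg.s12 b c d
  have q3 : g a f d = g a d f := hg.s23 a d f
  have q4 : g c f d = g c d f := hg.s23 c d f
  have q5 : g b f d = g b d f := hg.s23 b d f
  have q6 : g c b e = g b c e := hg.s12 b c e
  have q7 : g a f e = g a e f := hg.s23 a e f
  have q8 : g c f e = g c e f := hg.s23 c e f
  have q9 : g b f e = g b e f := hg.s23 b e f
  have q10 : g f d e = g d e f := (hg.s12 d f e).trans (hg.s23 d e f)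
  rw [q0, q1, q2, q3, q4, q5, q6, q7, q8, q9, q10, h]
  rfl

theorem pat_13 (g : V → V → V → ℕ) (hg : Symm3 g) (a b c d e f : V)
    (h : patB (g a c e) (g a c d) (g a d e) (g c d e) (g a b c) (g a b e) (g b c e) (g a b d) (g b c d) (g b d e) (g a c f) (g a e f) (g c e f) (g a d f) (g c d f) (g d e f) (g a b f) (g b c f) (g b e f) (g b d f) = true) :
    1 ≤ J g ![a, b, c, d, e, f] := by
  refine J_ge g _ ![0, 2, 4, 3, 1, 5] (by decide) ?_
  show cond (patB (g a c e) (g a c d) (g a e d) (g c e d) (g a c b) (g a e b) (g c e b) (g a d b) (g c d b) (g e d b) (g a c f) (g a e f) (g c e f) (g a d f) (g c d f) (g e d f) (g a b f) (g c b f) (g e b f) (g d b f)) 1 0 = 1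
  have q0 : g a e d = g a d e := hg.s23 a d e
  have q1 : g c e d = g c d e := hg.s23 c d e
  have q2 : g a c b = g a b c := hg.s23 a b c
  have q3 : g a e b = g a b e := hg.s23 a b e
  have q4 : g c e b = g b c e := (hg.s23 c b e).trans (hg.s12 b c e)
  have q5 : g a d b = g a b d := hg.s23 a b d
  have q6 : g c d b = g b c d := (hg.s23 c b d).trans (hg.s12 b c d)
  have q7 : g e d b = g b d e := (hg.s12 d e b).trans ((hg.s23 d b e).trans (hg.s12 b d e))
  have q8 : g e d f = g d e f := hg.s12 d e f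
  have q9 : g c b f = g b c f := hg.s12 b c f
  have q10 : g e b f = g b e f := hg.s12 b e f
  have q11 : g d b f = g b d f := hg.s12 b d f
  rw [q0, q1, q2, q3, q4, q5, q6, q7, q8, q9, q10, q11, h]
  rfl

theorem pat_14 (g : V → V → V → ℕ) (hg : Symm3 g) (a b c d e f : V)
    (h : patB (g a b f) (g a c f) (g a b c) (g b c f) (g a d f) (g a b d) (g b d f) (g a c d) (g c d f) (g b c d) (g a e f) (g a b e) (g b e f) (g a c e) (g c e f) (g b c e) (g a d e) (g d e f) (g b d e) (g c d e) = true) :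
    1 ≤ J g ![a, b, c, d, e, f] := by
  refine J_ge g _ ![0, 5, 1, 2, 3, 4] (by decide) ?_
  show cond (patB (g a f b) (g a f c) (g a b c) (g f b c) (g a f d) (g a b d) (g f b d) (g a c d) (g f c d) (g b c d) (g a f e) (g a b e) (g f b e) (g a c e) (g f c e) (g b c e) (g a d e) (g f d e) (g b d e) (g c d e)) 1 0 = 1
  have q0 : g a f b = g a b f := hg.s23 a b f
  have q1 : g a f c = g a c f := hg.s23 a c f
  have q2 : g f b c = g b c f := (hg.s12 b f c).trans (hg.s23 b c f)
  have q3 : g a f d = g a d f := hg.s23 a d f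
  have q4 : g f b d = g b d f := (hg.s12 b f d).trans (hg.s23 b d f)
  have q5 : g f c d = g c d f := (hg.s12 c f d).trans (hg.s23 c d f)
  have q6 : g a f e = g a e f := hg.s23 a e f
  have q7 : g f b e = g b e f := (hg.s12 b f e).trans (hg.s23 b e f)
  have q8 : g f c e = g c e f := (hg.s12 c f e).trans (hg.s23 c e f)
  have q9 : g f d e = g d e f := (hg.s12 d f e).trans (hg.s23 d e f)
  rw [q0, q1, q2, q3, q4, q5, q6, q7, q8, q9, h]
  rfl

theorem pat_15 (g : V → V → V → ℕ) (hg : Symm3 g) (a b c d e f : V)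
    (h : patB (g a b c) (g b c f) (g a b f) (g a c f) (g b c d) (g a b d) (g a c d) (g b d f) (g c d f) (g a d f) (g b c e) (g a b e) (g a c e) (g b e f) (g c e f) (g a e f) (g b d e) (g c d e) (g a d e) (g d e f) = true) :
    1 ≤ J g ![a, b, c, d, e, f] := by
  refine J_ge g _ ![1, 2, 0, 5, 3, 4] (by decide) ?_
  show cond (patB (g b c a) (g b c f) (g b a f) (g c a f) (g b c d) (g b a d) (g c a d) (g b f d) (g c f d) (g a f d) (g b c e) (g b a e) (g c a e) (g b f e) (g c f e) (g a f e) (g b d e) (g c d e) (g a d e) (g f d e)) 1 0 = 1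
  have q0 : g b c a = g a b c := (hg.s23 b a c).trans (hg.s12 a b c)
  have q1 : g b a f = g a b f := hg.s12 a b f
  have q2 : g c a f = g a c f := hg.s12 a c f
  have q3 : g b a d = g a b d := hg.s12 a b d
  have q4 : g c a d = g a c d := hg.s12 a c d
  have q5 : g b f d = g b d f := hg.s23 b d f
  have q6 : g c f d = g c d f := hg.s23 c d f
  have q7 : g a f d = g a d f := hg.s23 a d f
  have q8 : g b a e = g a b e := hg.s12 a b e
  have q9 : g c a e = g a c e := hg.s12 a c e
  have q10 : g b f e = g b e f := hg.s23 b e f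
  have q11 : g c f e = g c e f := hg.s23 c e f
  have q12 : g a f e = g a e f := hg.s23 a e f
  have q13 : g f d e = g d e f := (hg.s12 d f e).trans (hg.s23 d e f)
  rw [q0, q1, q2, q3, q4, q5, q6, q7, q8, q9, q10, q11, q12, q13, h]
  rfl

theorem pat_16 (g : V → V → V → ℕ) (hg : Symm3 g) (a b c d e f : V)
    (h : patB (g b c e) (g b c d) (g b d e) (g c d e) (g a b c) (g a b e) (g a c e) (g a b d) (g a c d) (g a d e) (g b c f) (g b e f) (g c e f) (g b d f) (g c d f) (g d e f) (g a b f) (g a c f) (g a e f) (g a d f) = true) :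
    1 ≤ J g ![a, b, c, d, e, f] := by
  refine J_ge g _ ![1, 2, 4, 3, 0, 5] (by decide) ?_
  show cond (patB (g b c e) (g b c d) (g b e d) (g c e d) (g b c a) (g b e a) (g c e a) (g b d a) (g c d a) (g e d a) (g b c f) (g b e f) (g c e f) (g b d f) (g c d f) (g e d f) (g b a f) (g c a f) (g e a f) (g d a f)) 1 0 = 1
  have q0 : g b e d = g b d e := hg.s23 b d e
  have q1 : g c e d = g c d e := hg.s23 c d e
  have q2 : g b c a = g a b c := (hg.s23 b a c).trans (hg.s12 a b c)
  have q3 : g b e a = g a b e := (hg.s23 b a e).trans (hg.s12 a b e)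
  have q4 : g c e a = g a c e := (hg.s23 c a e).trans (hg.s12 a c e)
  have q5 : g b d a = g a b d := (hg.s23 b a d).trans (hg.s12 a b d)
  have q6 : g c d a = g a c d := (hg.s23 c a d).trans (hg.s12 a c d)
  have q7 : g e d a = g a d e := (hg.s12 d e a).trans ((hg.s23 d a e).trans (hg.s12 a d e))
  have q8 : g e d f = g d e f := hg.s12 d e f
  have q9 : g b a f = g a b f := hg.s12 a b f
  have q10 : g c a f = g a c f := hg.s12 a c f
  have q11 : g e a f = g a e f := hg.s12 a e f
  have q12 : g d a f = g a d f := hg.s12 a d f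
  rw [q0, q1, q2, q3, q4, q5, q6, q7, q8, q9, q10, q11, q12, h]
  rfl

theorem pat_17 (g : V → V → V → ℕ) (hg : Symm3 g) (a b c d e f : V)
    (h : patB (g a b f) (g b e f) (g a b e) (g a e f) (g b c f) (g a b c) (g a c f) (g b c e) (g c e f) (g a c e) (g b d f) (g a b d) (g a d f) (g b d e) (g d e f) (g a d e) (g b c d) (g c d f) (g a c d) (g c d e) = true) :
    1 ≤ J g ![a, b, c, d, e, f] := by
  refine J_ge g _ ![1, 5, 0, 4, 2, 3] (by decide) ?_
  show cond (patB (g b f a) (g b f e) (g b a e) (g f a e) (g b f c) (g b a c) (g f a c) (g b e c) (g f e c) (g a e c) (g b f d) (g b a d) (g f a d) (g b e d) (g f e d) (g a e d) (g b c d) (g f c d) (g a c d) (g e c d)) 1 0 = 1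
  have q0 : g b f a = g a b f := (hg.s23 b a f).trans (hg.s12 a b f)
  have q1 : g b f e = g b e f := hg.s23 b e f
  have q2 : g b a e = g a b e := hg.s12 a b e
  have q3 : g f a e = g a e f := (hg.s12 a f e).trans (hg.s23 a e f)
  have q4 : g b f c = g b c f := hg.s23 b c f
  have q5 : g b a c = g a b c := hg.s12 a b c
  have q6 : g f a c = g a c f := (hg.s12 a f c).trans (hg.s23 a c f)
  have q7 : g b e c = g b c e := hg.s23 b c e
  have q8 : g f e c = g c e f := (hg.s12 e f c).trans ((hg.s23 e c f).trans (hg.s12 c e f))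
  have q9 : g a e c = g a c e := hg.s23 a c e
  have q10 : g b f d = g b d f := hg.s23 b d f
  have q11 : g b a d = g a b d := hg.s12 a b d
  have q12 : g f a d = g a d f := (hg.s12 a f d).trans (hg.s23 a d f)
  have q13 : g b e d = g b d e := hg.s23 b d e
  have q14 : g f e d = g d e f := (hg.s12 e f d).trans ((hg.s23 e d f).trans (hg.s12 d e f))
  have q15 : g a e d = g a d e := hg.s23 a d e
  have q16 : g f c d = g c d f := (hg.s12 c f d).trans (hg.s23 c d f)
  have q17 : g e c d = g c d e := (hg.s12 c e d).trans (hg.s23 c d e)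
  rw [q0, q1, q2, q3, q4, q5, q6, q7, q8, q9, q10, q11, q12, q13, q14, q15, q16, q17, h]
  rfl

theorem pat_18 (g : V → V → V → ℕ) (hg : Symm3 g) (a b c d e f : V)
    (h : patB (g a c f) (g c e f) (g a c e) (g a e f) (g b c f) (g a b c) (g a b f) (g b c e) (g b e f) (g a b e) (g c d f) (g a c d) (g a d f) (g c d e) (g d e f) (g a d e) (g b c d) (g b d f) (g a b d) (g b d e) = true) :
    1 ≤ J g ![a, b, c, d, e, f] := by
  refine J_ge g _ ![2, 5, 0, 4, 1, 3] (by decide) ?_
  show cond (patB (g c f a) (g c f e) (g c a e) (g f a e) (g c f b) (g c a b) (g f a b) (g c e b) (g f e b) (g a e b) (g c f d) (g c a d) (g f a d) (g c e d) (g f e d) (g a e d) (g c b d) (g f b d) (g a b d) (g e b d)) 1 0 = 1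
  have q0 : g c f a = g a c f := (hg.s23 c a f).trans (hg.s12 a c f)
  have q1 : g c f e = g c e f := hg.s23 c e f
  have q2 : g c a e = g a c e := hg.s12 a c e
  have q3 : g f a e = g a e f := (hg.s12 a f e).trans (hg.s23 a e f)
  have q4 : g c f b = g b c f := (hg.s23 c b f).trans (hg.s12 b c f)
  have q5 : g c a b = g a b c := (hg.s12 a c b).trans (hg.s23 a b c)
  have q6 : g f a b = g a b f := (hg.s12 a f b).trans (hg.s23 a b f)
  have q7 : g c e b = g b c e := (hg.s23 c b e).trans (hg.s12 b c e)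
  have q8 : g f e b = g b e f := (hg.s12 e f b).trans ((hg.s23 e b f).trans (hg.s12 b e f))
  have q9 : g a e b = g a b e := hg.s23 a b e
  have q10 : g c f d = g c d f := hg.s23 c d f
  have q11 : g c a d = g a c d := hg.s12 a c d
  have q12 : g f a d = g a d f := (hg.s12 a f d).trans (hg.s23 a d f)
  have q13 : g c e d = g c d e := hg.s23 c d e
  have q14 : g f e d = g d e f := (hg.s12 e f d).trans ((hg.s23 e d f).trans (hg.s12 d e f))
  have q15 : g a e d = g a d e := hg.s23 a d e
  have q16 : g c b d = g b c d := hg.s12 b c d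
  have q17 : g f b d = g b d f := (hg.s12 b f d).trans (hg.s23 b d f)
  have q18 : g e b d = g b d e := (hg.s12 b e d).trans (hg.s23 b d e)
  rw [q0, q1, q2, q3, q4, q5, q6, q7, q8, q9, q10, q11, q12, q13, q14, q15, q16, q17, q18, h]
  rfl

theorem pat_19 (g : V → V → V → ℕ) (hg : Symm3 g) (a b c d e f : V)
    (h : patB (g a c d) (g a b d) (g b c d) (g a b c) (g a d e) (g c d e) (g a c e) (g b d e) (g a b e) (g b c e) (g a d f) (g c d f) (g a c f) (g b d f) (g a b f) (g b c f) (g d e f) (g a e f) (g c e f) (g b e f) = true) :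
    1 ≤ J g ![a, b, c, d, e, f] := by
  refine J_ge g _ ![3, 0, 2, 1, 4, 5] (by decide) ?_
  show cond (patB (g d a c) (g d a b) (g d c b) (g a c b) (g d a e) (g d c e) (g a c e) (g d b e) (g a b e) (g c b e) (g d a f) (g d c f) (g a c f) (g d b f) (g a b f) (g c b f) (g d e f) (g a e f) (g c e f) (g b e f)) 1 0 = 1
  have q0 : g d a c = g a c d := (hg.s12 a d c).trans (hg.s23 a c d)
  have q1 : g d a b = g a b d := (hg.s12 a d b).trans (hg.s23 a b d)
  have q2 : g d c b = g b c d := (hg.s12 c d b).trans ((hg.s23 c b d).trans (hg.s12 b c d))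
  have q3 : g a c b = g a b c := hg.s23 a b c
  have q4 : g d a e = g a d e := hg.s12 a d e
  have q5 : g d c e = g c d e := hg.s12 c d e
  have q6 : g d b e = g b d e := hg.s12 b d e
  have q7 : g c b e = g b c e := hg.s12 b c e
  have q8 : g d a f = g a d f := hg.s12 a d f
  have q9 : g d c f = g c d f := hg.s12 c d f
  have q10 : g d b f = g b d f := hg.s12 b d f
  have q11 : g c b f = g b c f := hg.s12 b c f
  rw [q0, q1, q2, q3, q4, q5, q6, q7, q8, q9, q10, q11, h]
  rfl

theorem pat_20 (g : V → V → V → ℕ) (hg : Symm3 g) (a b c d e f : V)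
    (h : patB (g a d e) (g a d f) (g d e f) (g a e f) (g a b d) (g b d e) (g a b e) (g b d f) (g a b f) (g b e f) (g a c d) (g c d e) (g a c e) (g c d f) (g a c f) (g c e f) (g b c d) (g a b c) (g b c e) (g b c f) = true) :
    1 ≤ J g ![a, b, c, d, e, f] := by
  refine J_ge g _ ![3, 0, 4, 5, 1, 2] (by decide) ?_
  show cond (patB (g d a e) (g d a f) (g d e f) (g a e f) (g d a b) (g d e b) (g a e b) (g d f b) (g a f b) (g e f b) (g d a c) (g d e c) (g a e c) (g d f c) (g a f c) (g e f c) (g d b c) (g a b c) (g e b c) (g f b c)) 1 0 = 1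
  have q0 : g d a e = g a d e := hg.s12 a d e
  have q1 : g d a f = g a d f := hg.s12 a d f
  have q2 : g d a b = g a b d := (hg.s12 a d b).trans (hg.s23 a b d)
  have q3 : g d e b = g b d e := (hg.s23 d b e).trans (hg.s12 b d e)
  have q4 : g a e b = g a b e := hg.s23 a b e
  have q5 : g d f b = g b d f := (hg.s23 d b f).trans (hg.s12 b d f)
  have q6 : g a f b = g a b f := hg.s23 a b f
  have q7 : g e f b = g b e f := (hg.s23 e b f).trans (hg.s12 b e f)
  have q8 : g d a c = g a c d := (hg.s12 a d c).trans (hg.s23 a c d)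
  have q9 : g d e c = g c d e := (hg.s23 d c e).trans (hg.s12 c d e)
  have q10 : g a e c = g a c e := hg.s23 a c e
  have q11 : g d f c = g c d f := (hg.s23 d c f).trans (hg.s12 c d f)
  have q12 : g a f c = g a c f := hg.s23 a c f
  have q13 : g e f c = g c e f := (hg.s23 e c f).trans (hg.s12 c e f)
  have q14 : g d b c = g b c d := (hg.s12 b d c).trans (hg.s23 b c d)
  have q15 : g e b c = g b c e := (hg.s12 b e c).trans (hg.s23 b c e)
  have q16 : g f b c = g b c f := (hg.s12 b f c).trans (hg.s23 b c f)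
  rw [q0, q1, q2, q3, q4, q5, q6, q7, q8, q9, q10, q11, q12, q13, q14, q15, q16, h]
  rfl

theorem pat_21 (g : V → V → V → ℕ) (hg : Symm3 g) (a b c d e f : V)
    (h : patB (g b d f) (g c d f) (g b c d) (g b c f) (g a d f) (g a b d) (g a b f) (g a c d) (g a c f) (g a b c) (g d e f) (g b d e) (g b e f) (g c d e) (g c e f) (g b c e) (g a d e) (g a e f) (g a b e) (g a c e) = true) :
    1 ≤ J g ![a, b, c, d, e, f] := by
  refine J_ge g _ ![3, 5, 1, 2, 0, 4] (by decide) ?_
  show cond (patB (g d f b) (g d f c) (g d b c) (g f b c) (g d f a) (g d b a) (g f b a) (g d c a) (g f c a) (g b c a) (g d f e) (g d b e) (g f b e) (g d c e) (g f c e) (g b c e) (g d a e) (g f a e) (g b a e) (g c a e)) 1 0 = 1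
  have q0 : g d f b = g b d f := (hg.s23 d b f).trans (hg.s12 b d f)
  have q1 : g d f c = g c d f := (hg.s23 d c f).trans (hg.s12 c d f)
  have q2 : g d b c = g b c d := (hg.s12 b d c).trans (hg.s23 b c d)
  have q3 : g f b c = g b c f := (hg.s12 b f c).trans (hg.s23 b c f)
  have q4 : g d f a = g a d f := (hg.s23 d a f).trans (hg.s12 a d f)
  have q5 : g d b a = g a b d := (hg.s12 b d a).trans ((hg.s23 b a d).trans (hg.s12 a b d))
  have q6 : g f b a = g a b f := (hg.s12 b f a).trans ((hg.s23 b a f).trans (hg.s12 a b f))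
  have q7 : g d c a = g a c d := (hg.s12 c d a).trans ((hg.s23 c a d).trans (hg.s12 a c d))
  have q8 : g f c a = g a c f := (hg.s12 c f a).trans ((hg.s23 c a f).trans (hg.s12 a c f))
  have q9 : g b c a = g a b c := (hg.s23 b a c).trans (hg.s12 a b c)
  have q10 : g d f e = g d e f := hg.s23 d e f
  have q11 : g d b e = g b d e := hg.s12 b d e
  have q12 : g f b e = g b e f := (hg.s12 b f e).trans (hg.s23 b e f)
  have q13 : g d c e = g c d e := hg.s12 c d e
  have q14 : g f c e = g c e f := (hg.s12 c f e).trans (hg.s23 c e f)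
  have q15 : g d a e = g a d e := hg.s12 a d e
  have q16 : g f a e = g a e f := (hg.s12 a f e).trans (hg.s23 a e f)
  have q17 : g b a e = g a b e := hg.s12 a b e
  have q18 : g c a e = g a c e := hg.s12 a c e
  rw [q0, q1, q2, q3, q4, q5, q6, q7, q8, q9, q10, q11, q12, q13, q14, q15, q16, q17, q18, h]
  rfl

theorem pat_22 (g : V → V → V → ℕ) (hg : Symm3 g) (a b c d e f : V)
    (h : patB (g a c e) (g a b e) (g b c e) (g a b c) (g a d e) (g c d e) (g a c d) (g b d e) (g a b d) (g b c d) (g a e f) (g c e f) (g a c f) (g b e f) (g a b f) (g b c f) (g d e f) (g a d f) (g c d f) (g b d f) = true) :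
    1 ≤ J g ![a, b, c, d, e, f] := by
  refine J_ge g _ ![4, 0, 2, 1, 3, 5] (by decide) ?_
  show cond (patB (g e a c) (g e a b) (g e c b) (g a c b) (g e a d) (g e c d) (g a c d) (g e b d) (g a b d) (g c b d) (g e a f) (g e c f) (g a c f) (g e b f) (g a b f) (g c b f) (g e d f) (g a d f) (g c d f) (g b d f)) 1 0 = 1
  have q0 : g e a c = g a c e := (hg.s12 a e c).trans (hg.s23 a c e)
  have q1 : g e a b = g a b e := (hg.s12 a e b).trans (hg.s23 a b e)
  have q2 : g e c b = g b c e := (hg.s12 c e b).trans ((hg.s23 c b e).trans (hg.s12 b c e))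
  have q3 : g a c b = g a b c := hg.s23 a b c
  have q4 : g e a d = g a d e := (hg.s12 a e d).trans (hg.s23 a d e)
  have q5 : g e c d = g c d e := (hg.s12 c e d).trans (hg.s23 c d e)
  have q6 : g e b d = g b d e := (hg.s12 b e d).trans (hg.s23 b d e)
  have q7 : g c b d = g b c d := hg.s12 b c d
  have q8 : g e a f = g a e f := hg.s12 a e f
  have q9 : g e c f = g c e f := hg.s12 c e f
  have q10 : g e b f = g b e f := hg.s12 b e f
  have q11 : g c b f = g b c f := hg.s12 b c f
  have q12 : g e d f = g d e f := hg.s12 d e f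
  rw [q0, q1, q2, q3, q4, q5, q6, q7, q8, q9, q10, q11, q12, h]
  rfl

theorem pat_23 (g : V → V → V → ℕ) (hg : Symm3 g) (a b c d e f : V)
    (h : patB (g a d e) (g a e f) (g d e f) (g a d f) (g a b e) (g b d e) (g a b d) (g b e f) (g a b f) (g b d f) (g a c e) (g c d e) (g a c d) (g c e f) (g a c f) (g c d f) (g b c e) (g a b c) (g b c d) (g b c f) = true) :
    1 ≤ J g ![a, b, c, d, e, f] := by
  refine J_ge g _ ![4, 0, 3, 5, 1, 2] (by decide) ?_
  show cond (patB (g e a d) (g e a f) (g e d f) (g a d f) (g e a b) (g e d b) (g a d b) (g e f b) (g a f b) (g d f b) (g e a c) (g e d c) (g a d c) (g e f c) (g a f c) (g d f c) (g e b c) (g a b c) (g d b c) (g f b c)) 1 0 = 1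
  have q0 : g e a d = g a d e := (hg.s12 a e d).trans (hg.s23 a d e)
  have q1 : g e a f = g a e f := hg.s12 a e f
  have q2 : g e d f = g d e f := hg.s12 d e f
  have q3 : g e a b = g a b e := (hg.s12 a e b).trans (hg.s23 a b e)
  have q4 : g e d b = g b d e := (hg.s12 d e b).trans ((hg.s23 d b e).trans (hg.s12 b d e))
  have q5 : g a d b = g a b d := hg.s23 a b d
  have q6 : g e f b = g b e f := (hg.s23 e b f).trans (hg.s12 b e f)
  have q7 : g a f b = g a b f := hg.s23 a b f
  have q8 : g d f b = g b d f := (hg.s23 d b f).trans (hg.s12 b d f)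
  have q9 : g e a c = g a c e := (hg.s12 a e c).trans (hg.s23 a c e)
  have q10 : g e d c = g c d e := (hg.s12 d e c).trans ((hg.s23 d c e).trans (hg.s12 c d e))
  have q11 : g a d c = g a c d := hg.s23 a c d
  have q12 : g e f c = g c e f := (hg.s23 e c f).trans (hg.s12 c e f)
  have q13 : g a f c = g a c f := hg.s23 a c f
  have q14 : g d f c = g c d f := (hg.s23 d c f).trans (hg.s12 c d f)
  have q15 : g e b c = g b c e := (hg.s12 b e c).trans (hg.s23 b c e)
  have q16 : g d b c = g b c d := (hg.s12 b d c).trans (hg.s23 b c d)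
  have q17 : g f b c = g b c f := (hg.s12 b f c).trans (hg.s23 b c f)
  rw [q0, q1, q2, q3, q4, q5, q6, q7, q8, q9, q10, q11, q12, q13, q14, q15, q16, q17, h]
  rfl

theorem pat_24 (g : V → V → V → ℕ) (hg : Symm3 g) (a b c d e f : V)
    (h : patB (g d e f) (g a e f) (g a d e) (g a d f) (g b e f) (g b d e) (g b d f) (g a b e) (g a b f) (g a b d) (g c e f) (g c d e) (g c d f) (g a c e) (g a c f) (g a c d) (g b c e) (g b c f) (g b c d) (g a b c) = true) :
    1 ≤ J g ![a, b, c, d, e, f] := by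
  refine J_ge g _ ![4, 5, 3, 0, 1, 2] (by decide) ?_
  show cond (patB (g e f d) (g e f a) (g e d a) (g f d a) (g e f b) (g e d b) (g f d b) (g e a b) (g f a b) (g d a b) (g e f c) (g e d c) (g f d c) (g e a c) (g f a c) (g d a c) (g e b c) (g f b c) (g d b c) (g a b c)) 1 0 = 1
  have q0 : g e f d = g d e f := (hg.s23 e d f).trans (hg.s12 d e f)
  have q1 : g e f a = g a e f := (hg.s23 e a f).trans (hg.s12 a e f)
  have q2 : g e d a = g a d e := (hg.s12 d e a).trans ((hg.s23 d a e).trans (hg.s12 a d e))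
  have q3 : g f d a = g a d f := (hg.s12 d f a).trans ((hg.s23 d a f).trans (hg.s12 a d f))
  have q4 : g e f b = g b e f := (hg.s23 e b f).trans (hg.s12 b e f)
  have q5 : g e d b = g b d e := (hg.s12 d e b).trans ((hg.s23 d b e).trans (hg.s12 b d e))
  have q6 : g f d b = g b d f := (hg.s12 d f b).trans ((hg.s23 d b f).trans (hg.s12 b d f))
  have q7 : g e a b = g a b e := (hg.s12 a e b).trans (hg.s23 a b e)
  have q8 : g f a b = g a b f := (hg.s12 a f b).trans (hg.s23 a b f)
  have q9 : g d a b = g a b d := (hg.s12 a d b).trans (hg.s23 a b d)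
  have q10 : g e f c = g c e f := (hg.s23 e c f).trans (hg.s12 c e f)
  have q11 : g e d c = g c d e := (hg.s12 d e c).trans ((hg.s23 d c e).trans (hg.s12 c d e))
  have q12 : g f d c = g c d f := (hg.s12 d f c).trans ((hg.s23 d c f).trans (hg.s12 c d f))
  have q13 : g e a c = g a c e := (hg.s12 a e c).trans (hg.s23 a c e)
  have q14 : g f a c = g a c f := (hg.s12 a f c).trans (hg.s23 a c f)
  have q15 : g d a c = g a c d := (hg.s12 a d c).trans (hg.s23 a c d)
  have q16 : g e b c = g b c e := (hg.s12 b e c).trans (hg.s23 b c e)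
  have q17 : g f b c = g b c f := (hg.s12 b f c).trans (hg.s23 b c f)
  have q18 : g d b c = g b c d := (hg.s12 b d c).trans (hg.s23 b c d)
  rw [q0, q1, q2, q3, q4, q5, q6, q7, q8, q9, q10, q11, q12, q13, q14, q15, q16, q17, q18, h]
  rfl

theorem pat_25 (g : V → V → V → ℕ) (hg : Symm3 g) (a b c d e f : V)
    (h : patB (g a b f) (g a c f) (g b c f) (g a b c) (g a d f) (g b d f) (g a b d) (g c d f) (g a c d) (g b c d) (g a e f) (g b e f) (g a b e) (g c e f) (g a c e) (g b c e) (g d e f) (g a d e) (g b d e) (g c d e) = true) :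
    1 ≤ J g ![a, b, c, d, e, f] := by
  refine J_ge g _ ![5, 0, 1, 2, 3, 4] (by decide) ?_
  show cond (patB (g f a b) (g f a c) (g f b c) (g a b c) (g f a d) (g f b d) (g a b d) (g f c d) (g a c d) (g b c d) (g f a e) (g f b e) (g a b e) (g f c e) (g a c e) (g b c e) (g f d e) (g a d e) (g b d e) (g c d e)) 1 0 = 1
  have q0 : g f a b = g a b f := (hg.s12 a f b).trans (hg.s23 a b f)
  have q1 : g f a c = g a c f := (hg.s12 a f c).trans (hg.s23 a c f)
  have q2 : g f b c = g b c f := (hg.s12 b f c).trans (hg.s23 b c f)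
  have q3 : g f a d = g a d f := (hg.s12 a f d).trans (hg.s23 a d f)
  have q4 : g f b d = g b d f := (hg.s12 b f d).trans (hg.s23 b d f)
  have q5 : g f c d = g c d f := (hg.s12 c f d).trans (hg.s23 c d f)
  have q6 : g f a e = g a e f := (hg.s12 a f e).trans (hg.s23 a e f)
  have q7 : g f b e = g b e f := (hg.s12 b f e).trans (hg.s23 b e f)
  have q8 : g f c e = g c e f := (hg.s12 c f e).trans (hg.s23 c e f)
  have q9 : g f d e = g d e f := (hg.s12 d f e).trans (hg.s23 d e f)
  rw [q0, q1, q2, q3, q4, q5, q6, q7, q8, q9, h]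
  rfl

theorem pat_26 (g : V → V → V → ℕ) (hg : Symm3 g) (a b c d e f : V)
    (h : patB (g c d f) (g c e f) (g d e f) (g c d e) (g a c f) (g a d f) (g a c d) (g a e f) (g a c e) (g a d e) (g b c f) (g b d f) (g b c d) (g b e f) (g b c e) (g b d e) (g a b f) (g a b c) (g a b d) (g a b e) = true) :
    1 ≤ J g ![a, b, c, d, e, f] := by
  refine J_ge g _ ![5, 2, 3, 4, 0, 1] (by decide) ?_
  show cond (patB (g f c d) (g f c e) (g f d e) (g c d e) (g f c a) (g f d a) (g c d a) (g f e a) (g c e a) (g d e a) (g f c b) (g f d b) (g c d b) (g f e b) (g c e b) (g d e b) (g f a b) (g c a b) (g d a b) (g e a b)) 1 0 = 1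
  have q0 : g f c d = g c d f := (hg.s12 c f d).trans (hg.s23 c d f)
  have q1 : g f c e = g c e f := (hg.s12 c f e).trans (hg.s23 c e f)
  have q2 : g f d e = g d e f := (hg.s12 d f e).trans (hg.s23 d e f)
  have q3 : g f c a = g a c f := (hg.s12 c f a).trans ((hg.s23 c a f).trans (hg.s12 a c f))
  have q4 : g f d a = g a d f := (hg.s12 d f a).trans ((hg.s23 d a f).trans (hg.s12 a d f))
  have q5 : g c d a = g a c d := (hg.s23 c a d).trans (hg.s12 a c d)
  have q6 : g f e a = g a e f := (hg.s12 e f a).trans ((hg.s23 e a f).trans (hg.s12 a e f))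
  have q7 : g c e a = g a c e := (hg.s23 c a e).trans (hg.s12 a c e)
  have q8 : g d e a = g a d e := (hg.s23 d a e).trans (hg.s12 a d e)
  have q9 : g f c b = g b c f := (hg.s12 c f b).trans ((hg.s23 c b f).trans (hg.s12 b c f))
  have q10 : g f d b = g b d f := (hg.s12 d f b).trans ((hg.s23 d b f).trans (hg.s12 b d f))
  have q11 : g c d b = g b c d := (hg.s23 c b d).trans (hg.s12 b c d)
  have q12 : g f e b = g b e f := (hg.s12 e f b).trans ((hg.s23 e b f).trans (hg.s12 b e f))
  have q13 : g c e b = g b c e := (hg.s23 c b e).trans (hg.s12 b c e)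
  have q14 : g d e b = g b d e := (hg.s23 d b e).trans (hg.s12 b d e)
  have q15 : g f a b = g a b f := (hg.s12 a f b).trans (hg.s23 a b f)
  have q16 : g c a b = g a b c := (hg.s12 a c b).trans (hg.s23 a b c)
  have q17 : g d a b = g a b d := (hg.s12 a d b).trans (hg.s23 a b d)
  have q18 : g e a b = g a b e := (hg.s12 a e b).trans (hg.s23 a b e)
  rw [q0, q1, q2, q3, q4, q5, q6, q7, q8, q9, q10, q11, q12, q13, q14, q15, q16, q17, q18, h]
  rfl

theorem patAny_sound (g : V → V → V → ℕ) (hg : Symm3 g) (a b c d e f : V)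
    (h : patAny (g a b c) (g a b d) (g a c d) (g b c d) (g a b e) (g a c e) (g b c e) (g a d e) (g b d e) (g c d e) (g a b f) (g a c f) (g b c f) (g a d f) (g b d f) (g c d f) (g a e f) (g b e f) (g c e f) (g d e f) = true) : 1 ≤ J g ![a, b, c, d, e, f] := by
  unfold patAny at h
  rw [Bool.or_eq_true] at h
  rcases h with h | h
  · exact pat_0 g hg a b c d e f h
  rw [Bool.or_eq_true] at h
  rcases h with h | h
  · exact pat_1 g hg a b c d e f h
  rw [Bool.or_eq_true] at h
  rcases h with h | h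
  · exact pat_2 g hg a b c d e f h
  rw [Bool.or_eq_true] at h
  rcases h with h | h
  · exact pat_3 g hg a b c d e f h
  rw [Bool.or_eq_true] at h
  rcases h with h | h
  · exact pat_4 g hg a b c d e f h
  rw [Bool.or_eq_true] at h
  rcases h with h | h
  · exact pat_5 g hg a b c d e f h
  rw [Bool.or_eq_true] at h
  rcases h with h | h
  · exact pat_6 g hg a b c d e f h
  rw [Bool.or_eq_true] at h
  rcases h with h | h
  · exact pat_7 g hg a b c d e f h
  rw [Bool.or_eq_true] at h
  rcases h with h | h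
  · exact pat_8 g hg a b c d e f h
  rw [Bool.or_eq_true] at h
  rcases h with h | h
  · exact pat_9 g hg a b c d e f h
  rw [Bool.or_eq_true] at h
  rcases h with h | h
  · exact pat_10 g hg a b c d e f h
  rw [Bool.or_eq_true] at h
  rcases h with h | h
  · exact pat_11 g hg a b c d e f h
  rw [Bool.or_eq_true] at h
  rcases h with h | h
  · exact pat_12 g hg a b c d e f h
  rw [Bool.or_eq_true] at h
  rcases h with h | h
  · exact pat_13 g hg a b c d e f h
  rw [Bool.or_eq_true] at h
  rcases h with h | h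
  · exact pat_14 g hg a b c d e f h
  rw [Bool.or_eq_true] at h
  rcases h with h | h
  · exact pat_15 g hg a b c d e f h
  rw [Bool.or_eq_true] at h
  rcases h with h | h
  · exact pat_16 g hg a b c d e f h
  rw [Bool.or_eq_true] at h
  rcases h with h | h
  · exact pat_17 g hg a b c d e f h
  rw [Bool.or_eq_true] at h
  rcases h with h | h
  · exact pat_18 g hg a b c d e f h
  rw [Bool.or_eq_true] at h
  rcases h with h | h
  · exact pat_19 g hg a b c d e f h
  rw [Bool.or_eq_true] at h
  rcases h with h | h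
  · exact pat_20 g hg a b c d e f h
  rw [Bool.or_eq_true] at h
  rcases h with h | h
  · exact pat_21 g hg a b c d e f h
  rw [Bool.or_eq_true] at h
  rcases h with h | h
  · exact pat_22 g hg a b c d e f h
  rw [Bool.or_eq_true] at h
  rcases h with h | h
  · exact pat_23 g hg a b c d e f h
  rw [Bool.or_eq_true] at h
  rcases h with h | h
  · exact pat_24 g hg a b c d e f h
  rw [Bool.or_eq_true] at h
  rcases h with h | h
  · exact pat_25 g hg a b c d e f h
  exact pat_26 g hg a b c d e f h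

/-- the pointwise inequality -/
def Pt (g : V → V → V → ℕ) (a b c d e f : V) : Prop :=
  KS KN g a b c d e f + MS MN g a b c d e f + A1 * ES g a b c d e f
    ≤ C0 + CC * J g ![a, b, c, d, e, f]

theorem good_sound (g : V → V → V → ℕ) (hg : Symm3 g) (a b c d e f : V)
    (h : good (g a b c) (g a b d) (g a c d) (g b c d) (g a b e) (g a c e) (g b c e) (g a d e) (g b d e) (g c d e) (g a b f) (g a c f) (g b c f) (g a d f) (g b d f) (g c d f) (g a e f) (g b e f) (g c e f) (g d e f) = true) : Pt g a b c d e f := by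
  unfold Pt
  rw [KS_eq_KB KN g hg, MS_eq_MB MN g hg, ES_eq_EB g hg]
  unfold good at h
  rw [Bool.or_eq_true, Bool.and_eq_true] at h
  rcases h with h | ⟨h, h'⟩
  · have h1 := Nat.le_of_ble_eq_true h
    exact le_trans h1 (Nat.le_add_right _ _)
  · have h1 := Nat.le_of_ble_eq_true h
    have h2 := patAny_sound g hg a b c d e f h'
    have h3 : CC ≤ CC * J g ![a, b, c, d, e, f] := Nat.le_mul_of_pos_right _ h2
    exact le_trans h1 (Nat.add_le_add_left h3 _)

theorem Pt_swap0 (g : V → V → V → ℕ) (hb : ∀ a b c, g a b c = 0 ∨ g a b c = 1) (hg : Symm3 g)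
    (a b c d e f : V) (h : Pt g b a c d e f) : Pt g a b c d e f := by
  unfold Pt at h ⊢
  rw [KS_swap0 KN g (k01 g hb hg) (k12 g hb hg) (k23 g hb hg) (k45 g hb),
    MS_swap0 MN g (m01 g hb hg) (m23 g hb hg) (m45 g hb hg) (mpp g hb hg), ES_swap0 g hg] at h
  have hJ : J g ![b, a, c, d, e, f] = J g ![a, b, c, d, e, f] := by
    rw [← J_comp g (Equiv.swap 0 1) ![a, b, c, d, e, f]]
    congr 1
    funext i
    fin_cases i <;> rfl
  rw [hJ] at h
  exact h

theorem Pt_swap1 (g : V → V → V → ℕ) (hb : ∀ a b c, g a b c = 0 ∨ g a b c = 1) (hg : Symm3 g)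
    (a b c d e f : V) (h : Pt g a c b d e f) : Pt g a b c d e f := by
  unfold Pt at h ⊢
  rw [KS_swap1 KN g (k01 g hb hg) (k12 g hb hg) (k23 g hb hg) (k45 g hb),
    MS_swap1 MN g (m01 g hb hg) (m23 g hb hg) (m45 g hb hg) (mpp g hb hg), ES_swap1 g hg] at h
  have hJ : J g ![a, c, b, d, e, f] = J g ![a, b, c, d, e, f] := by
    rw [← J_comp g (Equiv.swap 1 2) ![a, b, c, d, e, f]]
    congr 1
    funext i
    fin_cases i <;> rfl
  rw [hJ] at h
  exact h

theorem Pt_swap2 (g : V → V → V → ℕ) (hb : ∀ a b c, g a b c = 0 ∨ g a b c = 1) (hg : Symm3 g)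
    (a b c d e f : V) (h : Pt g a b d c e f) : Pt g a b c d e f := by
  unfold Pt at h ⊢
  rw [KS_swap2 KN g (k01 g hb hg) (k12 g hb hg) (k23 g hb hg) (k45 g hb),
    MS_swap2 MN g (m01 g hb hg) (m23 g hb hg) (m45 g hb hg) (mpp g hb hg), ES_swap2 g hg] at h
  have hJ : J g ![a, b, d, c, e, f] = J g ![a, b, c, d, e, f] := by
    rw [← J_comp g (Equiv.swap 2 3) ![a, b, c, d, e, f]]
    congr 1
    funext i
    fin_cases i <;> rfl
  rw [hJ] at h
  exact h

theorem Pt_swap3 (g : V → V → V → ℕ) (hb : ∀ a b c, g a b c = 0 ∨ g a b c = 1) (hg : Symm3 g)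
    (a b c d e f : V) (h : Pt g a b c e d f) : Pt g a b c d e f := by
  unfold Pt at h ⊢
  rw [KS_swap3 KN g (k01 g hb hg) (k12 g hb hg) (k23 g hb hg) (k45 g hb),
    MS_swap3 MN g (m01 g hb hg) (m23 g hb hg) (m45 g hb hg) (mpp g hb hg), ES_swap3 g hg] at h
  have hJ : J g ![a, b, c, e, d, f] = J g ![a, b, c, d, e, f] := by
    rw [← J_comp g (Equiv.swap 3 4) ![a, b, c, d, e, f]]
    congr 1
    funext i
    fin_cases i <;> rfl
  rw [hJ] at h
  exact h

theorem pointwise (g : V → V → V → ℕ) (hb : ∀ a b c, g a b c = 0 ∨ g a b c = 1) (hg : Symm3 g)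
    (h4 : ∀ a b c d, ix4 (g a b c) (g a b d) (g a c d) (g b c d) ≠ 15) :
    ∀ a b c d e f, Pt g a b c d e f :=
  chk5_sound good chkGood g hb hg h4 (Pt g) (Pt_swap0 g hb hg) (Pt_swap1 g hb hg)
    (Pt_swap2 g hb hg) (Pt_swap3 g hb hg) (good_sound g hg)

end Pool.Agent.H6Turan.A
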