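import Pool.Agent.H6Turan.FinalA
import Pool.Agent.H6Turan.Graph

set_option autoImplicit false

/-!
Turán's (3,4)-conjecture for 3-graphs without one partial configuration on six vertices.
-/

namespace Pool.Agent.H6Turan.SixPattern

open Pool.Agent.H6Turan

/-- `IsCopy H x`: the six distinct vertices `x 0, …, x 5` form a copy in `H` of the partial
configuration in which 19 of the 20 triples are prescribed (the triple `x 2, x 4, x 5` is free):
7 triples are edges of `H`, 12 triples are not. -/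
def IsCopy {n : ℕ} (H : Finset (Finset (Fin n))) (x : Fin 6 → Fin n) : Prop :=
  Function.Injective x ∧
  {x 0, x 2, x 4} ∈ H ∧ {x 0, x 2, x 5} ∈ H ∧ {x 0, x 3, x 4} ∈ H ∧ {x 0, x 3, x 5} ∈ H ∧
  {x 1, x 2, x 3} ∈ H ∧ {x 1, x 4, x 5} ∈ H ∧ {x 3, x 4, x 5} ∈ H ∧
  {x 0, x 1, x 2} ∉ H ∧ {x 0, x 1, x 3} ∉ H ∧ {x 0, x 1, x 4} ∉ H ∧ {x 0, x 1, x 5} ∉ H ∧
  {x 0, x 2, x 3} ∉ H ∧ {x 0, x 4, x 5} ∉ H ∧
  {x 1, x 2, x 4} ∉ H ∧ {x 1, x 2, x 5} ∉ H ∧ {x 1, x 3, x 4} ∉ H ∧ {x 1, x 3, x 5} ∉ H ∧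
  {x 2, x 3, x 4} ∉ H ∧ {x 2, x 3, x 5} ∉ H

open Classical in
/-- the number of maps `x : Fin 6 → Fin n` that are copies of the configuration in `H` -/
noncomputable def copies {n : ℕ} (H : Finset (Finset (Fin n))) : ℕ :=
  (Finset.univ.filter (fun x : Fin 6 → Fin n => IsCopy H x)).card

theorem IV_le {n : ℕ} (H : Finset (Finset (Fin n))) (x : Fin 6 → Fin n)
    (h : A.IV (gH H) (x 0) (x 1) (x 2) (x 3) (x 4) (x 5) ≠ 0) : IsCopy H x := by
  have hp : A.patB (gH H (x 0) (x 1) (x 2)) (gH H (x 0) (x 1) (x 3)) (gH H (x 0) (x 2) (x 3))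
      (gH H (x 1) (x 2) (x 3)) (gH H (x 0) (x 1) (x 4)) (gH H (x 0) (x 2) (x 4))
      (gH H (x 1) (x 2) (x 4)) (gH H (x 0) (x 3) (x 4)) (gH H (x 1) (x 3) (x 4))
      (gH H (x 2) (x 3) (x 4)) (gH H (x 0) (x 1) (x 5)) (gH H (x 0) (x 2) (x 5))
      (gH H (x 1) (x 2) (x 5)) (gH H (x 0) (x 3) (x 5)) (gH H (x 1) (x 3) (x 5))
      (gH H (x 2) (x 3) (x 5)) (gH H (x 0) (x 4) (x 5)) (gH H (x 1) (x 4) (x 5))
      (gH H (x 2) (x 4) (x 5)) (gH H (x 3) (x 4) (x 5)) = true := by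
    unfold A.IV at h
    by_contra hne
    rw [Bool.not_eq_true] at hne
    rw [hne] at h
    exact h rfl
  unfold A.patB at hp
  simp only [Bool.and_eq_true] at hp
  obtain ⟨t012, t013, t023, t123, t014, t024, t124, t034, t134, t234, t015, t025, t125, t035,
    t135, t235, t045, t145, t345⟩ := hp
  obtain ⟨n01, n02, n12, m012⟩ := gH_one.mp (Nat.eq_of_beq_eq_true t012)
  obtain ⟨-, n03, n13, m013⟩ := gH_one.mp (Nat.eq_of_beq_eq_true t013)
  obtain ⟨-, -, n23, m023⟩ := gH_one.mp (Nat.eq_of_beq_eq_true t023)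
  obtain ⟨-, n04, n14, m014⟩ := gH_one.mp (Nat.eq_of_beq_eq_true t014)
  obtain ⟨-, -, n24, m124⟩ := gH_one.mp (Nat.eq_of_beq_eq_true t124)
  obtain ⟨-, -, n34, m134⟩ := gH_one.mp (Nat.eq_of_beq_eq_true t134)
  obtain ⟨-, -, -, m234⟩ := gH_one.mp (Nat.eq_of_beq_eq_true t234)
  obtain ⟨-, n05, n15, m015⟩ := gH_one.mp (Nat.eq_of_beq_eq_true t015)
  obtain ⟨-, -, n25, m125⟩ := gH_one.mp (Nat.eq_of_beq_eq_true t125)
  obtain ⟨-, -, n35, m135⟩ := gH_one.mp (Nat.eq_of_beq_eq_true t135)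
  obtain ⟨-, -, -, m235⟩ := gH_one.mp (Nat.eq_of_beq_eq_true t235)
  obtain ⟨-, -, n45, m045⟩ := gH_one.mp (Nat.eq_of_beq_eq_true t045)
  have zero : ∀ a b c : Fin n, a ≠ b → a ≠ c → b ≠ c → Nat.beq (gH H a b c) 0 = true →
      ({a, b, c} : Finset (Fin n)) ∈ H := by
    intro a b c hab hac hbc h0
    replace h0 := Nat.eq_of_beq_eq_true h0
    by_contra hn
    rw [gH_one.mpr ⟨hab, hac, hbc, hn⟩] at h0
    exact absurd h0 (by norm_num)
  refine ⟨?_, zero _ _ _ n02 n04 n24 t024, zero _ _ _ n02 n05 n25 t025,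
    zero _ _ _ n03 n04 n34 t034, zero _ _ _ n03 n05 n35 t035, zero _ _ _ n12 n13 n23 t123,
    zero _ _ _ n14 n15 n45 t145, zero _ _ _ n34 n35 n45 t345,
    m012, m013, m014, m015, m023, m045, m124, m125, m134, m135, m234, m235⟩
  intro i j hij
  fin_cases i <;> fin_cases j <;> first
    | rfl
    | (exfalso; first
        | exact n01 hij | exact n01 hij.symm | exact n02 hij | exact n02 hij.symm
        | exact n03 hij | exact n03 hij.symm | exact n04 hij | exact n04 hij.symm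
        | exact n05 hij | exact n05 hij.symm | exact n12 hij | exact n12 hij.symm
        | exact n13 hij | exact n13 hij.symm | exact n14 hij | exact n14 hij.symm
        | exact n15 hij | exact n15 hij.symm | exact n23 hij | exact n23 hij.symm
        | exact n24 hij | exact n24 hij.symm | exact n25 hij | exact n25 hij.symm
        | exact n34 hij | exact n34 hij.symm | exact n35 hij | exact n35 hij.symm
        | exact n45 hij | exact n45 hij.symm)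

theorem sum_IV_le {n : ℕ} (H : Finset (Finset (Fin n))) :
    ∑ x : Fin 6 → Fin n, A.IV (gH H) (x 0) (x 1) (x 2) (x 3) (x 4) (x 5) ≤ copies H := by
  classical
  unfold copies
  rw [Finset.card_filter]
  refine Finset.sum_le_sum (fun x _ => ?_)
  by_cases h : A.IV (gH H) (x 0) (x 1) (x 2) (x 3) (x 4) (x 5) = 0
  · rw [h]
    exact Nat.zero_le _
  · rw [if_pos (IV_le H x h)]
    unfold A.IV
    cases A.patB (gH H (x 0) (x 1) (x 2)) (gH H (x 0) (x 1) (x 3)) (gH H (x 0) (x 2) (x 3))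
      (gH H (x 1) (x 2) (x 3)) (gH H (x 0) (x 1) (x 4)) (gH H (x 0) (x 2) (x 4))
      (gH H (x 1) (x 2) (x 4)) (gH H (x 0) (x 3) (x 4)) (gH H (x 1) (x 3) (x 4))
      (gH H (x 2) (x 3) (x 4)) (gH H (x 0) (x 1) (x 5)) (gH H (x 0) (x 2) (x 5))
      (gH H (x 1) (x 2) (x 5)) (gH H (x 0) (x 3) (x 5)) (gH H (x 1) (x 3) (x 5))
      (gH H (x 2) (x 3) (x 5)) (gH H (x 0) (x 4) (x 5)) (gH H (x 1) (x 4) (x 5))
      (gH H (x 2) (x 4) (x 5)) (gH H (x 3) (x 4) (x 5))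
    · exact Nat.zero_le _
    · exact le_refl _

/-- A Turán (3,4)-graph `H` on `n` vertices with `copies H` copies of the configuration has at least
`(4/9) C(n,3) - (5/18) n² - 24 (copies H) / n³` edges. In particular Turán's bound `4/9` holds
asymptotically for all Turán (3,4)-graphs without the configuration. -/
theorem result (n : ℕ) (H : Finset (Finset (Fin n)))
    (h3 : ∀ e ∈ H, e.card = 3)
    (h4 : ∀ S : Finset (Fin n), S.card = 4 → ∃ e ∈ H, e ⊆ S) :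
    4 / 9 * ((n.choose 3 : ℕ) : ℝ)
      ≤ (H.card : ℝ) + 5 / 18 * (n : ℝ) ^ 2 + 24 * (copies H : ℝ) / (n : ℝ) ^ 3 := by
  have hmain := A.main (gH H) (gH_bit H) (gH_symm H) (gH_free H h3 h4)
  have hIV := sum_IV_le H
  have hEE := EE_gH H
  rw [Fintype.card_fin] at hmain
  rcases Nat.eq_zero_or_pos n with hn | hn
  · subst hn
    simp
  have hn' : (0 : ℝ) < (n : ℝ) := Nat.cast_pos.mpr hn
  have hn3 : (0 : ℝ) < (n : ℝ) ^ 3 := by positivity
  have hmainR : 9 * ((n : ℝ) ^ 3 * (EE (gH H) : ℝ)) ≤ 5 * (n : ℝ) ^ 6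
      + 1296 * ((∑ x : Fin 6 → Fin n, A.IV (gH H) (x 0) (x 1) (x 2) (x 3) (x 4) (x 5) : ℕ) : ℝ) := by
    exact_mod_cast hmain
  have hIVR : ((∑ x : Fin 6 → Fin n, A.IV (gH H) (x 0) (x 1) (x 2) (x 3) (x 4) (x 5) : ℕ) : ℝ)
      ≤ (copies H : ℝ) := by exact_mod_cast hIV
  have hEER : 6 * ((n.choose 3 : ℕ) : ℝ) ≤ (EE (gH H) : ℝ) + 6 * (H.card : ℝ) := by
    exact_mod_cast hEE
  have hchoose : ∀ m : ℕ, 6 * ((m.choose 3 : ℕ) : ℝ) = (m : ℝ) * ((m : ℝ) - 1) * ((m : ℝ) - 2) := by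
    intro m
    induction m with
    | zero => simp
    | succ m ih =>
      rw [Nat.choose_succ_succ' m 2, Nat.cast_add, mul_add, ih, Nat.cast_choose_two]
      push_cast
      ring
  replace hchoose := hchoose n
  have hE : (EE (gH H) : ℝ) ≤ 5 / 9 * (n : ℝ) ^ 3 + 144 * (copies H : ℝ) / (n : ℝ) ^ 3 := by
    rw [← sub_le_iff_le_add', le_div_iff₀ hn3]
    have e6 : (n : ℝ) ^ 6 = (n : ℝ) ^ 3 * (n : ℝ) ^ 3 := by ring
    nlinarith
  have e24 : 144 * (copies H : ℝ) / (n : ℝ) ^ 3 = 6 * (24 * (copies H : ℝ) / (n : ℝ) ^ 3) := by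
    ring
  rw [e24] at hE
  nlinarith

end Pool.Agent.H6Turan.SixPattern
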