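import Pool.Agent.H6Turan.Sym

set_option autoImplicit false
set_option linter.unusedSimpArgs false
set_option maxHeartbeats 4000000

/-!
# Sums over all six-tuples
(generated file)
-/

namespace Pool.Agent.H6Turan

variable {V : Type*} [Fintype V]

theorem sum_perm {α : Type*} [AddCommMonoid α] (Φ : (Fin 6 → V) → α) (p : Fin 6 → Fin 6)
    (hp : Function.Bijective p) : ∑ x : Fin 6 → V, Φ (fun i => x (p i)) = ∑ x, Φ x := by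
  let e : Fin 6 ≃ Fin 6 := Equiv.ofBijective p hp
  exact Fintype.sum_equiv (Equiv.arrowCongr e.symm (Equiv.refl V)) _ _ (fun x => rfl)

theorem sum_cons {α : Type*} [AddCommMonoid α] {n : ℕ} (Φ : (Fin (n + 1) → V) → α) :
    ∑ x, Φ x = ∑ a : V, ∑ y : Fin n → V, Φ (Fin.cons a y) := by
  rw [← Fintype.sum_prod_type']
  exact (Fintype.sum_equiv (Fin.consEquiv (fun _ => V)) _ _ (fun p => rfl)).symm

theorem sum_fin6 {α : Type*} [AddCommMonoid α] (Φ : V → V → V → V → V → V → α) :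
    ∑ x : Fin 6 → V, Φ (x 0) (x 1) (x 2) (x 3) (x 4) (x 5)
      = ∑ a, ∑ b, ∑ c, ∑ d, ∑ e, ∑ f, Φ a b c d e f := by
  rw [sum_cons]
  refine Finset.sum_congr rfl (fun a _ => ?_)
  rw [sum_cons]
  refine Finset.sum_congr rfl (fun b _ => ?_)
  rw [sum_cons]
  refine Finset.sum_congr rfl (fun c _ => ?_)
  rw [sum_cons]
  refine Finset.sum_congr rfl (fun d _ => ?_)
  rw [sum_cons]
  refine Finset.sum_congr rfl (fun e _ => ?_)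
  rw [sum_cons]
  refine Finset.sum_congr rfl (fun f _ => ?_)
  rw [Fintype.sum_unique]
  rfl

theorem sum_KS (K : ℕ → ℕ → ℕ → ℕ) (g : V → V → V → ℕ) :
    ∑ x : Fin 6 → V, KS K g (x 0) (x 1) (x 2) (x 3) (x 4) (x 5)
      = 15 * ∑ x : Fin 6 → V, Kt K g (x 0) (x 1) (x 2) (x 3) (x 4) (x 5) := by
  have h0 : ∑ x : Fin 6 → V, Kt K g (x 0) (x 1) (x 2) (x 3) (x 4) (x 5) = ∑ x : Fin 6 → V, Kt K g (x 0) (x 1) (x 2) (x 3) (x 4) (x 5) :=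
    sum_perm (fun x => Kt K g (x 0) (x 1) (x 2) (x 3) (x 4) (x 5)) ![0, 1, 2, 3, 4, 5] (by decide)
  have h1 : ∑ x : Fin 6 → V, Kt K g (x 0) (x 1) (x 2) (x 4) (x 3) (x 5) = ∑ x : Fin 6 → V, Kt K g (x 0) (x 1) (x 2) (x 3) (x 4) (x 5) :=
    sum_perm (fun x => Kt K g (x 0) (x 1) (x 2) (x 3) (x 4) (x 5)) ![0, 1, 2, 4, 3, 5] (by decide)
  have h2 : ∑ x : Fin 6 → V, Kt K g (x 0) (x 1) (x 2) (x 5) (x 3) (x 4) = ∑ x : Fin 6 → V, Kt K g (x 0) (x 1) (x 2) (x 3) (x 4) (x 5) :=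
    sum_perm (fun x => Kt K g (x 0) (x 1) (x 2) (x 3) (x 4) (x 5)) ![0, 1, 2, 5, 3, 4] (by decide)
  have h3 : ∑ x : Fin 6 → V, Kt K g (x 0) (x 1) (x 3) (x 4) (x 2) (x 5) = ∑ x : Fin 6 → V, Kt K g (x 0) (x 1) (x 2) (x 3) (x 4) (x 5) :=
    sum_perm (fun x => Kt K g (x 0) (x 1) (x 2) (x 3) (x 4) (x 5)) ![0, 1, 3, 4, 2, 5] (by decide)
  have h4 : ∑ x : Fin 6 → V, Kt K g (x 0) (x 1) (x 3) (x 5) (x 2) (x 4) = ∑ x : Fin 6 → V, Kt K g (x 0) (x 1) (x 2) (x 3) (x 4) (x 5) :=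
    sum_perm (fun x => Kt K g (x 0) (x 1) (x 2) (x 3) (x 4) (x 5)) ![0, 1, 3, 5, 2, 4] (by decide)
  have h5 : ∑ x : Fin 6 → V, Kt K g (x 0) (x 1) (x 4) (x 5) (x 2) (x 3) = ∑ x : Fin 6 → V, Kt K g (x 0) (x 1) (x 2) (x 3) (x 4) (x 5) :=
    sum_perm (fun x => Kt K g (x 0) (x 1) (x 2) (x 3) (x 4) (x 5)) ![0, 1, 4, 5, 2, 3] (by decide)
  have h6 : ∑ x : Fin 6 → V, Kt K g (x 0) (x 2) (x 3) (x 4) (x 1) (x 5) = ∑ x : Fin 6 → V, Kt K g (x 0) (x 1) (x 2) (x 3) (x 4) (x 5) :=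
    sum_perm (fun x => Kt K g (x 0) (x 1) (x 2) (x 3) (x 4) (x 5)) ![0, 2, 3, 4, 1, 5] (by decide)
  have h7 : ∑ x : Fin 6 → V, Kt K g (x 0) (x 2) (x 3) (x 5) (x 1) (x 4) = ∑ x : Fin 6 → V, Kt K g (x 0) (x 1) (x 2) (x 3) (x 4) (x 5) :=
    sum_perm (fun x => Kt K g (x 0) (x 1) (x 2) (x 3) (x 4) (x 5)) ![0, 2, 3, 5, 1, 4] (by decide)
  have h8 : ∑ x : Fin 6 → V, Kt K g (x 0) (x 2) (x 4) (x 5) (x 1) (x 3) = ∑ x : Fin 6 → V, Kt K g (x 0) (x 1) (x 2) (x 3) (x 4) (x 5) :=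
    sum_perm (fun x => Kt K g (x 0) (x 1) (x 2) (x 3) (x 4) (x 5)) ![0, 2, 4, 5, 1, 3] (by decide)
  have h9 : ∑ x : Fin 6 → V, Kt K g (x 0) (x 3) (x 4) (x 5) (x 1) (x 2) = ∑ x : Fin 6 → V, Kt K g (x 0) (x 1) (x 2) (x 3) (x 4) (x 5) :=
    sum_perm (fun x => Kt K g (x 0) (x 1) (x 2) (x 3) (x 4) (x 5)) ![0, 3, 4, 5, 1, 2] (by decide)
  have h10 : ∑ x : Fin 6 → V, Kt K g (x 1) (x 2) (x 3) (x 4) (x 0) (x 5) = ∑ x : Fin 6 → V, Kt K g (x 0) (x 1) (x 2) (x 3) (x 4) (x 5) :=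
    sum_perm (fun x => Kt K g (x 0) (x 1) (x 2) (x 3) (x 4) (x 5)) ![1, 2, 3, 4, 0, 5] (by decide)
  have h11 : ∑ x : Fin 6 → V, Kt K g (x 1) (x 2) (x 3) (x 5) (x 0) (x 4) = ∑ x : Fin 6 → V, Kt K g (x 0) (x 1) (x 2) (x 3) (x 4) (x 5) :=
    sum_perm (fun x => Kt K g (x 0) (x 1) (x 2) (x 3) (x 4) (x 5)) ![1, 2, 3, 5, 0, 4] (by decide)
  have h12 : ∑ x : Fin 6 → V, Kt K g (x 1) (x 2) (x 4) (x 5) (x 0) (x 3) = ∑ x : Fin 6 → V, Kt K g (x 0) (x 1) (x 2) (x 3) (x 4) (x 5) :=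
    sum_perm (fun x => Kt K g (x 0) (x 1) (x 2) (x 3) (x 4) (x 5)) ![1, 2, 4, 5, 0, 3] (by decide)
  have h13 : ∑ x : Fin 6 → V, Kt K g (x 1) (x 3) (x 4) (x 5) (x 0) (x 2) = ∑ x : Fin 6 → V, Kt K g (x 0) (x 1) (x 2) (x 3) (x 4) (x 5) :=
    sum_perm (fun x => Kt K g (x 0) (x 1) (x 2) (x 3) (x 4) (x 5)) ![1, 3, 4, 5, 0, 2] (by decide)
  have h14 : ∑ x : Fin 6 → V, Kt K g (x 2) (x 3) (x 4) (x 5) (x 0) (x 1) = ∑ x : Fin 6 → V, Kt K g (x 0) (x 1) (x 2) (x 3) (x 4) (x 5) :=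
    sum_perm (fun x => Kt K g (x 0) (x 1) (x 2) (x 3) (x 4) (x 5)) ![2, 3, 4, 5, 0, 1] (by decide)
  simp only [KS, Nat.add_eq, Finset.sum_add_distrib, h1, h2, h3, h4, h5, h6, h7, h8, h9, h10, h11, h12, h13, h14]
  ring

theorem sum_MS (M : ℕ → ℕ → ℕ) (g : V → V → V → ℕ) :
    ∑ x : Fin 6 → V, MS M g (x 0) (x 1) (x 2) (x 3) (x 4) (x 5)
      = 45 * ∑ x : Fin 6 → V, Mt M g (x 0) (x 1) (x 2) (x 3) (x 4) (x 5) := by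
  have h0 : ∑ x : Fin 6 → V, Mt M g (x 0) (x 1) (x 2) (x 3) (x 4) (x 5) = ∑ x : Fin 6 → V, Mt M g (x 0) (x 1) (x 2) (x 3) (x 4) (x 5) :=
    sum_perm (fun x => Mt M g (x 0) (x 1) (x 2) (x 3) (x 4) (x 5)) ![0, 1, 2, 3, 4, 5] (by decide)
  have h1 : ∑ x : Fin 6 → V, Mt M g (x 0) (x 1) (x 2) (x 4) (x 3) (x 5) = ∑ x : Fin 6 → V, Mt M g (x 0) (x 1) (x 2) (x 3) (x 4) (x 5) :=
    sum_perm (fun x => Mt M g (x 0) (x 1) (x 2) (x 3) (x 4) (x 5)) ![0, 1, 2, 4, 3, 5] (by decide)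
  have h2 : ∑ x : Fin 6 → V, Mt M g (x 0) (x 1) (x 2) (x 5) (x 3) (x 4) = ∑ x : Fin 6 → V, Mt M g (x 0) (x 1) (x 2) (x 3) (x 4) (x 5) :=
    sum_perm (fun x => Mt M g (x 0) (x 1) (x 2) (x 3) (x 4) (x 5)) ![0, 1, 2, 5, 3, 4] (by decide)
  have h3 : ∑ x : Fin 6 → V, Mt M g (x 0) (x 2) (x 1) (x 3) (x 4) (x 5) = ∑ x : Fin 6 → V, Mt M g (x 0) (x 1) (x 2) (x 3) (x 4) (x 5) :=
    sum_perm (fun x => Mt M g (x 0) (x 1) (x 2) (x 3) (x 4) (x 5)) ![0, 2, 1, 3, 4, 5] (by decide)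
  have h4 : ∑ x : Fin 6 → V, Mt M g (x 0) (x 2) (x 1) (x 4) (x 3) (x 5) = ∑ x : Fin 6 → V, Mt M g (x 0) (x 1) (x 2) (x 3) (x 4) (x 5) :=
    sum_perm (fun x => Mt M g (x 0) (x 1) (x 2) (x 3) (x 4) (x 5)) ![0, 2, 1, 4, 3, 5] (by decide)
  have h5 : ∑ x : Fin 6 → V, Mt M g (x 0) (x 2) (x 1) (x 5) (x 3) (x 4) = ∑ x : Fin 6 → V, Mt M g (x 0) (x 1) (x 2) (x 3) (x 4) (x 5) :=
    sum_perm (fun x => Mt M g (x 0) (x 1) (x 2) (x 3) (x 4) (x 5)) ![0, 2, 1, 5, 3, 4] (by decide)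
  have h6 : ∑ x : Fin 6 → V, Mt M g (x 0) (x 3) (x 1) (x 2) (x 4) (x 5) = ∑ x : Fin 6 → V, Mt M g (x 0) (x 1) (x 2) (x 3) (x 4) (x 5) :=
    sum_perm (fun x => Mt M g (x 0) (x 1) (x 2) (x 3) (x 4) (x 5)) ![0, 3, 1, 2, 4, 5] (by decide)
  have h7 : ∑ x : Fin 6 → V, Mt M g (x 0) (x 3) (x 1) (x 4) (x 2) (x 5) = ∑ x : Fin 6 → V, Mt M g (x 0) (x 1) (x 2) (x 3) (x 4) (x 5) :=
    sum_perm (fun x => Mt M g (x 0) (x 1) (x 2) (x 3) (x 4) (x 5)) ![0, 3, 1, 4, 2, 5] (by decide)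
  have h8 : ∑ x : Fin 6 → V, Mt M g (x 0) (x 3) (x 1) (x 5) (x 2) (x 4) = ∑ x : Fin 6 → V, Mt M g (x 0) (x 1) (x 2) (x 3) (x 4) (x 5) :=
    sum_perm (fun x => Mt M g (x 0) (x 1) (x 2) (x 3) (x 4) (x 5)) ![0, 3, 1, 5, 2, 4] (by decide)
  have h9 : ∑ x : Fin 6 → V, Mt M g (x 0) (x 4) (x 1) (x 2) (x 3) (x 5) = ∑ x : Fin 6 → V, Mt M g (x 0) (x 1) (x 2) (x 3) (x 4) (x 5) :=
    sum_perm (fun x => Mt M g (x 0) (x 1) (x 2) (x 3) (x 4) (x 5)) ![0, 4, 1, 2, 3, 5] (by decide)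
  have h10 : ∑ x : Fin 6 → V, Mt M g (x 0) (x 4) (x 1) (x 3) (x 2) (x 5) = ∑ x : Fin 6 → V, Mt M g (x 0) (x 1) (x 2) (x 3) (x 4) (x 5) :=
    sum_perm (fun x => Mt M g (x 0) (x 1) (x 2) (x 3) (x 4) (x 5)) ![0, 4, 1, 3, 2, 5] (by decide)
  have h11 : ∑ x : Fin 6 → V, Mt M g (x 0) (x 4) (x 1) (x 5) (x 2) (x 3) = ∑ x : Fin 6 → V, Mt M g (x 0) (x 1) (x 2) (x 3) (x 4) (x 5) :=
    sum_perm (fun x => Mt M g (x 0) (x 1) (x 2) (x 3) (x 4) (x 5)) ![0, 4, 1, 5, 2, 3] (by decide)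
  have h12 : ∑ x : Fin 6 → V, Mt M g (x 0) (x 5) (x 1) (x 2) (x 3) (x 4) = ∑ x : Fin 6 → V, Mt M g (x 0) (x 1) (x 2) (x 3) (x 4) (x 5) :=
    sum_perm (fun x => Mt M g (x 0) (x 1) (x 2) (x 3) (x 4) (x 5)) ![0, 5, 1, 2, 3, 4] (by decide)
  have h13 : ∑ x : Fin 6 → V, Mt M g (x 0) (x 5) (x 1) (x 3) (x 2) (x 4) = ∑ x : Fin 6 → V, Mt M g (x 0) (x 1) (x 2) (x 3) (x 4) (x 5) :=
    sum_perm (fun x => Mt M g (x 0) (x 1) (x 2) (x 3) (x 4) (x 5)) ![0, 5, 1, 3, 2, 4] (by decide)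
  have h14 : ∑ x : Fin 6 → V, Mt M g (x 0) (x 5) (x 1) (x 4) (x 2) (x 3) = ∑ x : Fin 6 → V, Mt M g (x 0) (x 1) (x 2) (x 3) (x 4) (x 5) :=
    sum_perm (fun x => Mt M g (x 0) (x 1) (x 2) (x 3) (x 4) (x 5)) ![0, 5, 1, 4, 2, 3] (by decide)
  have h15 : ∑ x : Fin 6 → V, Mt M g (x 1) (x 2) (x 0) (x 3) (x 4) (x 5) = ∑ x : Fin 6 → V, Mt M g (x 0) (x 1) (x 2) (x 3) (x 4) (x 5) :=
    sum_perm (fun x => Mt M g (x 0) (x 1) (x 2) (x 3) (x 4) (x 5)) ![1, 2, 0, 3, 4, 5] (by decide)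
  have h16 : ∑ x : Fin 6 → V, Mt M g (x 1) (x 2) (x 0) (x 4) (x 3) (x 5) = ∑ x : Fin 6 → V, Mt M g (x 0) (x 1) (x 2) (x 3) (x 4) (x 5) :=
    sum_perm (fun x => Mt M g (x 0) (x 1) (x 2) (x 3) (x 4) (x 5)) ![1, 2, 0, 4, 3, 5] (by decide)
  have h17 : ∑ x : Fin 6 → V, Mt M g (x 1) (x 2) (x 0) (x 5) (x 3) (x 4) = ∑ x : Fin 6 → V, Mt M g (x 0) (x 1) (x 2) (x 3) (x 4) (x 5) :=
    sum_perm (fun x => Mt M g (x 0) (x 1) (x 2) (x 3) (x 4) (x 5)) ![1, 2, 0, 5, 3, 4] (by decide)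
  have h18 : ∑ x : Fin 6 → V, Mt M g (x 1) (x 3) (x 0) (x 2) (x 4) (x 5) = ∑ x : Fin 6 → V, Mt M g (x 0) (x 1) (x 2) (x 3) (x 4) (x 5) :=
    sum_perm (fun x => Mt M g (x 0) (x 1) (x 2) (x 3) (x 4) (x 5)) ![1, 3, 0, 2, 4, 5] (by decide)
  have h19 : ∑ x : Fin 6 → V, Mt M g (x 1) (x 3) (x 0) (x 4) (x 2) (x 5) = ∑ x : Fin 6 → V, Mt M g (x 0) (x 1) (x 2) (x 3) (x 4) (x 5) :=
    sum_perm (fun x => Mt M g (x 0) (x 1) (x 2) (x 3) (x 4) (x 5)) ![1, 3, 0, 4, 2, 5] (by decide)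
  have h20 : ∑ x : Fin 6 → V, Mt M g (x 1) (x 3) (x 0) (x 5) (x 2) (x 4) = ∑ x : Fin 6 → V, Mt M g (x 0) (x 1) (x 2) (x 3) (x 4) (x 5) :=
    sum_perm (fun x => Mt M g (x 0) (x 1) (x 2) (x 3) (x 4) (x 5)) ![1, 3, 0, 5, 2, 4] (by decide)
  have h21 : ∑ x : Fin 6 → V, Mt M g (x 1) (x 4) (x 0) (x 2) (x 3) (x 5) = ∑ x : Fin 6 → V, Mt M g (x 0) (x 1) (x 2) (x 3) (x 4) (x 5) :=
    sum_perm (fun x => Mt M g (x 0) (x 1) (x 2) (x 3) (x 4) (x 5)) ![1, 4, 0, 2, 3, 5] (by decide)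
  have h22 : ∑ x : Fin 6 → V, Mt M g (x 1) (x 4) (x 0) (x 3) (x 2) (x 5) = ∑ x : Fin 6 → V, Mt M g (x 0) (x 1) (x 2) (x 3) (x 4) (x 5) :=
    sum_perm (fun x => Mt M g (x 0) (x 1) (x 2) (x 3) (x 4) (x 5)) ![1, 4, 0, 3, 2, 5] (by decide)
  have h23 : ∑ x : Fin 6 → V, Mt M g (x 1) (x 4) (x 0) (x 5) (x 2) (x 3) = ∑ x : Fin 6 → V, Mt M g (x 0) (x 1) (x 2) (x 3) (x 4) (x 5) :=
    sum_perm (fun x => Mt M g (x 0) (x 1) (x 2) (x 3) (x 4) (x 5)) ![1, 4, 0, 5, 2, 3] (by decide)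
  have h24 : ∑ x : Fin 6 → V, Mt M g (x 1) (x 5) (x 0) (x 2) (x 3) (x 4) = ∑ x : Fin 6 → V, Mt M g (x 0) (x 1) (x 2) (x 3) (x 4) (x 5) :=
    sum_perm (fun x => Mt M g (x 0) (x 1) (x 2) (x 3) (x 4) (x 5)) ![1, 5, 0, 2, 3, 4] (by decide)
  have h25 : ∑ x : Fin 6 → V, Mt M g (x 1) (x 5) (x 0) (x 3) (x 2) (x 4) = ∑ x : Fin 6 → V, Mt M g (x 0) (x 1) (x 2) (x 3) (x 4) (x 5) :=
    sum_perm (fun x => Mt M g (x 0) (x 1) (x 2) (x 3) (x 4) (x 5)) ![1, 5, 0, 3, 2, 4] (by decide)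
  have h26 : ∑ x : Fin 6 → V, Mt M g (x 1) (x 5) (x 0) (x 4) (x 2) (x 3) = ∑ x : Fin 6 → V, Mt M g (x 0) (x 1) (x 2) (x 3) (x 4) (x 5) :=
    sum_perm (fun x => Mt M g (x 0) (x 1) (x 2) (x 3) (x 4) (x 5)) ![1, 5, 0, 4, 2, 3] (by decide)
  have h27 : ∑ x : Fin 6 → V, Mt M g (x 2) (x 3) (x 0) (x 1) (x 4) (x 5) = ∑ x : Fin 6 → V, Mt M g (x 0) (x 1) (x 2) (x 3) (x 4) (x 5) :=
    sum_perm (fun x => Mt M g (x 0) (x 1) (x 2) (x 3) (x 4) (x 5)) ![2, 3, 0, 1, 4, 5] (by decide)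
  have h28 : ∑ x : Fin 6 → V, Mt M g (x 2) (x 3) (x 0) (x 4) (x 1) (x 5) = ∑ x : Fin 6 → V, Mt M g (x 0) (x 1) (x 2) (x 3) (x 4) (x 5) :=
    sum_perm (fun x => Mt M g (x 0) (x 1) (x 2) (x 3) (x 4) (x 5)) ![2, 3, 0, 4, 1, 5] (by decide)
  have h29 : ∑ x : Fin 6 → V, Mt M g (x 2) (x 3) (x 0) (x 5) (x 1) (x 4) = ∑ x : Fin 6 → V, Mt M g (x 0) (x 1) (x 2) (x 3) (x 4) (x 5) :=
    sum_perm (fun x => Mt M g (x 0) (x 1) (x 2) (x 3) (x 4) (x 5)) ![2, 3, 0, 5, 1, 4] (by decide)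
  have h30 : ∑ x : Fin 6 → V, Mt M g (x 2) (x 4) (x 0) (x 1) (x 3) (x 5) = ∑ x : Fin 6 → V, Mt M g (x 0) (x 1) (x 2) (x 3) (x 4) (x 5) :=
    sum_perm (fun x => Mt M g (x 0) (x 1) (x 2) (x 3) (x 4) (x 5)) ![2, 4, 0, 1, 3, 5] (by decide)
  have h31 : ∑ x : Fin 6 → V, Mt M g (x 2) (x 4) (x 0) (x 3) (x 1) (x 5) = ∑ x : Fin 6 → V, Mt M g (x 0) (x 1) (x 2) (x 3) (x 4) (x 5) :=
    sum_perm (fun x => Mt M g (x 0) (x 1) (x 2) (x 3) (x 4) (x 5)) ![2, 4, 0, 3, 1, 5] (by decide)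
  have h32 : ∑ x : Fin 6 → V, Mt M g (x 2) (x 4) (x 0) (x 5) (x 1) (x 3) = ∑ x : Fin 6 → V, Mt M g (x 0) (x 1) (x 2) (x 3) (x 4) (x 5) :=
    sum_perm (fun x => Mt M g (x 0) (x 1) (x 2) (x 3) (x 4) (x 5)) ![2, 4, 0, 5, 1, 3] (by decide)
  have h33 : ∑ x : Fin 6 → V, Mt M g (x 2) (x 5) (x 0) (x 1) (x 3) (x 4) = ∑ x : Fin 6 → V, Mt M g (x 0) (x 1) (x 2) (x 3) (x 4) (x 5) :=
    sum_perm (fun x => Mt M g (x 0) (x 1) (x 2) (x 3) (x 4) (x 5)) ![2, 5, 0, 1, 3, 4] (by decide)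
  have h34 : ∑ x : Fin 6 → V, Mt M g (x 2) (x 5) (x 0) (x 3) (x 1) (x 4) = ∑ x : Fin 6 → V, Mt M g (x 0) (x 1) (x 2) (x 3) (x 4) (x 5) :=
    sum_perm (fun x => Mt M g (x 0) (x 1) (x 2) (x 3) (x 4) (x 5)) ![2, 5, 0, 3, 1, 4] (by decide)
  have h35 : ∑ x : Fin 6 → V, Mt M g (x 2) (x 5) (x 0) (x 4) (x 1) (x 3) = ∑ x : Fin 6 → V, Mt M g (x 0) (x 1) (x 2) (x 3) (x 4) (x 5) :=
    sum_perm (fun x => Mt M g (x 0) (x 1) (x 2) (x 3) (x 4) (x 5)) ![2, 5, 0, 4, 1, 3] (by decide)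
  have h36 : ∑ x : Fin 6 → V, Mt M g (x 3) (x 4) (x 0) (x 1) (x 2) (x 5) = ∑ x : Fin 6 → V, Mt M g (x 0) (x 1) (x 2) (x 3) (x 4) (x 5) :=
    sum_perm (fun x => Mt M g (x 0) (x 1) (x 2) (x 3) (x 4) (x 5)) ![3, 4, 0, 1, 2, 5] (by decide)
  have h37 : ∑ x : Fin 6 → V, Mt M g (x 3) (x 4) (x 0) (x 2) (x 1) (x 5) = ∑ x : Fin 6 → V, Mt M g (x 0) (x 1) (x 2) (x 3) (x 4) (x 5) :=
    sum_perm (fun x => Mt M g (x 0) (x 1) (x 2) (x 3) (x 4) (x 5)) ![3, 4, 0, 2, 1, 5] (by decide)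
  have h38 : ∑ x : Fin 6 → V, Mt M g (x 3) (x 4) (x 0) (x 5) (x 1) (x 2) = ∑ x : Fin 6 → V, Mt M g (x 0) (x 1) (x 2) (x 3) (x 4) (x 5) :=
    sum_perm (fun x => Mt M g (x 0) (x 1) (x 2) (x 3) (x 4) (x 5)) ![3, 4, 0, 5, 1, 2] (by decide)
  have h39 : ∑ x : Fin 6 → V, Mt M g (x 3) (x 5) (x 0) (x 1) (x 2) (x 4) = ∑ x : Fin 6 → V, Mt M g (x 0) (x 1) (x 2) (x 3) (x 4) (x 5) :=
    sum_perm (fun x => Mt M g (x 0) (x 1) (x 2) (x 3) (x 4) (x 5)) ![3, 5, 0, 1, 2, 4] (by decide)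
  have h40 : ∑ x : Fin 6 → V, Mt M g (x 3) (x 5) (x 0) (x 2) (x 1) (x 4) = ∑ x : Fin 6 → V, Mt M g (x 0) (x 1) (x 2) (x 3) (x 4) (x 5) :=
    sum_perm (fun x => Mt M g (x 0) (x 1) (x 2) (x 3) (x 4) (x 5)) ![3, 5, 0, 2, 1, 4] (by decide)
  have h41 : ∑ x : Fin 6 → V, Mt M g (x 3) (x 5) (x 0) (x 4) (x 1) (x 2) = ∑ x : Fin 6 → V, Mt M g (x 0) (x 1) (x 2) (x 3) (x 4) (x 5) :=
    sum_perm (fun x => Mt M g (x 0) (x 1) (x 2) (x 3) (x 4) (x 5)) ![3, 5, 0, 4, 1, 2] (by decide)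
  have h42 : ∑ x : Fin 6 → V, Mt M g (x 4) (x 5) (x 0) (x 1) (x 2) (x 3) = ∑ x : Fin 6 → V, Mt M g (x 0) (x 1) (x 2) (x 3) (x 4) (x 5) :=
    sum_perm (fun x => Mt M g (x 0) (x 1) (x 2) (x 3) (x 4) (x 5)) ![4, 5, 0, 1, 2, 3] (by decide)
  have h43 : ∑ x : Fin 6 → V, Mt M g (x 4) (x 5) (x 0) (x 2) (x 1) (x 3) = ∑ x : Fin 6 → V, Mt M g (x 0) (x 1) (x 2) (x 3) (x 4) (x 5) :=
    sum_perm (fun x => Mt M g (x 0) (x 1) (x 2) (x 3) (x 4) (x 5)) ![4, 5, 0, 2, 1, 3] (by decide)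
  have h44 : ∑ x : Fin 6 → V, Mt M g (x 4) (x 5) (x 0) (x 3) (x 1) (x 2) = ∑ x : Fin 6 → V, Mt M g (x 0) (x 1) (x 2) (x 3) (x 4) (x 5) :=
    sum_perm (fun x => Mt M g (x 0) (x 1) (x 2) (x 3) (x 4) (x 5)) ![4, 5, 0, 3, 1, 2] (by decide)
  simp only [MS, Nat.add_eq, Finset.sum_add_distrib, h1, h2, h3, h4, h5, h6, h7, h8, h9, h10, h11, h12, h13, h14, h15, h16, h17, h18, h19, h20, h21, h22, h23, h24, h25, h26, h27, h28, h29, h30, h31, h32, h33, h34, h35, h36, h37, h38, h39, h40, h41, h42, h43, h44]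
  ring

theorem sum_ES (g : V → V → V → ℕ) :
    ∑ x : Fin 6 → V, ES g (x 0) (x 1) (x 2) (x 3) (x 4) (x 5)
      = 20 * ∑ x : Fin 6 → V, g (x 0) (x 1) (x 2) := by
  have h0 : ∑ x : Fin 6 → V, g (x 0) (x 1) (x 2) = ∑ x : Fin 6 → V, g (x 0) (x 1) (x 2) :=
    sum_perm (fun x => g (x 0) (x 1) (x 2)) ![0, 1, 2, 3, 4, 5] (by decide)
  have h1 : ∑ x : Fin 6 → V, g (x 0) (x 1) (x 3) = ∑ x : Fin 6 → V, g (x 0) (x 1) (x 2) :=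
    sum_perm (fun x => g (x 0) (x 1) (x 2)) ![0, 1, 3, 2, 4, 5] (by decide)
  have h2 : ∑ x : Fin 6 → V, g (x 0) (x 2) (x 3) = ∑ x : Fin 6 → V, g (x 0) (x 1) (x 2) :=
    sum_perm (fun x => g (x 0) (x 1) (x 2)) ![0, 2, 3, 1, 4, 5] (by decide)
  have h3 : ∑ x : Fin 6 → V, g (x 1) (x 2) (x 3) = ∑ x : Fin 6 → V, g (x 0) (x 1) (x 2) :=
    sum_perm (fun x => g (x 0) (x 1) (x 2)) ![1, 2, 3, 0, 4, 5] (by decide)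
  have h4 : ∑ x : Fin 6 → V, g (x 0) (x 1) (x 4) = ∑ x : Fin 6 → V, g (x 0) (x 1) (x 2) :=
    sum_perm (fun x => g (x 0) (x 1) (x 2)) ![0, 1, 4, 2, 3, 5] (by decide)
  have h5 : ∑ x : Fin 6 → V, g (x 0) (x 2) (x 4) = ∑ x : Fin 6 → V, g (x 0) (x 1) (x 2) :=
    sum_perm (fun x => g (x 0) (x 1) (x 2)) ![0, 2, 4, 1, 3, 5] (by decide)
  have h6 : ∑ x : Fin 6 → V, g (x 1) (x 2) (x 4) = ∑ x : Fin 6 → V, g (x 0) (x 1) (x 2) :=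
    sum_perm (fun x => g (x 0) (x 1) (x 2)) ![1, 2, 4, 0, 3, 5] (by decide)
  have h7 : ∑ x : Fin 6 → V, g (x 0) (x 3) (x 4) = ∑ x : Fin 6 → V, g (x 0) (x 1) (x 2) :=
    sum_perm (fun x => g (x 0) (x 1) (x 2)) ![0, 3, 4, 1, 2, 5] (by decide)
  have h8 : ∑ x : Fin 6 → V, g (x 1) (x 3) (x 4) = ∑ x : Fin 6 → V, g (x 0) (x 1) (x 2) :=
    sum_perm (fun x => g (x 0) (x 1) (x 2)) ![1, 3, 4, 0, 2, 5] (by decide)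
  have h9 : ∑ x : Fin 6 → V, g (x 2) (x 3) (x 4) = ∑ x : Fin 6 → V, g (x 0) (x 1) (x 2) :=
    sum_perm (fun x => g (x 0) (x 1) (x 2)) ![2, 3, 4, 0, 1, 5] (by decide)
  have h10 : ∑ x : Fin 6 → V, g (x 0) (x 1) (x 5) = ∑ x : Fin 6 → V, g (x 0) (x 1) (x 2) :=
    sum_perm (fun x => g (x 0) (x 1) (x 2)) ![0, 1, 5, 2, 3, 4] (by decide)
  have h11 : ∑ x : Fin 6 → V, g (x 0) (x 2) (x 5) = ∑ x : Fin 6 → V, g (x 0) (x 1) (x 2) :=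
    sum_perm (fun x => g (x 0) (x 1) (x 2)) ![0, 2, 5, 1, 3, 4] (by decide)
  have h12 : ∑ x : Fin 6 → V, g (x 1) (x 2) (x 5) = ∑ x : Fin 6 → V, g (x 0) (x 1) (x 2) :=
    sum_perm (fun x => g (x 0) (x 1) (x 2)) ![1, 2, 5, 0, 3, 4] (by decide)
  have h13 : ∑ x : Fin 6 → V, g (x 0) (x 3) (x 5) = ∑ x : Fin 6 → V, g (x 0) (x 1) (x 2) :=
    sum_perm (fun x => g (x 0) (x 1) (x 2)) ![0, 3, 5, 1, 2, 4] (by decide)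
  have h14 : ∑ x : Fin 6 → V, g (x 1) (x 3) (x 5) = ∑ x : Fin 6 → V, g (x 0) (x 1) (x 2) :=
    sum_perm (fun x => g (x 0) (x 1) (x 2)) ![1, 3, 5, 0, 2, 4] (by decide)
  have h15 : ∑ x : Fin 6 → V, g (x 2) (x 3) (x 5) = ∑ x : Fin 6 → V, g (x 0) (x 1) (x 2) :=
    sum_perm (fun x => g (x 0) (x 1) (x 2)) ![2, 3, 5, 0, 1, 4] (by decide)
  have h16 : ∑ x : Fin 6 → V, g (x 0) (x 4) (x 5) = ∑ x : Fin 6 → V, g (x 0) (x 1) (x 2) :=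
    sum_perm (fun x => g (x 0) (x 1) (x 2)) ![0, 4, 5, 1, 2, 3] (by decide)
  have h17 : ∑ x : Fin 6 → V, g (x 1) (x 4) (x 5) = ∑ x : Fin 6 → V, g (x 0) (x 1) (x 2) :=
    sum_perm (fun x => g (x 0) (x 1) (x 2)) ![1, 4, 5, 0, 2, 3] (by decide)
  have h18 : ∑ x : Fin 6 → V, g (x 2) (x 4) (x 5) = ∑ x : Fin 6 → V, g (x 0) (x 1) (x 2) :=
    sum_perm (fun x => g (x 0) (x 1) (x 2)) ![2, 4, 5, 0, 1, 3] (by decide)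
  have h19 : ∑ x : Fin 6 → V, g (x 3) (x 4) (x 5) = ∑ x : Fin 6 → V, g (x 0) (x 1) (x 2) :=
    sum_perm (fun x => g (x 0) (x 1) (x 2)) ![3, 4, 5, 0, 1, 2] (by decide)
  simp only [ES, Nat.add_eq, Finset.sum_add_distrib, h1, h2, h3, h4, h5, h6, h7, h8, h9, h10, h11, h12, h13, h14, h15, h16, h17, h18, h19]
  ring

theorem sum_PS (h : ℕ → ℕ) (g : V → V → V → ℕ) :
    ∑ x : Fin 6 → V, PS h g (x 0) (x 1) (x 2) (x 3) (x 4) (x 5)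
      = 15 * ∑ x : Fin 6 → V, h (ix4 (g (x 0) (x 1) (x 2)) (g (x 0) (x 1) (x 3)) (g (x 0) (x 2) (x 3)) (g (x 1) (x 2) (x 3))) := by
  have h0 : ∑ x : Fin 6 → V, h (ix4 (g (x 0) (x 1) (x 2)) (g (x 0) (x 1) (x 3)) (g (x 0) (x 2) (x 3)) (g (x 1) (x 2) (x 3))) = ∑ x : Fin 6 → V, h (ix4 (g (x 0) (x 1) (x 2)) (g (x 0) (x 1) (x 3)) (g (x 0) (x 2) (x 3)) (g (x 1) (x 2) (x 3))) :=
    sum_perm (fun x => h (ix4 (g (x 0) (x 1) (x 2)) (g (x 0) (x 1) (x 3)) (g (x 0) (x 2) (x 3)) (g (x 1) (x 2) (x 3)))) ![0, 1, 2, 3, 4, 5] (by decide)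
  have h1 : ∑ x : Fin 6 → V, h (ix4 (g (x 0) (x 1) (x 2)) (g (x 0) (x 1) (x 4)) (g (x 0) (x 2) (x 4)) (g (x 1) (x 2) (x 4))) = ∑ x : Fin 6 → V, h (ix4 (g (x 0) (x 1) (x 2)) (g (x 0) (x 1) (x 3)) (g (x 0) (x 2) (x 3)) (g (x 1) (x 2) (x 3))) :=
    sum_perm (fun x => h (ix4 (g (x 0) (x 1) (x 2)) (g (x 0) (x 1) (x 3)) (g (x 0) (x 2) (x 3)) (g (x 1) (x 2) (x 3)))) ![0, 1, 2, 4, 3, 5] (by decide)
  have h2 : ∑ x : Fin 6 → V, h (ix4 (g (x 0) (x 1) (x 2)) (g (x 0) (x 1) (x 5)) (g (x 0) (x 2) (x 5)) (g (x 1) (x 2) (x 5))) = ∑ x : Fin 6 → V, h (ix4 (g (x 0) (x 1) (x 2)) (g (x 0) (x 1) (x 3)) (g (x 0) (x 2) (x 3)) (g (x 1) (x 2) (x 3))) :=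
    sum_perm (fun x => h (ix4 (g (x 0) (x 1) (x 2)) (g (x 0) (x 1) (x 3)) (g (x 0) (x 2) (x 3)) (g (x 1) (x 2) (x 3)))) ![0, 1, 2, 5, 3, 4] (by decide)
  have h3 : ∑ x : Fin 6 → V, h (ix4 (g (x 0) (x 1) (x 3)) (g (x 0) (x 1) (x 4)) (g (x 0) (x 3) (x 4)) (g (x 1) (x 3) (x 4))) = ∑ x : Fin 6 → V, h (ix4 (g (x 0) (x 1) (x 2)) (g (x 0) (x 1) (x 3)) (g (x 0) (x 2) (x 3)) (g (x 1) (x 2) (x 3))) :=
    sum_perm (fun x => h (ix4 (g (x 0) (x 1) (x 2)) (g (x 0) (x 1) (x 3)) (g (x 0) (x 2) (x 3)) (g (x 1) (x 2) (x 3)))) ![0, 1, 3, 4, 2, 5] (by decide)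
  have h4 : ∑ x : Fin 6 → V, h (ix4 (g (x 0) (x 1) (x 3)) (g (x 0) (x 1) (x 5)) (g (x 0) (x 3) (x 5)) (g (x 1) (x 3) (x 5))) = ∑ x : Fin 6 → V, h (ix4 (g (x 0) (x 1) (x 2)) (g (x 0) (x 1) (x 3)) (g (x 0) (x 2) (x 3)) (g (x 1) (x 2) (x 3))) :=
    sum_perm (fun x => h (ix4 (g (x 0) (x 1) (x 2)) (g (x 0) (x 1) (x 3)) (g (x 0) (x 2) (x 3)) (g (x 1) (x 2) (x 3)))) ![0, 1, 3, 5, 2, 4] (by decide)
  have h5 : ∑ x : Fin 6 → V, h (ix4 (g (x 0) (x 1) (x 4)) (g (x 0) (x 1) (x 5)) (g (x 0) (x 4) (x 5)) (g (x 1) (x 4) (x 5))) = ∑ x : Fin 6 → V, h (ix4 (g (x 0) (x 1) (x 2)) (g (x 0) (x 1) (x 3)) (g (x 0) (x 2) (x 3)) (g (x 1) (x 2) (x 3))) :=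
    sum_perm (fun x => h (ix4 (g (x 0) (x 1) (x 2)) (g (x 0) (x 1) (x 3)) (g (x 0) (x 2) (x 3)) (g (x 1) (x 2) (x 3)))) ![0, 1, 4, 5, 2, 3] (by decide)
  have h6 : ∑ x : Fin 6 → V, h (ix4 (g (x 0) (x 2) (x 3)) (g (x 0) (x 2) (x 4)) (g (x 0) (x 3) (x 4)) (g (x 2) (x 3) (x 4))) = ∑ x : Fin 6 → V, h (ix4 (g (x 0) (x 1) (x 2)) (g (x 0) (x 1) (x 3)) (g (x 0) (x 2) (x 3)) (g (x 1) (x 2) (x 3))) :=
    sum_perm (fun x => h (ix4 (g (x 0) (x 1) (x 2)) (g (x 0) (x 1) (x 3)) (g (x 0) (x 2) (x 3)) (g (x 1) (x 2) (x 3)))) ![0, 2, 3, 4, 1, 5] (by decide)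
  have h7 : ∑ x : Fin 6 → V, h (ix4 (g (x 0) (x 2) (x 3)) (g (x 0) (x 2) (x 5)) (g (x 0) (x 3) (x 5)) (g (x 2) (x 3) (x 5))) = ∑ x : Fin 6 → V, h (ix4 (g (x 0) (x 1) (x 2)) (g (x 0) (x 1) (x 3)) (g (x 0) (x 2) (x 3)) (g (x 1) (x 2) (x 3))) :=
    sum_perm (fun x => h (ix4 (g (x 0) (x 1) (x 2)) (g (x 0) (x 1) (x 3)) (g (x 0) (x 2) (x 3)) (g (x 1) (x 2) (x 3)))) ![0, 2, 3, 5, 1, 4] (by decide)
  have h8 : ∑ x : Fin 6 → V, h (ix4 (g (x 0) (x 2) (x 4)) (g (x 0) (x 2) (x 5)) (g (x 0) (x 4) (x 5)) (g (x 2) (x 4) (x 5))) = ∑ x : Fin 6 → V, h (ix4 (g (x 0) (x 1) (x 2)) (g (x 0) (x 1) (x 3)) (g (x 0) (x 2) (x 3)) (g (x 1) (x 2) (x 3))) :=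
    sum_perm (fun x => h (ix4 (g (x 0) (x 1) (x 2)) (g (x 0) (x 1) (x 3)) (g (x 0) (x 2) (x 3)) (g (x 1) (x 2) (x 3)))) ![0, 2, 4, 5, 1, 3] (by decide)
  have h9 : ∑ x : Fin 6 → V, h (ix4 (g (x 0) (x 3) (x 4)) (g (x 0) (x 3) (x 5)) (g (x 0) (x 4) (x 5)) (g (x 3) (x 4) (x 5))) = ∑ x : Fin 6 → V, h (ix4 (g (x 0) (x 1) (x 2)) (g (x 0) (x 1) (x 3)) (g (x 0) (x 2) (x 3)) (g (x 1) (x 2) (x 3))) :=
    sum_perm (fun x => h (ix4 (g (x 0) (x 1) (x 2)) (g (x 0) (x 1) (x 3)) (g (x 0) (x 2) (x 3)) (g (x 1) (x 2) (x 3)))) ![0, 3, 4, 5, 1, 2] (by decide)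
  have h10 : ∑ x : Fin 6 → V, h (ix4 (g (x 1) (x 2) (x 3)) (g (x 1) (x 2) (x 4)) (g (x 1) (x 3) (x 4)) (g (x 2) (x 3) (x 4))) = ∑ x : Fin 6 → V, h (ix4 (g (x 0) (x 1) (x 2)) (g (x 0) (x 1) (x 3)) (g (x 0) (x 2) (x 3)) (g (x 1) (x 2) (x 3))) :=
    sum_perm (fun x => h (ix4 (g (x 0) (x 1) (x 2)) (g (x 0) (x 1) (x 3)) (g (x 0) (x 2) (x 3)) (g (x 1) (x 2) (x 3)))) ![1, 2, 3, 4, 0, 5] (by decide)
  have h11 : ∑ x : Fin 6 → V, h (ix4 (g (x 1) (x 2) (x 3)) (g (x 1) (x 2) (x 5)) (g (x 1) (x 3) (x 5)) (g (x 2) (x 3) (x 5))) = ∑ x : Fin 6 → V, h (ix4 (g (x 0) (x 1) (x 2)) (g (x 0) (x 1) (x 3)) (g (x 0) (x 2) (x 3)) (g (x 1) (x 2) (x 3))) :=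
    sum_perm (fun x => h (ix4 (g (x 0) (x 1) (x 2)) (g (x 0) (x 1) (x 3)) (g (x 0) (x 2) (x 3)) (g (x 1) (x 2) (x 3)))) ![1, 2, 3, 5, 0, 4] (by decide)
  have h12 : ∑ x : Fin 6 → V, h (ix4 (g (x 1) (x 2) (x 4)) (g (x 1) (x 2) (x 5)) (g (x 1) (x 4) (x 5)) (g (x 2) (x 4) (x 5))) = ∑ x : Fin 6 → V, h (ix4 (g (x 0) (x 1) (x 2)) (g (x 0) (x 1) (x 3)) (g (x 0) (x 2) (x 3)) (g (x 1) (x 2) (x 3))) :=
    sum_perm (fun x => h (ix4 (g (x 0) (x 1) (x 2)) (g (x 0) (x 1) (x 3)) (g (x 0) (x 2) (x 3)) (g (x 1) (x 2) (x 3)))) ![1, 2, 4, 5, 0, 3] (by decide)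
  have h13 : ∑ x : Fin 6 → V, h (ix4 (g (x 1) (x 3) (x 4)) (g (x 1) (x 3) (x 5)) (g (x 1) (x 4) (x 5)) (g (x 3) (x 4) (x 5))) = ∑ x : Fin 6 → V, h (ix4 (g (x 0) (x 1) (x 2)) (g (x 0) (x 1) (x 3)) (g (x 0) (x 2) (x 3)) (g (x 1) (x 2) (x 3))) :=
    sum_perm (fun x => h (ix4 (g (x 0) (x 1) (x 2)) (g (x 0) (x 1) (x 3)) (g (x 0) (x 2) (x 3)) (g (x 1) (x 2) (x 3)))) ![1, 3, 4, 5, 0, 2] (by decide)
  have h14 : ∑ x : Fin 6 → V, h (ix4 (g (x 2) (x 3) (x 4)) (g (x 2) (x 3) (x 5)) (g (x 2) (x 4) (x 5)) (g (x 3) (x 4) (x 5))) = ∑ x : Fin 6 → V, h (ix4 (g (x 0) (x 1) (x 2)) (g (x 0) (x 1) (x 3)) (g (x 0) (x 2) (x 3)) (g (x 1) (x 2) (x 3))) :=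
    sum_perm (fun x => h (ix4 (g (x 0) (x 1) (x 2)) (g (x 0) (x 1) (x 3)) (g (x 0) (x 2) (x 3)) (g (x 1) (x 2) (x 3)))) ![2, 3, 4, 5, 0, 1] (by decide)
  simp only [PS, Nat.add_eq, Finset.sum_add_distrib, h1, h2, h3, h4, h5, h6, h7, h8, h9, h10, h11, h12, h13, h14]
  ring

/-- the number of ordered edges -/
def EE (g : V → V → V → ℕ) : ℕ := ∑ a, ∑ b, ∑ c, g a b c

theorem sum_ES_eq (g : V → V → V → ℕ) :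
    ∑ x : Fin 6 → V, ES g (x 0) (x 1) (x 2) (x 3) (x 4) (x 5)
      = 20 * (Fintype.card V ^ 3 * EE g) := by
  rw [sum_ES, sum_fin6 (fun a b c _ _ _ => g a b c)]
  simp only [Finset.sum_const, Finset.card_univ, smul_eq_mul, EE]
  simp only [← Finset.mul_sum]
  ring

theorem sum_Kt_ge (K : ℕ → ℕ → ℕ → ℕ) (g : V → V → V → ℕ) (hb : ∀ a b c, g a b c < 2) (off : ℕ)
    (hK : ∀ τ < 16, ∀ F : V → ℕ, (∀ u, F u < 64) →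
      (off : ℤ) * (Fintype.card V : ℤ) ^ 2 ≤ ∑ u, ∑ v, (K τ (F u) (F v) : ℤ)) :
    (off : ℤ) * (Fintype.card V : ℤ) ^ 6
      ≤ ((∑ x : Fin 6 → V, Kt K g (x 0) (x 1) (x 2) (x 3) (x 4) (x 5) : ℕ) : ℤ) := by
  rw [sum_fin6 (fun a b c d e f => Kt K g a b c d e f)]
  push_cast
  have h1 : ∀ a b c d : V, (off : ℤ) * (Fintype.card V : ℤ) ^ 2
      ≤ ∑ e, ∑ f, (Kt K g a b c d e f : ℤ) := by
    intro a b c d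
    have := hK (ix4 (g a b c) (g a b d) (g a c d) (g b c d))
      (by
        have h1 := hb a b c
        have h2 := hb a b d
        have h3 := hb a c d
        have h4 := hb b c d
        simp only [ix4, Nat.add_eq, Nat.mul_eq]
        omega)
      (fun u => ix6 (g a b u) (g a c u) (g b c u) (g a d u) (g b d u) (g c d u))
      (by
        intro u
        have h1 := hb a b u
        have h2 := hb a c u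
        have h3 := hb b c u
        have h4 := hb a d u
        have h5 := hb b d u
        have h6 := hb c d u
        simp only [ix6, Nat.add_eq, Nat.mul_eq]
        omega)
    exact this
  have h2 : ∑ _a : V, ∑ _b : V, ∑ _c : V, ∑ _d : V, (off : ℤ) * (Fintype.card V : ℤ) ^ 2
      ≤ ∑ a, ∑ b, ∑ c, ∑ d, ∑ e, ∑ f, (Kt K g a b c d e f : ℤ) :=
    Finset.sum_le_sum (fun a _ => Finset.sum_le_sum (fun b _ => Finset.sum_le_sum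
      (fun c _ => Finset.sum_le_sum (fun d _ => h1 a b c d))))
  refine le_trans (le_of_eq ?_) h2
  simp only [Finset.sum_const, Finset.card_univ, nsmul_eq_mul]
  ring

theorem sum_Mt_ge (M : ℕ → ℕ → ℕ) (g : V → V → V → ℕ) (hb : ∀ a b c, g a b c < 2) (off : ℕ)
    (hM : ∀ F : V × V → ℕ, (∀ u, F u < 16) →
      (off : ℤ) * (Fintype.card V : ℤ) ^ 4 ≤ ∑ u, ∑ v, (M (F u) (F v) : ℤ)) :
    (off : ℤ) * (Fintype.card V : ℤ) ^ 6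
      ≤ ((∑ x : Fin 6 → V, Mt M g (x 0) (x 1) (x 2) (x 3) (x 4) (x 5) : ℕ) : ℤ) := by
  rw [sum_fin6 (fun a b c d e f => Mt M g a b c d e f)]
  push_cast
  have h1 : ∀ a b : V, (off : ℤ) * (Fintype.card V : ℤ) ^ 4
      ≤ ∑ c, ∑ d, ∑ e, ∑ f, (Mt M g a b c d e f : ℤ) := by
    intro a b
    have := hM (fun p => ix4 (g a b p.1) (g a b p.2) (g a p.1 p.2) (g b p.1 p.2))
      (by
        intro u
        have h1 := hb a b u.1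
        have h2 := hb a b u.2
        have h3 := hb a u.1 u.2
        have h4 := hb b u.1 u.2
        simp only [ix4, Nat.add_eq, Nat.mul_eq]
        omega)
    rw [Fintype.sum_prod_type] at this
    refine le_trans this (le_of_eq ?_)
    refine Finset.sum_congr rfl (fun c _ => Finset.sum_congr rfl (fun d _ => ?_))
    rw [Fintype.sum_prod_type]
    rfl
  have h2 : ∑ _a : V, ∑ _b : V, (off : ℤ) * (Fintype.card V : ℤ) ^ 4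
      ≤ ∑ a, ∑ b, ∑ c, ∑ d, ∑ e, ∑ f, (Mt M g a b c d e f : ℤ) :=
    Finset.sum_le_sum (fun a _ => Finset.sum_le_sum (fun b _ => h1 a b))
  refine le_trans (le_of_eq ?_) h2
  simp only [Finset.sum_const, Finset.card_univ, nsmul_eq_mul]
  ring

end Pool.Agent.H6Turan
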