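import Pool.Agent.H6Turan.Core

set_option autoImplicit false
set_option linter.unusedSimpArgs false
set_option linter.unusedVariables false
set_option maxHeartbeats 4000000

/-!
# Symmetric sums over the 15 four-subsets and the 45 pair patterns of a six-tuple
(generated file)
-/

namespace Pool.Agent.H6Turan

def ix4 (b0 b1 b2 b3 : ℕ) : ℕ :=
  Nat.add b0 (Nat.add (Nat.mul 2 b1) (Nat.add (Nat.mul 4 b2) (Nat.mul 8 b3)))

def ix6 (b0 b1 b2 b3 b4 b5 : ℕ) : ℕ :=
  Nat.add b0 (Nat.add (Nat.mul 2 b1) (Nat.add (Nat.mul 4 b2) (Nat.add (Nat.mul 8 b3)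
    (Nat.add (Nat.mul 16 b4) (Nat.mul 32 b5)))))

variable {V : Type*}

/-- the value of the table `K` at the pattern of `(a,b,c,d;u,v)` -/
def Kt (K : ℕ → ℕ → ℕ → ℕ) (g : V → V → V → ℕ) (a b c d u v : V) : ℕ :=
  K (ix4 (g a b c) (g a b d) (g a c d) (g b c d))
    (ix6 (g a b u) (g a c u) (g b c u) (g a d u) (g b d u) (g c d u))
    (ix6 (g a b v) (g a c v) (g b c v) (g a d v) (g b d v) (g c d v))

/-- the value of the table `M` at the pattern of `(a,b;c,d;e,f)` -/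
def Mt (M : ℕ → ℕ → ℕ) (g : V → V → V → ℕ) (a b c d e f : V) : ℕ :=
  M (ix4 (g a b c) (g a b d) (g a c d) (g b c d)) (ix4 (g a b e) (g a b f) (g a e f) (g b e f))

/-- sum of `K` over the 15 four-subsets of the six-tuple -/
def KS (K : ℕ → ℕ → ℕ → ℕ) (g : V → V → V → ℕ) (a b c d e f : V) : ℕ :=
  Nat.add (Nat.add (Nat.add (Kt K g a b c d e f) (Nat.add (Kt K g a b c e d f) (Kt K g a b c f d e))) (Nat.add (Nat.add (Kt K g a b d e c f) (Kt K g a b d f c e)) (Nat.add (Kt K g a b e f c d) (Kt K g a c d e b f)))) (Nat.add (Nat.add (Nat.add (Kt K g a c d f b e) (Kt K g a c e f b d)) (Nat.add (Kt K g a d e f b c) (Kt K g b c d e a f))) (Nat.add (Nat.add (Kt K g b c d f a e) (Kt K g b c e f a d)) (Nat.add (Kt K g b d e f a c) (Kt K g c d e f a b))))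

/-- sum of `M` over the 45 patterns `(pair; pair, pair)` of the six-tuple -/
def MS (M : ℕ → ℕ → ℕ) (g : V → V → V → ℕ) (a b c d e f : V) : ℕ :=
  Nat.add (Nat.add (Nat.add (Nat.add (Nat.add (Mt M g a b c d e f) (Mt M g a b c e d f)) (Nat.add (Mt M g a b c f d e) (Nat.add (Mt M g a c b d e f) (Mt M g a c b e d f)))) (Nat.add (Nat.add (Mt M g a c b f d e) (Nat.add (Mt M g a d b c e f) (Mt M g a d b e c f))) (Nat.add (Mt M g a d b f c e) (Nat.add (Mt M g a e b c d f) (Mt M g a e b d c f))))) (Nat.add (Nat.add (Nat.add (Mt M g a e b f c d) (Mt M g a f b c d e)) (Nat.add (Mt M g a f b d c e) (Nat.add (Mt M g a f b e c d) (Mt M g b c a d e f)))) (Nat.add (Nat.add (Mt M g b c a e d f) (Nat.add (Mt M g b c a f d e) (Mt M g b d a c e f))) (Nat.add (Mt M g b d a e c f) (Nat.add (Mt M g b d a f c e) (Mt M g b e a c d f)))))) (Nat.add (Nat.add (Nat.add (Nat.add (Mt M g b e a d c f) (Mt M g b e a f c d)) (Nat.add (Mt M g b f a c d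 e) (Nat.add (Mt M g b f a d c e) (Mt M g b f a e c d)))) (Nat.add (Nat.add (Mt M g c d a b e f) (Nat.add (Mt M g c d a e b f) (Mt M g c d a f b e))) (Nat.add (Mt M g c e a b d f) (Nat.add (Mt M g c e a d b f) (Mt M g c e a f b d))))) (Nat.add (Nat.add (Nat.add (Mt M g c f a b d e) (Nat.add (Mt M g c f a d b e) (Mt M g c f a e b d))) (Nat.add (Mt M g d e a b c f) (Nat.add (Mt M g d e a c b f) (Mt M g d e a f b c)))) (Nat.add (Nat.add (Mt M g d f a b c e) (Nat.add (Mt M g d f a c b e) (Mt M g d f a e b c))) (Nat.add (Mt M g e f a b c d) (Nat.add (Mt M g e f a c b d) (Mt M g e f a d b c))))))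

/-- number of edges inside the six-tuple -/
def ES (g : V → V → V → ℕ) (a b c d e f : V) : ℕ :=
  Nat.add (Nat.add (Nat.add (Nat.add (g a b c) (g a b d)) (Nat.add (g a c d) (Nat.add (g b c d) (g a b e)))) (Nat.add (Nat.add (g a c e) (g b c e)) (Nat.add (g a d e) (Nat.add (g b d e) (g c d e))))) (Nat.add (Nat.add (Nat.add (g a b f) (g a c f)) (Nat.add (g b c f) (Nat.add (g a d f) (g b d f)))) (Nat.add (Nat.add (g c d f) (g a e f)) (Nat.add (g b e f) (Nat.add (g c e f) (g d e f)))))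

/-- sum over the 15 four-subsets of a function of the pattern on the subset -/
def PS (h : ℕ → ℕ) (g : V → V → V → ℕ) (a b c d e f : V) : ℕ :=
  Nat.add (Nat.add (Nat.add (h (ix4 (g a b c) (g a b d) (g a c d) (g b c d))) (Nat.add (h (ix4 (g a b c) (g a b e) (g a c e) (g b c e))) (h (ix4 (g a b c) (g a b f) (g a c f) (g b c f))))) (Nat.add (Nat.add (h (ix4 (g a b d) (g a b e) (g a d e) (g b d e))) (h (ix4 (g a b d) (g a b f) (g a d f) (g b d f)))) (Nat.add (h (ix4 (g a b e) (g a b f) (g a e f) (g b e f))) (h (ix4 (g a c d) (g a c e) (g a d e) (g c d e)))))) (Nat.add (Nat.add (Nat.add (h (ix4 (g a c d) (g a c f) (g a d f) (g c d f))) (h (ix4 (g a c e) (g a c f) (g a e f) (g c e f)))) (Nat.add (h (ix4 (g a d e) (g a d f) (g a e f) (g d e f))) (h (ix4 (g b c d) (g b c e) (g b d e) (g c d e))))) (Nat.add (Nat.add (h (ix4 (g b c d) (g b c f) (g b d f) (g c d f))) (h (ix4 (g b c e) (g b c f) (g b e f) (g c e f)))) (Nat.add (h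 (ix4 (g b d e) (g b d f) (g b e f) (g d e f))) (h (ix4 (g c d e) (g c d f) (g c e f) (g d e f))))))

def KB (K : ℕ → ℕ → ℕ → ℕ) (b012 b013 b023 b123 b014 b024 b124 b034 b134 b234 b015 b025 b125 b035 b135 b235 b045 b145 b245 b345 : ℕ) : ℕ :=
  Nat.add (Nat.add (Nat.add (K (ix4 b012 b013 b023 b123) (ix6 b014 b024 b124 b034 b134 b234) (ix6 b015 b025 b125 b035 b135 b235)) (Nat.add (K (ix4 b012 b014 b024 b124) (ix6 b013 b023 b123 b034 b134 b234) (ix6 b015 b025 b125 b045 b145 b245)) (K (ix4 b012 b015 b025 b125) (ix6 b013 b023 b123 b035 b135 b235) (ix6 b014 b024 b124 b045 b145 b245)))) (Nat.add (Nat.add (K (ix4 b013 b014 b034 b134) (ix6 b012 b023 b123 b024 b124 b234) (ix6 b015 b035 b135 b045 b145 b345)) (K (ix4 b013 b015 b035 b135) (ix6 b012 b023 b123 b025 b125 b235) (ix6 b014 b034 b134 b045 b145 b345))) (Nat.add (K (ix4 b014 b015 b045 b145) (ix6 b012 b024 b124 b025 b125 b245) (ix6 b013 b034 b134 b035 b135 b345)) (K (ix4 b023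 b024 b034 b234) (ix6 b012 b013 b123 b014 b124 b134) (ix6 b025 b035 b235 b045 b245 b345))))) (Nat.add (Nat.add (Nat.add (K (ix4 b023 b025 b035 b235) (ix6 b012 b013 b123 b015 b125 b135) (ix6 b024 b034 b234 b045 b245 b345)) (K (ix4 b024 b025 b045 b245) (ix6 b012 b014 b124 b015 b125 b145) (ix6 b023 b034 b234 b035 b235 b345))) (Nat.add (K (ix4 b034 b035 b045 b345) (ix6 b013 b014 b134 b015 b135 b145) (ix6 b023 b024 b234 b025 b235 b245)) (K (ix4 b123 b124 b134 b234) (ix6 b012 b013 b023 b014 b024 b034) (ix6 b125 b135 b235 b145 b245 b345)))) (Nat.add (Nat.add (K (ix4 b123 b125 b135 b235) (ix6 b012 b013 b023 b015 b025 b035) (ix6 b124 b134 b234 b145 b245 b345)) (K (ix4 b124 b125 b145 b245) (ix6 b012 b014 b024 b015 b025 b045) (ix6 b123 b134 b234 b135 b235 b345))) (Nat.add (K (ix4 b134 b135 b145 b345) (ix6 b013 b014 b034 b015 b035 b045) (ix6 b123 b124 b234 b125 b235 b245)) (K (ix4 b234 b235 b245 b345) (ix6 b023 b024 b034 b025 b035 b045)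 (ix6 b123 b124 b134 b125 b135 b145)))))

def MB (M : ℕ → ℕ → ℕ) (b012 b013 b023 b123 b014 b024 b124 b034 b134 b234 b015 b025 b125 b035 b135 b235 b045 b145 b245 b345 : ℕ) : ℕ :=
  Nat.add (Nat.add (Nat.add (Nat.add (Nat.add (M (ix4 b012 b013 b023 b123) (ix4 b014 b015 b045 b145)) (M (ix4 b012 b014 b024 b124) (ix4 b013 b015 b035 b135))) (Nat.add (M (ix4 b012 b015 b025 b125) (ix4 b013 b014 b034 b134)) (Nat.add (M (ix4 b012 b023 b013 b123) (ix4 b024 b025 b045 b245)) (M (ix4 b012 b024 b014 b124) (ix4 b023 b025 b035 b235))))) (Nat.add (Nat.add (M (ix4 b012 b025 b015 b125) (ix4 b023 b024 b034 b234)) (Nat.add (M (ix4 b013 b023 b012 b123) (ix4 b034 b035 b045 b345)) (M (ix4 b013 b034 b014 b134) (ix4 b023 b035 b025 b235)))) (Nat.add (M (ix4 b013 b035 b015 b135) (ix4 b023 b034 b024 b234)) (Nat.add (M (ix4 b014 b024 b012 b124) (ix4 b034 b045 b035 b345)) (M (ix4 b014 b034 b013 b134) (ix4 b024 b045 b025 b245)))))) (Nat.add (Nat.add (Nat.add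 (M (ix4 b014 b045 b015 b145) (ix4 b024 b034 b023 b234)) (M (ix4 b015 b025 b012 b125) (ix4 b035 b045 b034 b345))) (Nat.add (M (ix4 b015 b035 b013 b135) (ix4 b025 b045 b024 b245)) (Nat.add (M (ix4 b015 b045 b014 b145) (ix4 b025 b035 b023 b235)) (M (ix4 b012 b123 b013 b023) (ix4 b124 b125 b145 b245))))) (Nat.add (Nat.add (M (ix4 b012 b124 b014 b024) (ix4 b123 b125 b135 b235)) (Nat.add (M (ix4 b012 b125 b015 b025) (ix4 b123 b124 b134 b234)) (M (ix4 b013 b123 b012 b023) (ix4 b134 b135 b145 b345)))) (Nat.add (M (ix4 b013 b134 b014 b034) (ix4 b123 b135 b125 b235)) (Nat.add (M (ix4 b013 b135 b015 b035) (ix4 b123 b134 b124 b234)) (M (ix4 b014 b124 b012 b024) (ix4 b134 b145 b135 b345))))))) (Nat.add (Nat.add (Nat.add (Nat.add (M (ix4 b014 b134 b013 b034) (ix4 b124 b145 b125 b245)) (M (ix4 b014 b145 b015 b045) (ix4 b124 b134 b123 b234))) (Nat.add (M (ix4 b015 b125 b012 b025) (ix4 b135 b145 b134 b345)) (Nat.add (M (ix4 b015 b135 b013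 b035) (ix4 b125 b145 b124 b245)) (M (ix4 b015 b145 b014 b045) (ix4 b125 b135 b123 b235))))) (Nat.add (Nat.add (M (ix4 b023 b123 b012 b013) (ix4 b234 b235 b245 b345)) (Nat.add (M (ix4 b023 b234 b024 b034) (ix4 b123 b235 b125 b135)) (M (ix4 b023 b235 b025 b035) (ix4 b123 b234 b124 b134)))) (Nat.add (M (ix4 b024 b124 b012 b014) (ix4 b234 b245 b235 b345)) (Nat.add (M (ix4 b024 b234 b023 b034) (ix4 b124 b245 b125 b145)) (M (ix4 b024 b245 b025 b045) (ix4 b124 b234 b123 b134)))))) (Nat.add (Nat.add (Nat.add (M (ix4 b025 b125 b012 b015) (ix4 b235 b245 b234 b345)) (Nat.add (M (ix4 b025 b235 b023 b035) (ix4 b125 b245 b124 b145)) (M (ix4 b025 b245 b024 b045) (ix4 b125 b235 b123 b135)))) (Nat.add (M (ix4 b034 b134 b013 b014) (ix4 b234 b345 b235 b245)) (Nat.add (M (ix4 b034 b234 b023 b024) (ix4 b134 b345 b135 b145)) (M (ix4 b034 b345 b035 b045) (ix4 b134 b234 b123 b124))))) (Nat.add (Nat.add (M (ix4 b035 b135 b013 b015) (ix4 b235 b345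 b234 b245)) (Nat.add (M (ix4 b035 b235 b023 b025) (ix4 b135 b345 b134 b145)) (M (ix4 b035 b345 b034 b045) (ix4 b135 b235 b123 b125)))) (Nat.add (M (ix4 b045 b145 b014 b015) (ix4 b245 b345 b234 b235)) (Nat.add (M (ix4 b045 b245 b024 b025) (ix4 b145 b345 b134 b135)) (M (ix4 b045 b345 b034 b035) (ix4 b145 b245 b124 b125)))))))

def EB (b012 b013 b023 b123 b014 b024 b124 b034 b134 b234 b015 b025 b125 b035 b135 b235 b045 b145 b245 b345 : ℕ) : ℕ :=
  Nat.add (Nat.add (Nat.add (Nat.add (b012) (b013)) (Nat.add (b023) (Nat.add (b123) (b014)))) (Nat.add (Nat.add (b024) (b124)) (Nat.add (b034) (Nat.add (b134) (b234))))) (Nat.add (Nat.add (Nat.add (b015) (b025)) (Nat.add (b125) (Nat.add (b035) (b135)))) (Nat.add (Nat.add (b235) (b045)) (Nat.add (b145) (Nat.add (b245) (b345)))))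

def PB (h : ℕ → ℕ) (b012 b013 b023 b123 b014 b024 b124 b034 b134 b234 b015 b025 b125 b035 b135 b235 b045 b145 b245 b345 : ℕ) : ℕ :=
  Nat.add (Nat.add (Nat.add (h (ix4 b012 b013 b023 b123)) (Nat.add (h (ix4 b012 b014 b024 b124)) (h (ix4 b012 b015 b025 b125)))) (Nat.add (Nat.add (h (ix4 b013 b014 b034 b134)) (h (ix4 b013 b015 b035 b135))) (Nat.add (h (ix4 b014 b015 b045 b145)) (h (ix4 b023 b024 b034 b234))))) (Nat.add (Nat.add (Nat.add (h (ix4 b023 b025 b035 b235)) (h (ix4 b024 b025 b045 b245))) (Nat.add (h (ix4 b034 b035 b045 b345)) (h (ix4 b123 b124 b134 b234)))) (Nat.add (Nat.add (h (ix4 b123 b125 b135 b235)) (h (ix4 b124 b125 b145 b245))) (Nat.add (h (ix4 b134 b135 b145 b345)) (h (ix4 b234 b235 b245 b345)))))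

/-- symmetry of the edge indicator -/
structure Symm3 (g : V → V → V → ℕ) : Prop where
  s12 : ∀ a b c, g b a c = g a b c
  s23 : ∀ a b c, g a c b = g a b c

theorem KS_eq_KB (K : ℕ → ℕ → ℕ → ℕ) (g : V → V → V → ℕ) (hg : Symm3 g) (a b c d e f : V) :
    KS K g a b c d e f = KB K (g a b c) (g a b d) (g a c d) (g b c d) (g a b e) (g a c e) (g b c e) (g a d e) (g b d e) (g c d e) (g a b f) (g a c f) (g b c f) (g a d f) (g b d f) (g c d f) (g a e f) (g b e f) (g c e f) (g d e f) := by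
  have r0 : g a c b = g a b c := hg.s23 a b c
  have r1 : g b a c = g a b c := hg.s12 a b c
  have r2 : g b c a = g a b c := (hg.s23 b a c).trans (hg.s12 a b c)
  have r3 : g c a b = g a b c := (hg.s12 a c b).trans (hg.s23 a b c)
  have r4 : g c b a = g a b c := (hg.s12 b c a).trans ((hg.s23 b a c).trans (hg.s12 a b c))
  have r5 : g a d b = g a b d := hg.s23 a b d
  have r6 : g b a d = g a b d := hg.s12 a b d
  have r7 : g b d a = g a b d := (hg.s23 b a d).trans (hg.s12 a b d)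
  have r8 : g d a b = g a b d := (hg.s12 a d b).trans (hg.s23 a b d)
  have r9 : g d b a = g a b d := (hg.s12 b d a).trans ((hg.s23 b a d).trans (hg.s12 a b d))
  have r10 : g a d c = g a c d := hg.s23 a c d
  have r11 : g c a d = g a c d := hg.s12 a c d
  have r12 : g c d a = g a c d := (hg.s23 c a d).trans (hg.s12 a c d)
  have r13 : g d a c = g a c d := (hg.s12 a d c).trans (hg.s23 a c d)
  have r14 : g d c a = g a c d := (hg.s12 c d a).trans ((hg.s23 c a d).trans (hg.s12 a c d))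
  have r15 : g b d c = g b c d := hg.s23 b c d
  have r16 : g c b d = g b c d := hg.s12 b c d
  have r17 : g c d b = g b c d := (hg.s23 c b d).trans (hg.s12 b c d)
  have r18 : g d b c = g b c d := (hg.s12 b d c).trans (hg.s23 b c d)
  have r19 : g d c b = g b c d := (hg.s12 c d b).trans ((hg.s23 c b d).trans (hg.s12 b c d))
  have r20 : g a e b = g a b e := hg.s23 a b e
  have r21 : g b a e = g a b e := hg.s12 a b e
  have r22 : g b e a = g a b e := (hg.s23 b a e).trans (hg.s12 a b e)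
  have r23 : g e a b = g a b e := (hg.s12 a e b).trans (hg.s23 a b e)
  have r24 : g e b a = g a b e := (hg.s12 b e a).trans ((hg.s23 b a e).trans (hg.s12 a b e))
  have r25 : g a e c = g a c e := hg.s23 a c e
  have r26 : g c a e = g a c e := hg.s12 a c e
  have r27 : g c e a = g a c e := (hg.s23 c a e).trans (hg.s12 a c e)
  have r28 : g e a c = g a c e := (hg.s12 a e c).trans (hg.s23 a c e)
  have r29 : g e c a = g a c e := (hg.s12 c e a).trans ((hg.s23 c a e).trans (hg.s12 a c e))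
  have r30 : g b e c = g b c e := hg.s23 b c e
  have r31 : g c b e = g b c e := hg.s12 b c e
  have r32 : g c e b = g b c e := (hg.s23 c b e).trans (hg.s12 b c e)
  have r33 : g e b c = g b c e := (hg.s12 b e c).trans (hg.s23 b c e)
  have r34 : g e c b = g b c e := (hg.s12 c e b).trans ((hg.s23 c b e).trans (hg.s12 b c e))
  have r35 : g a e d = g a d e := hg.s23 a d e
  have r36 : g d a e = g a d e := hg.s12 a d e
  have r37 : g d e a = g a d e := (hg.s23 d a e).trans (hg.s12 a d e)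
  have r38 : g e a d = g a d e := (hg.s12 a e d).trans (hg.s23 a d e)
  have r39 : g e d a = g a d e := (hg.s12 d e a).trans ((hg.s23 d a e).trans (hg.s12 a d e))
  have r40 : g b e d = g b d e := hg.s23 b d e
  have r41 : g d b e = g b d e := hg.s12 b d e
  have r42 : g d e b = g b d e := (hg.s23 d b e).trans (hg.s12 b d e)
  have r43 : g e b d = g b d e := (hg.s12 b e d).trans (hg.s23 b d e)
  have r44 : g e d b = g b d e := (hg.s12 d e b).trans ((hg.s23 d b e).trans (hg.s12 b d e))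
  have r45 : g c e d = g c d e := hg.s23 c d e
  have r46 : g d c e = g c d e := hg.s12 c d e
  have r47 : g d e c = g c d e := (hg.s23 d c e).trans (hg.s12 c d e)
  have r48 : g e c d = g c d e := (hg.s12 c e d).trans (hg.s23 c d e)
  have r49 : g e d c = g c d e := (hg.s12 d e c).trans ((hg.s23 d c e).trans (hg.s12 c d e))
  have r50 : g a f b = g a b f := hg.s23 a b f
  have r51 : g b a f = g a b f := hg.s12 a b f
  have r52 : g b f a = g a b f := (hg.s23 b a f).trans (hg.s12 a b f)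
  have r53 : g f a b = g a b f := (hg.s12 a f b).trans (hg.s23 a b f)
  have r54 : g f b a = g a b f := (hg.s12 b f a).trans ((hg.s23 b a f).trans (hg.s12 a b f))
  have r55 : g a f c = g a c f := hg.s23 a c f
  have r56 : g c a f = g a c f := hg.s12 a c f
  have r57 : g c f a = g a c f := (hg.s23 c a f).trans (hg.s12 a c f)
  have r58 : g f a c = g a c f := (hg.s12 a f c).trans (hg.s23 a c f)
  have r59 : g f c a = g a c f := (hg.s12 c f a).trans ((hg.s23 c a f).trans (hg.s12 a c f))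
  have r60 : g b f c = g b c f := hg.s23 b c f
  have r61 : g c b f = g b c f := hg.s12 b c f
  have r62 : g c f b = g b c f := (hg.s23 c b f).trans (hg.s12 b c f)
  have r63 : g f b c = g b c f := (hg.s12 b f c).trans (hg.s23 b c f)
  have r64 : g f c b = g b c f := (hg.s12 c f b).trans ((hg.s23 c b f).trans (hg.s12 b c f))
  have r65 : g a f d = g a d f := hg.s23 a d f
  have r66 : g d a f = g a d f := hg.s12 a d f
  have r67 : g d f a = g a d f := (hg.s23 d a f).trans (hg.s12 a d f)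
  have r68 : g f a d = g a d f := (hg.s12 a f d).trans (hg.s23 a d f)
  have r69 : g f d a = g a d f := (hg.s12 d f a).trans ((hg.s23 d a f).trans (hg.s12 a d f))
  have r70 : g b f d = g b d f := hg.s23 b d f
  have r71 : g d b f = g b d f := hg.s12 b d f
  have r72 : g d f b = g b d f := (hg.s23 d b f).trans (hg.s12 b d f)
  have r73 : g f b d = g b d f := (hg.s12 b f d).trans (hg.s23 b d f)
  have r74 : g f d b = g b d f := (hg.s12 d f b).trans ((hg.s23 d b f).trans (hg.s12 b d f))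
  have r75 : g c f d = g c d f := hg.s23 c d f
  have r76 : g d c f = g c d f := hg.s12 c d f
  have r77 : g d f c = g c d f := (hg.s23 d c f).trans (hg.s12 c d f)
  have r78 : g f c d = g c d f := (hg.s12 c f d).trans (hg.s23 c d f)
  have r79 : g f d c = g c d f := (hg.s12 d f c).trans ((hg.s23 d c f).trans (hg.s12 c d f))
  have r80 : g a f e = g a e f := hg.s23 a e f
  have r81 : g e a f = g a e f := hg.s12 a e f
  have r82 : g e f a = g a e f := (hg.s23 e a f).trans (hg.s12 a e f)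
  have r83 : g f a e = g a e f := (hg.s12 a f e).trans (hg.s23 a e f)
  have r84 : g f e a = g a e f := (hg.s12 e f a).trans ((hg.s23 e a f).trans (hg.s12 a e f))
  have r85 : g b f e = g b e f := hg.s23 b e f
  have r86 : g e b f = g b e f := hg.s12 b e f
  have r87 : g e f b = g b e f := (hg.s23 e b f).trans (hg.s12 b e f)
  have r88 : g f b e = g b e f := (hg.s12 b f e).trans (hg.s23 b e f)
  have r89 : g f e b = g b e f := (hg.s12 e f b).trans ((hg.s23 e b f).trans (hg.s12 b e f))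
  have r90 : g c f e = g c e f := hg.s23 c e f
  have r91 : g e c f = g c e f := hg.s12 c e f
  have r92 : g e f c = g c e f := (hg.s23 e c f).trans (hg.s12 c e f)
  have r93 : g f c e = g c e f := (hg.s12 c f e).trans (hg.s23 c e f)
  have r94 : g f e c = g c e f := (hg.s12 e f c).trans ((hg.s23 e c f).trans (hg.s12 c e f))
  have r95 : g d f e = g d e f := hg.s23 d e f
  have r96 : g e d f = g d e f := hg.s12 d e f
  have r97 : g e f d = g d e f := (hg.s23 e d f).trans (hg.s12 d e f)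
  have r98 : g f d e = g d e f := (hg.s12 d f e).trans (hg.s23 d e f)
  have r99 : g f e d = g d e f := (hg.s12 e f d).trans ((hg.s23 e d f).trans (hg.s12 d e f))
  simp only [KS, KB, Kt, r0, r1, r2, r3, r4, r5, r6, r7, r8, r9, r10, r11, r12, r13, r14, r15, r16, r17, r18, r19, r20, r21, r22, r23, r24, r25, r26, r27, r28, r29, r30, r31, r32, r33, r34, r35, r36, r37, r38, r39, r40, r41, r42, r43, r44, r45, r46, r47, r48, r49, r50, r51, r52, r53, r54, r55, r56, r57, r58, r59, r60, r61, r62, r63, r64, r65, r66, r67, r68, r69, r70, r71, r72, r73, r74, r75, r76, r77, r78, r79, r80, r81, r82, r83, r84, r85, r86, r87, r88, r89, r90, r91, r92, r93, r94, r95, r96, r97, r98, r99]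

theorem MS_eq_MB (M : ℕ → ℕ → ℕ) (g : V → V → V → ℕ) (hg : Symm3 g) (a b c d e f : V) :
    MS M g a b c d e f = MB M (g a b c) (g a b d) (g a c d) (g b c d) (g a b e) (g a c e) (g b c e) (g a d e) (g b d e) (g c d e) (g a b f) (g a c f) (g b c f) (g a d f) (g b d f) (g c d f) (g a e f) (g b e f) (g c e f) (g d e f) := by
  have r0 : g a c b = g a b c := hg.s23 a b c
  have r1 : g b a c = g a b c := hg.s12 a b c
  have r2 : g b c a = g a b c := (hg.s23 b a c).trans (hg.s12 a b c)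
  have r3 : g c a b = g a b c := (hg.s12 a c b).trans (hg.s23 a b c)
  have r4 : g c b a = g a b c := (hg.s12 b c a).trans ((hg.s23 b a c).trans (hg.s12 a b c))
  have r5 : g a d b = g a b d := hg.s23 a b d
  have r6 : g b a d = g a b d := hg.s12 a b d
  have r7 : g b d a = g a b d := (hg.s23 b a d).trans (hg.s12 a b d)
  have r8 : g d a b = g a b d := (hg.s12 a d b).trans (hg.s23 a b d)
  have r9 : g d b a = g a b d := (hg.s12 b d a).trans ((hg.s23 b a d).trans (hg.s12 a b d))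
  have r10 : g a d c = g a c d := hg.s23 a c d
  have r11 : g c a d = g a c d := hg.s12 a c d
  have r12 : g c d a = g a c d := (hg.s23 c a d).trans (hg.s12 a c d)
  have r13 : g d a c = g a c d := (hg.s12 a d c).trans (hg.s23 a c d)
  have r14 : g d c a = g a c d := (hg.s12 c d a).trans ((hg.s23 c a d).trans (hg.s12 a c d))
  have r15 : g b d c = g b c d := hg.s23 b c d
  have r16 : g c b d = g b c d := hg.s12 b c d
  have r17 : g c d b = g b c d := (hg.s23 c b d).trans (hg.s12 b c d)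
  have r18 : g d b c = g b c d := (hg.s12 b d c).trans (hg.s23 b c d)
  have r19 : g d c b = g b c d := (hg.s12 c d b).trans ((hg.s23 c b d).trans (hg.s12 b c d))
  have r20 : g a e b = g a b e := hg.s23 a b e
  have r21 : g b a e = g a b e := hg.s12 a b e
  have r22 : g b e a = g a b e := (hg.s23 b a e).trans (hg.s12 a b e)
  have r23 : g e a b = g a b e := (hg.s12 a e b).trans (hg.s23 a b e)
  have r24 : g e b a = g a b e := (hg.s12 b e a).trans ((hg.s23 b a e).trans (hg.s12 a b e))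
  have r25 : g a e c = g a c e := hg.s23 a c e
  have r26 : g c a e = g a c e := hg.s12 a c e
  have r27 : g c e a = g a c e := (hg.s23 c a e).trans (hg.s12 a c e)
  have r28 : g e a c = g a c e := (hg.s12 a e c).trans (hg.s23 a c e)
  have r29 : g e c a = g a c e := (hg.s12 c e a).trans ((hg.s23 c a e).trans (hg.s12 a c e))
  have r30 : g b e c = g b c e := hg.s23 b c e
  have r31 : g c b e = g b c e := hg.s12 b c e
  have r32 : g c e b = g b c e := (hg.s23 c b e).trans (hg.s12 b c e)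
  have r33 : g e b c = g b c e := (hg.s12 b e c).trans (hg.s23 b c e)
  have r34 : g e c b = g b c e := (hg.s12 c e b).trans ((hg.s23 c b e).trans (hg.s12 b c e))
  have r35 : g a e d = g a d e := hg.s23 a d e
  have r36 : g d a e = g a d e := hg.s12 a d e
  have r37 : g d e a = g a d e := (hg.s23 d a e).trans (hg.s12 a d e)
  have r38 : g e a d = g a d e := (hg.s12 a e d).trans (hg.s23 a d e)
  have r39 : g e d a = g a d e := (hg.s12 d e a).trans ((hg.s23 d a e).trans (hg.s12 a d e))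
  have r40 : g b e d = g b d e := hg.s23 b d e
  have r41 : g d b e = g b d e := hg.s12 b d e
  have r42 : g d e b = g b d e := (hg.s23 d b e).trans (hg.s12 b d e)
  have r43 : g e b d = g b d e := (hg.s12 b e d).trans (hg.s23 b d e)
  have r44 : g e d b = g b d e := (hg.s12 d e b).trans ((hg.s23 d b e).trans (hg.s12 b d e))
  have r45 : g c e d = g c d e := hg.s23 c d e
  have r46 : g d c e = g c d e := hg.s12 c d e
  have r47 : g d e c = g c d e := (hg.s23 d c e).trans (hg.s12 c d e)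
  have r48 : g e c d = g c d e := (hg.s12 c e d).trans (hg.s23 c d e)
  have r49 : g e d c = g c d e := (hg.s12 d e c).trans ((hg.s23 d c e).trans (hg.s12 c d e))
  have r50 : g a f b = g a b f := hg.s23 a b f
  have r51 : g b a f = g a b f := hg.s12 a b f
  have r52 : g b f a = g a b f := (hg.s23 b a f).trans (hg.s12 a b f)
  have r53 : g f a b = g a b f := (hg.s12 a f b).trans (hg.s23 a b f)
  have r54 : g f b a = g a b f := (hg.s12 b f a).trans ((hg.s23 b a f).trans (hg.s12 a b f))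
  have r55 : g a f c = g a c f := hg.s23 a c f
  have r56 : g c a f = g a c f := hg.s12 a c f
  have r57 : g c f a = g a c f := (hg.s23 c a f).trans (hg.s12 a c f)
  have r58 : g f a c = g a c f := (hg.s12 a f c).trans (hg.s23 a c f)
  have r59 : g f c a = g a c f := (hg.s12 c f a).trans ((hg.s23 c a f).trans (hg.s12 a c f))
  have r60 : g b f c = g b c f := hg.s23 b c f
  have r61 : g c b f = g b c f := hg.s12 b c f
  have r62 : g c f b = g b c f := (hg.s23 c b f).trans (hg.s12 b c f)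
  have r63 : g f b c = g b c f := (hg.s12 b f c).trans (hg.s23 b c f)
  have r64 : g f c b = g b c f := (hg.s12 c f b).trans ((hg.s23 c b f).trans (hg.s12 b c f))
  have r65 : g a f d = g a d f := hg.s23 a d f
  have r66 : g d a f = g a d f := hg.s12 a d f
  have r67 : g d f a = g a d f := (hg.s23 d a f).trans (hg.s12 a d f)
  have r68 : g f a d = g a d f := (hg.s12 a f d).trans (hg.s23 a d f)
  have r69 : g f d a = g a d f := (hg.s12 d f a).trans ((hg.s23 d a f).trans (hg.s12 a d f))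
  have r70 : g b f d = g b d f := hg.s23 b d f
  have r71 : g d b f = g b d f := hg.s12 b d f
  have r72 : g d f b = g b d f := (hg.s23 d b f).trans (hg.s12 b d f)
  have r73 : g f b d = g b d f := (hg.s12 b f d).trans (hg.s23 b d f)
  have r74 : g f d b = g b d f := (hg.s12 d f b).trans ((hg.s23 d b f).trans (hg.s12 b d f))
  have r75 : g c f d = g c d f := hg.s23 c d f
  have r76 : g d c f = g c d f := hg.s12 c d f
  have r77 : g d f c = g c d f := (hg.s23 d c f).trans (hg.s12 c d f)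
  have r78 : g f c d = g c d f := (hg.s12 c f d).trans (hg.s23 c d f)
  have r79 : g f d c = g c d f := (hg.s12 d f c).trans ((hg.s23 d c f).trans (hg.s12 c d f))
  have r80 : g a f e = g a e f := hg.s23 a e f
  have r81 : g e a f = g a e f := hg.s12 a e f
  have r82 : g e f a = g a e f := (hg.s23 e a f).trans (hg.s12 a e f)
  have r83 : g f a e = g a e f := (hg.s12 a f e).trans (hg.s23 a e f)
  have r84 : g f e a = g a e f := (hg.s12 e f a).trans ((hg.s23 e a f).trans (hg.s12 a e f))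
  have r85 : g b f e = g b e f := hg.s23 b e f
  have r86 : g e b f = g b e f := hg.s12 b e f
  have r87 : g e f b = g b e f := (hg.s23 e b f).trans (hg.s12 b e f)
  have r88 : g f b e = g b e f := (hg.s12 b f e).trans (hg.s23 b e f)
  have r89 : g f e b = g b e f := (hg.s12 e f b).trans ((hg.s23 e b f).trans (hg.s12 b e f))
  have r90 : g c f e = g c e f := hg.s23 c e f
  have r91 : g e c f = g c e f := hg.s12 c e f
  have r92 : g e f c = g c e f := (hg.s23 e c f).trans (hg.s12 c e f)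
  have r93 : g f c e = g c e f := (hg.s12 c f e).trans (hg.s23 c e f)
  have r94 : g f e c = g c e f := (hg.s12 e f c).trans ((hg.s23 e c f).trans (hg.s12 c e f))
  have r95 : g d f e = g d e f := hg.s23 d e f
  have r96 : g e d f = g d e f := hg.s12 d e f
  have r97 : g e f d = g d e f := (hg.s23 e d f).trans (hg.s12 d e f)
  have r98 : g f d e = g d e f := (hg.s12 d f e).trans (hg.s23 d e f)
  have r99 : g f e d = g d e f := (hg.s12 e f d).trans ((hg.s23 e d f).trans (hg.s12 d e f))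
  simp only [MS, MB, Mt, r0, r1, r2, r3, r4, r5, r6, r7, r8, r9, r10, r11, r12, r13, r14, r15, r16, r17, r18, r19, r20, r21, r22, r23, r24, r25, r26, r27, r28, r29, r30, r31, r32, r33, r34, r35, r36, r37, r38, r39, r40, r41, r42, r43, r44, r45, r46, r47, r48, r49, r50, r51, r52, r53, r54, r55, r56, r57, r58, r59, r60, r61, r62, r63, r64, r65, r66, r67, r68, r69, r70, r71, r72, r73, r74, r75, r76, r77, r78, r79, r80, r81, r82, r83, r84, r85, r86, r87, r88, r89, r90, r91, r92, r93, r94, r95, r96, r97, r98, r99]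

theorem ES_eq_EB  (g : V → V → V → ℕ) (hg : Symm3 g) (a b c d e f : V) :
    ES  g a b c d e f = EB  (g a b c) (g a b d) (g a c d) (g b c d) (g a b e) (g a c e) (g b c e) (g a d e) (g b d e) (g c d e) (g a b f) (g a c f) (g b c f) (g a d f) (g b d f) (g c d f) (g a e f) (g b e f) (g c e f) (g d e f) := by
  simp only [ES, EB]

theorem PS_eq_PB (h : ℕ → ℕ) (g : V → V → V → ℕ) (hg : Symm3 g) (a b c d e f : V) :
    PS h g a b c d e f = PB h (g a b c) (g a b d) (g a c d) (g b c d) (g a b e) (g a c e) (g b c e) (g a d e) (g b d e) (g c d e) (g a b f) (g a c f) (g b c f) (g a d f) (g b d f) (g c d f) (g a e f) (g b e f) (g c e f) (g d e f) := by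
  simp only [PS, PB]

theorem KS_swap0 (K : ℕ → ℕ → ℕ → ℕ) (g : V → V → V → ℕ)
    (k01 : ∀ a b c d u v, Kt K g b a c d u v = Kt K g a b c d u v)
    (k12 : ∀ a b c d u v, Kt K g a c b d u v = Kt K g a b c d u v)
    (k23 : ∀ a b c d u v, Kt K g a b d c u v = Kt K g a b c d u v)
    (k45 : ∀ a b c d u v, Kt K g a b c d v u = Kt K g a b c d u v)
    (a b c d e f : V) : KS K g b a c d e f = KS K g a b c d e f := by
  have r1 : ∀ z1 z2 z3 z4, Kt K g b a z1 z2 z3 z4 = Kt K g a b z1 z2 z3 z4 := fun _ _ _ _ => k01 _ _ _ _ _ _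
  have r2 : ∀ z1 z2 z3 z4, Kt K g z1 b a z2 z3 z4 = Kt K g z1 a b z2 z3 z4 := fun _ _ _ _ => k12 _ _ _ _ _ _
  have r3 : ∀ z1 z2 z3 z4, Kt K g z1 z2 b a z3 z4 = Kt K g z1 z2 a b z3 z4 := fun _ _ _ _ => k23 _ _ _ _ _ _
  have r4 : ∀ z1 z2 z3 z4, Kt K g z1 z2 z3 z4 b a = Kt K g z1 z2 z3 z4 a b := fun _ _ _ _ => k45 _ _ _ _ _ _
  simp only [KS, r1, r2, r3, r4, Nat.add_eq]
  ring

theorem MS_swap0 (M : ℕ → ℕ → ℕ) (g : V → V → V → ℕ)
    (m01 : ∀ a b c d e f, Mt M g b a c d e f = Mt M g a b c d e f)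
    (m23 : ∀ a b c d e f, Mt M g a b d c e f = Mt M g a b c d e f)
    (m45 : ∀ a b c d e f, Mt M g a b c d f e = Mt M g a b c d e f)
    (mpp : ∀ a b c d e f, Mt M g a b e f c d = Mt M g a b c d e f)
    (a b c d e f : V) : MS M g b a c d e f = MS M g a b c d e f := by
  have r1 : ∀ z1 z2 z3 z4, Mt M g b a z1 z2 z3 z4 = Mt M g a b z1 z2 z3 z4 := fun _ _ _ _ => m01 _ _ _ _ _ _
  have r2 : ∀ z1 z2 z3 z4, Mt M g z1 z2 b a z3 z4 = Mt M g z1 z2 a b z3 z4 := fun _ _ _ _ => m23 _ _ _ _ _ _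
  have r3 : ∀ z1 z2 z3 z4, Mt M g z1 z2 z3 z4 b a = Mt M g z1 z2 z3 z4 a b := fun _ _ _ _ => m45 _ _ _ _ _ _
  have r4 : ∀ z1 z2 z3 z4, Mt M g z1 z2 b z3 a z4 = Mt M g z1 z2 a z4 b z3 := fun _ _ _ _ => mpp _ _ _ _ _ _
  simp only [MS, r1, r2, r3, r4, Nat.add_eq]
  ring

theorem ES_swap0 (g : V → V → V → ℕ) (hg : Symm3 g) (a b c d e f : V) :
    ES g b a c d e f = ES g a b c d e f := by
  have r1 : ∀ z, g b a z = g a b z := fun _ => hg.s12 _ _ _
  have r2 : ∀ z, g z b a = g z a b := fun _ => hg.s23 _ _ _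
  simp only [ES, r1, r2, Nat.add_eq]
  ring

theorem PS_swap0 (h : ℕ → ℕ) (g : V → V → V → ℕ) (hg : Symm3 g)
    (h01 : ∀ a b c d, h (ix4 (g b a c) (g b a d) (g b c d) (g a c d)) = h (ix4 (g a b c) (g a b d) (g a c d) (g b c d)))
    (h12 : ∀ a b c d, h (ix4 (g a c b) (g a c d) (g a b d) (g c b d)) = h (ix4 (g a b c) (g a b d) (g a c d) (g b c d)))
    (h23 : ∀ a b c d, h (ix4 (g a b d) (g a b c) (g a d c) (g b d c)) = h (ix4 (g a b c) (g a b d) (g a c d) (g b c d)))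
    (a b c d e f : V) : PS h g b a c d e f = PS h g a b c d e f := by
  have r1 : ∀ z1 z2, h (ix4 (g b a z1) (g b a z2) (g b z1 z2) (g a z1 z2)) = h (ix4 (g a b z1) (g a b z2) (g a z1 z2) (g b z1 z2)) := fun _ _ => h01 _ _ _ _
  have r2 : ∀ z1 z2, h (ix4 (g z1 b a) (g z1 b z2) (g z1 a z2) (g b a z2)) = h (ix4 (g z1 a b) (g z1 a z2) (g z1 b z2) (g a b z2)) := fun _ _ => h12 _ _ _ _
  have r3 : ∀ z1 z2, h (ix4 (g z1 z2 b) (g z1 z2 a) (g z1 b a) (g z2 b a)) = h (ix4 (g z1 z2 a) (g z1 z2 b) (g z1 a b) (g z2 a b)) := fun _ _ => h23 _ _ _ _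
  simp only [PS, r1, r2, r3, Nat.add_eq]
  ring

theorem KS_swap1 (K : ℕ → ℕ → ℕ → ℕ) (g : V → V → V → ℕ)
    (k01 : ∀ a b c d u v, Kt K g b a c d u v = Kt K g a b c d u v)
    (k12 : ∀ a b c d u v, Kt K g a c b d u v = Kt K g a b c d u v)
    (k23 : ∀ a b c d u v, Kt K g a b d c u v = Kt K g a b c d u v)
    (k45 : ∀ a b c d u v, Kt K g a b c d v u = Kt K g a b c d u v)
    (a b c d e f : V) : KS K g a c b d e f = KS K g a b c d e f := by
  have r1 : ∀ z1 z2 z3 z4, Kt K g c b z1 z2 z3 z4 = Kt K g b c z1 z2 z3 z4 := fun _ _ _ _ => k01 _ _ _ _ _ _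
  have r2 : ∀ z1 z2 z3 z4, Kt K g z1 c b z2 z3 z4 = Kt K g z1 b c z2 z3 z4 := fun _ _ _ _ => k12 _ _ _ _ _ _
  have r3 : ∀ z1 z2 z3 z4, Kt K g z1 z2 c b z3 z4 = Kt K g z1 z2 b c z3 z4 := fun _ _ _ _ => k23 _ _ _ _ _ _
  have r4 : ∀ z1 z2 z3 z4, Kt K g z1 z2 z3 z4 c b = Kt K g z1 z2 z3 z4 b c := fun _ _ _ _ => k45 _ _ _ _ _ _
  simp only [KS, r1, r2, r3, r4, Nat.add_eq]
  ring

theorem MS_swap1 (M : ℕ → ℕ → ℕ) (g : V → V → V → ℕ)
    (m01 : ∀ a b c d e f, Mt M g b a c d e f = Mt M g a b c d e f)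
    (m23 : ∀ a b c d e f, Mt M g a b d c e f = Mt M g a b c d e f)
    (m45 : ∀ a b c d e f, Mt M g a b c d f e = Mt M g a b c d e f)
    (mpp : ∀ a b c d e f, Mt M g a b e f c d = Mt M g a b c d e f)
    (a b c d e f : V) : MS M g a c b d e f = MS M g a b c d e f := by
  have r1 : ∀ z1 z2 z3 z4, Mt M g c b z1 z2 z3 z4 = Mt M g b c z1 z2 z3 z4 := fun _ _ _ _ => m01 _ _ _ _ _ _
  have r2 : ∀ z1 z2 z3 z4, Mt M g z1 z2 c b z3 z4 = Mt M g z1 z2 b c z3 z4 := fun _ _ _ _ => m23 _ _ _ _ _ _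
  have r3 : ∀ z1 z2 z3 z4, Mt M g z1 z2 z3 z4 c b = Mt M g z1 z2 z3 z4 b c := fun _ _ _ _ => m45 _ _ _ _ _ _
  have r4 : ∀ z1 z2 z3 z4, Mt M g z1 z2 c z3 b z4 = Mt M g z1 z2 b z4 c z3 := fun _ _ _ _ => mpp _ _ _ _ _ _
  simp only [MS, r1, r2, r3, r4, Nat.add_eq]
  ring

theorem ES_swap1 (g : V → V → V → ℕ) (hg : Symm3 g) (a b c d e f : V) :
    ES g a c b d e f = ES g a b c d e f := by
  have r1 : ∀ z, g c b z = g b c z := fun _ => hg.s12 _ _ _
  have r2 : ∀ z, g z c b = g z b c := fun _ => hg.s23 _ _ _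
  simp only [ES, r1, r2, Nat.add_eq]
  ring

theorem PS_swap1 (h : ℕ → ℕ) (g : V → V → V → ℕ) (hg : Symm3 g)
    (h01 : ∀ a b c d, h (ix4 (g b a c) (g b a d) (g b c d) (g a c d)) = h (ix4 (g a b c) (g a b d) (g a c d) (g b c d)))
    (h12 : ∀ a b c d, h (ix4 (g a c b) (g a c d) (g a b d) (g c b d)) = h (ix4 (g a b c) (g a b d) (g a c d) (g b c d)))
    (h23 : ∀ a b c d, h (ix4 (g a b d) (g a b c) (g a d c) (g b d c)) = h (ix4 (g a b c) (g a b d) (g a c d) (g b c d)))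
    (a b c d e f : V) : PS h g a c b d e f = PS h g a b c d e f := by
  have r1 : ∀ z1 z2, h (ix4 (g c b z1) (g c b z2) (g c z1 z2) (g b z1 z2)) = h (ix4 (g b c z1) (g b c z2) (g b z1 z2) (g c z1 z2)) := fun _ _ => h01 _ _ _ _
  have r2 : ∀ z1 z2, h (ix4 (g z1 c b) (g z1 c z2) (g z1 b z2) (g c b z2)) = h (ix4 (g z1 b c) (g z1 b z2) (g z1 c z2) (g b c z2)) := fun _ _ => h12 _ _ _ _
  have r3 : ∀ z1 z2, h (ix4 (g z1 z2 c) (g z1 z2 b) (g z1 c b) (g z2 c b)) = h (ix4 (g z1 z2 b) (g z1 z2 c) (g z1 b c) (g z2 b c)) := fun _ _ => h23 _ _ _ _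
  simp only [PS, r1, r2, r3, Nat.add_eq]
  ring

theorem KS_swap2 (K : ℕ → ℕ → ℕ → ℕ) (g : V → V → V → ℕ)
    (k01 : ∀ a b c d u v, Kt K g b a c d u v = Kt K g a b c d u v)
    (k12 : ∀ a b c d u v, Kt K g a c b d u v = Kt K g a b c d u v)
    (k23 : ∀ a b c d u v, Kt K g a b d c u v = Kt K g a b c d u v)
    (k45 : ∀ a b c d u v, Kt K g a b c d v u = Kt K g a b c d u v)
    (a b c d e f : V) : KS K g a b d c e f = KS K g a b c d e f := by
  have r1 : ∀ z1 z2 z3 z4, Kt K g d c z1 z2 z3 z4 = Kt K g c d z1 z2 z3 z4 := fun _ _ _ _ => k01 _ _ _ _ _ _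
  have r2 : ∀ z1 z2 z3 z4, Kt K g z1 d c z2 z3 z4 = Kt K g z1 c d z2 z3 z4 := fun _ _ _ _ => k12 _ _ _ _ _ _
  have r3 : ∀ z1 z2 z3 z4, Kt K g z1 z2 d c z3 z4 = Kt K g z1 z2 c d z3 z4 := fun _ _ _ _ => k23 _ _ _ _ _ _
  have r4 : ∀ z1 z2 z3 z4, Kt K g z1 z2 z3 z4 d c = Kt K g z1 z2 z3 z4 c d := fun _ _ _ _ => k45 _ _ _ _ _ _
  simp only [KS, r1, r2, r3, r4, Nat.add_eq]
  ring

theorem MS_swap2 (M : ℕ → ℕ → ℕ) (g : V → V → V → ℕ)
    (m01 : ∀ a b c d e f, Mt M g b a c d e f = Mt M g a b c d e f)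
    (m23 : ∀ a b c d e f, Mt M g a b d c e f = Mt M g a b c d e f)
    (m45 : ∀ a b c d e f, Mt M g a b c d f e = Mt M g a b c d e f)
    (mpp : ∀ a b c d e f, Mt M g a b e f c d = Mt M g a b c d e f)
    (a b c d e f : V) : MS M g a b d c e f = MS M g a b c d e f := by
  have r1 : ∀ z1 z2 z3 z4, Mt M g d c z1 z2 z3 z4 = Mt M g c d z1 z2 z3 z4 := fun _ _ _ _ => m01 _ _ _ _ _ _
  have r2 : ∀ z1 z2 z3 z4, Mt M g z1 z2 d c z3 z4 = Mt M g z1 z2 c d z3 z4 := fun _ _ _ _ => m23 _ _ _ _ _ _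
  have r3 : ∀ z1 z2 z3 z4, Mt M g z1 z2 z3 z4 d c = Mt M g z1 z2 z3 z4 c d := fun _ _ _ _ => m45 _ _ _ _ _ _
  have r4 : ∀ z1 z2 z3 z4, Mt M g z1 z2 d z3 c z4 = Mt M g z1 z2 c z4 d z3 := fun _ _ _ _ => mpp _ _ _ _ _ _
  simp only [MS, r1, r2, r3, r4, Nat.add_eq]
  ring

theorem ES_swap2 (g : V → V → V → ℕ) (hg : Symm3 g) (a b c d e f : V) :
    ES g a b d c e f = ES g a b c d e f := by
  have r1 : ∀ z, g d c z = g c d z := fun _ => hg.s12 _ _ _
  have r2 : ∀ z, g z d c = g z c d := fun _ => hg.s23 _ _ _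
  simp only [ES, r1, r2, Nat.add_eq]
  ring

theorem PS_swap2 (h : ℕ → ℕ) (g : V → V → V → ℕ) (hg : Symm3 g)
    (h01 : ∀ a b c d, h (ix4 (g b a c) (g b a d) (g b c d) (g a c d)) = h (ix4 (g a b c) (g a b d) (g a c d) (g b c d)))
    (h12 : ∀ a b c d, h (ix4 (g a c b) (g a c d) (g a b d) (g c b d)) = h (ix4 (g a b c) (g a b d) (g a c d) (g b c d)))
    (h23 : ∀ a b c d, h (ix4 (g a b d) (g a b c) (g a d c) (g b d c)) = h (ix4 (g a b c) (g a b d) (g a c d) (g b c d)))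
    (a b c d e f : V) : PS h g a b d c e f = PS h g a b c d e f := by
  have r1 : ∀ z1 z2, h (ix4 (g d c z1) (g d c z2) (g d z1 z2) (g c z1 z2)) = h (ix4 (g c d z1) (g c d z2) (g c z1 z2) (g d z1 z2)) := fun _ _ => h01 _ _ _ _
  have r2 : ∀ z1 z2, h (ix4 (g z1 d c) (g z1 d z2) (g z1 c z2) (g d c z2)) = h (ix4 (g z1 c d) (g z1 c z2) (g z1 d z2) (g c d z2)) := fun _ _ => h12 _ _ _ _
  have r3 : ∀ z1 z2, h (ix4 (g z1 z2 d) (g z1 z2 c) (g z1 d c) (g z2 d c)) = h (ix4 (g z1 z2 c) (g z1 z2 d) (g z1 c d) (g z2 c d)) := fun _ _ => h23 _ _ _ _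
  simp only [PS, r1, r2, r3, Nat.add_eq]
  ring

theorem KS_swap3 (K : ℕ → ℕ → ℕ → ℕ) (g : V → V → V → ℕ)
    (k01 : ∀ a b c d u v, Kt K g b a c d u v = Kt K g a b c d u v)
    (k12 : ∀ a b c d u v, Kt K g a c b d u v = Kt K g a b c d u v)
    (k23 : ∀ a b c d u v, Kt K g a b d c u v = Kt K g a b c d u v)
    (k45 : ∀ a b c d u v, Kt K g a b c d v u = Kt K g a b c d u v)
    (a b c d e f : V) : KS K g a b c e d f = KS K g a b c d e f := by
  have r1 : ∀ z1 z2 z3 z4, Kt K g e d z1 z2 z3 z4 = Kt K g d e z1 z2 z3 z4 := fun _ _ _ _ => k01 _ _ _ _ _ _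
  have r2 : ∀ z1 z2 z3 z4, Kt K g z1 e d z2 z3 z4 = Kt K g z1 d e z2 z3 z4 := fun _ _ _ _ => k12 _ _ _ _ _ _
  have r3 : ∀ z1 z2 z3 z4, Kt K g z1 z2 e d z3 z4 = Kt K g z1 z2 d e z3 z4 := fun _ _ _ _ => k23 _ _ _ _ _ _
  have r4 : ∀ z1 z2 z3 z4, Kt K g z1 z2 z3 z4 e d = Kt K g z1 z2 z3 z4 d e := fun _ _ _ _ => k45 _ _ _ _ _ _
  simp only [KS, r1, r2, r3, r4, Nat.add_eq]
  ring

theorem MS_swap3 (M : ℕ → ℕ → ℕ) (g : V → V → V → ℕ)
    (m01 : ∀ a b c d e f, Mt M g b a c d e f = Mt M g a b c d e f)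
    (m23 : ∀ a b c d e f, Mt M g a b d c e f = Mt M g a b c d e f)
    (m45 : ∀ a b c d e f, Mt M g a b c d f e = Mt M g a b c d e f)
    (mpp : ∀ a b c d e f, Mt M g a b e f c d = Mt M g a b c d e f)
    (a b c d e f : V) : MS M g a b c e d f = MS M g a b c d e f := by
  have r1 : ∀ z1 z2 z3 z4, Mt M g e d z1 z2 z3 z4 = Mt M g d e z1 z2 z3 z4 := fun _ _ _ _ => m01 _ _ _ _ _ _
  have r2 : ∀ z1 z2 z3 z4, Mt M g z1 z2 e d z3 z4 = Mt M g z1 z2 d e z3 z4 := fun _ _ _ _ => m23 _ _ _ _ _ _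
  have r3 : ∀ z1 z2 z3 z4, Mt M g z1 z2 z3 z4 e d = Mt M g z1 z2 z3 z4 d e := fun _ _ _ _ => m45 _ _ _ _ _ _
  have r4 : ∀ z1 z2 z3 z4, Mt M g z1 z2 e z3 d z4 = Mt M g z1 z2 d z4 e z3 := fun _ _ _ _ => mpp _ _ _ _ _ _
  simp only [MS, r1, r2, r3, r4, Nat.add_eq]
  ring

theorem ES_swap3 (g : V → V → V → ℕ) (hg : Symm3 g) (a b c d e f : V) :
    ES g a b c e d f = ES g a b c d e f := by
  have r1 : ∀ z, g e d z = g d e z := fun _ => hg.s12 _ _ _
  have r2 : ∀ z, g z e d = g z d e := fun _ => hg.s23 _ _ _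
  simp only [ES, r1, r2, Nat.add_eq]
  ring

theorem PS_swap3 (h : ℕ → ℕ) (g : V → V → V → ℕ) (hg : Symm3 g)
    (h01 : ∀ a b c d, h (ix4 (g b a c) (g b a d) (g b c d) (g a c d)) = h (ix4 (g a b c) (g a b d) (g a c d) (g b c d)))
    (h12 : ∀ a b c d, h (ix4 (g a c b) (g a c d) (g a b d) (g c b d)) = h (ix4 (g a b c) (g a b d) (g a c d) (g b c d)))
    (h23 : ∀ a b c d, h (ix4 (g a b d) (g a b c) (g a d c) (g b d c)) = h (ix4 (g a b c) (g a b d) (g a c d) (g b c d)))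
    (a b c d e f : V) : PS h g a b c e d f = PS h g a b c d e f := by
  have r1 : ∀ z1 z2, h (ix4 (g e d z1) (g e d z2) (g e z1 z2) (g d z1 z2)) = h (ix4 (g d e z1) (g d e z2) (g d z1 z2) (g e z1 z2)) := fun _ _ => h01 _ _ _ _
  have r2 : ∀ z1 z2, h (ix4 (g z1 e d) (g z1 e z2) (g z1 d z2) (g e d z2)) = h (ix4 (g z1 d e) (g z1 d z2) (g z1 e z2) (g d e z2)) := fun _ _ => h12 _ _ _ _
  have r3 : ∀ z1 z2, h (ix4 (g z1 z2 e) (g z1 z2 d) (g z1 e d) (g z2 e d)) = h (ix4 (g z1 z2 d) (g z1 z2 e) (g z1 d e) (g z2 d e)) := fun _ _ => h23 _ _ _ _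
  simp only [PS, r1, r2, r3, Nat.add_eq]
  ring

theorem KS_swap4 (K : ℕ → ℕ → ℕ → ℕ) (g : V → V → V → ℕ)
    (k01 : ∀ a b c d u v, Kt K g b a c d u v = Kt K g a b c d u v)
    (k12 : ∀ a b c d u v, Kt K g a c b d u v = Kt K g a b c d u v)
    (k23 : ∀ a b c d u v, Kt K g a b d c u v = Kt K g a b c d u v)
    (k45 : ∀ a b c d u v, Kt K g a b c d v u = Kt K g a b c d u v)
    (a b c d e f : V) : KS K g a b c d f e = KS K g a b c d e f := by
  have r1 : ∀ z1 z2 z3 z4, Kt K g f e z1 z2 z3 z4 = Kt K g e f z1 z2 z3 z4 := fun _ _ _ _ => k01 _ _ _ _ _ _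
  have r2 : ∀ z1 z2 z3 z4, Kt K g z1 f e z2 z3 z4 = Kt K g z1 e f z2 z3 z4 := fun _ _ _ _ => k12 _ _ _ _ _ _
  have r3 : ∀ z1 z2 z3 z4, Kt K g z1 z2 f e z3 z4 = Kt K g z1 z2 e f z3 z4 := fun _ _ _ _ => k23 _ _ _ _ _ _
  have r4 : ∀ z1 z2 z3 z4, Kt K g z1 z2 z3 z4 f e = Kt K g z1 z2 z3 z4 e f := fun _ _ _ _ => k45 _ _ _ _ _ _
  simp only [KS, r1, r2, r3, r4, Nat.add_eq]
  ring

theorem MS_swap4 (M : ℕ → ℕ → ℕ) (g : V → V → V → ℕ)
    (m01 : ∀ a b c d e f, Mt M g b a c d e f = Mt M g a b c d e f)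
    (m23 : ∀ a b c d e f, Mt M g a b d c e f = Mt M g a b c d e f)
    (m45 : ∀ a b c d e f, Mt M g a b c d f e = Mt M g a b c d e f)
    (mpp : ∀ a b c d e f, Mt M g a b e f c d = Mt M g a b c d e f)
    (a b c d e f : V) : MS M g a b c d f e = MS M g a b c d e f := by
  have r1 : ∀ z1 z2 z3 z4, Mt M g f e z1 z2 z3 z4 = Mt M g e f z1 z2 z3 z4 := fun _ _ _ _ => m01 _ _ _ _ _ _
  have r2 : ∀ z1 z2 z3 z4, Mt M g z1 z2 f e z3 z4 = Mt M g z1 z2 e f z3 z4 := fun _ _ _ _ => m23 _ _ _ _ _ _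
  have r3 : ∀ z1 z2 z3 z4, Mt M g z1 z2 z3 z4 f e = Mt M g z1 z2 z3 z4 e f := fun _ _ _ _ => m45 _ _ _ _ _ _
  have r4 : ∀ z1 z2 z3 z4, Mt M g z1 z2 f z3 e z4 = Mt M g z1 z2 e z4 f z3 := fun _ _ _ _ => mpp _ _ _ _ _ _
  simp only [MS, r1, r2, r3, r4, Nat.add_eq]
  ring

theorem ES_swap4 (g : V → V → V → ℕ) (hg : Symm3 g) (a b c d e f : V) :
    ES g a b c d f e = ES g a b c d e f := by
  have r1 : ∀ z, g f e z = g e f z := fun _ => hg.s12 _ _ _
  have r2 : ∀ z, g z f e = g z e f := fun _ => hg.s23 _ _ _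
  simp only [ES, r1, r2, Nat.add_eq]
  ring

theorem PS_swap4 (h : ℕ → ℕ) (g : V → V → V → ℕ) (hg : Symm3 g)
    (h01 : ∀ a b c d, h (ix4 (g b a c) (g b a d) (g b c d) (g a c d)) = h (ix4 (g a b c) (g a b d) (g a c d) (g b c d)))
    (h12 : ∀ a b c d, h (ix4 (g a c b) (g a c d) (g a b d) (g c b d)) = h (ix4 (g a b c) (g a b d) (g a c d) (g b c d)))
    (h23 : ∀ a b c d, h (ix4 (g a b d) (g a b c) (g a d c) (g b d c)) = h (ix4 (g a b c) (g a b d) (g a c d) (g b c d)))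
    (a b c d e f : V) : PS h g a b c d f e = PS h g a b c d e f := by
  have r1 : ∀ z1 z2, h (ix4 (g f e z1) (g f e z2) (g f z1 z2) (g e z1 z2)) = h (ix4 (g e f z1) (g e f z2) (g e z1 z2) (g f z1 z2)) := fun _ _ => h01 _ _ _ _
  have r2 : ∀ z1 z2, h (ix4 (g z1 f e) (g z1 f z2) (g z1 e z2) (g f e z2)) = h (ix4 (g z1 e f) (g z1 e z2) (g z1 f z2) (g e f z2)) := fun _ _ => h12 _ _ _ _
  have r3 : ∀ z1 z2, h (ix4 (g z1 z2 f) (g z1 z2 e) (g z1 f e) (g z2 f e)) = h (ix4 (g z1 z2 e) (g z1 z2 f) (g z1 e f) (g z2 e f)) := fun _ _ => h23 _ _ _ _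
  simp only [PS, r1, r2, r3, Nat.add_eq]
  ring

end Pool.Agent.H6Turan
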